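import Pool.Agent.P.MP_2c7719_nt.Win.Der

/-! Points with the Liouville property on a diagonal surface of large degree lie on lines. -/

namespace Pool.Agent.P.MP_2c7719_nt.Win

open MvPolynomial

theorem slopes {K : Type} [Field K] [CharZero K] {α : Fin 3 → K} (hα : ∀ i, α i ≠ 0) :
    ∃ l : Fin 3 → K, Function.Injective l ∧ (∀ i, l i ≠ 0) ∧ ∑ i, α i * l i = 0 := by
  classical
  obtain ⟨t, ht⟩ := Infinite.exists_notMem_finset
    ({0, 1, -α 0 / α 1, -(α 0 + α 2) / α 1, -α 0 / (α 1 + α 2)} : Finset K)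
  simp only [Finset.mem_insert, Finset.mem_singleton, not_or] at ht
  obtain ⟨t0, t1, t2, t3, t4⟩ := ht
  have h0 := hα 0
  have h1 := hα 1
  have h2 := hα 2
  have a1 : -(α 0 + α 1 * t) / α 2 ≠ 0 := fun h => t2 (by field_simp at h ⊢; linear_combination -h)
  have a2 : -(α 0 + α 1 * t) / α 2 ≠ 1 := fun h => t3 (by field_simp at h ⊢; linear_combination -h)
  have a3 : -(α 0 + α 1 * t) / α 2 ≠ t := fun h => by
    rw [div_eq_iff h2] at h
    by_cases h3 : α 1 + α 2 = 0
    · exact h0 (by linear_combination -h - t * h3)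
    · exact t4 (by field_simp; linear_combination -h)
  refine ⟨![1, t, -(α 0 + α 1 * t) / α 2], fun i j h => ?_, fun i => ?_, ?_⟩
  · fin_cases i <;> fin_cases j <;> simp_all [eq_comm]
  · fin_cases i <;> simp_all
  · simp [Fin.sum_univ_three]
    field_simp
    ring

theorem diag (T : ℕ) : ∃ k₀ : ℕ, ∀ k, k₀ ≤ k → ∀ {K L : Type} [Field K] [CharZero K] [Field L]
    [CharZero L] [Algebra K L]
    {x : Fin 3 → L} {α : Fin 3 → K}, (∀ i, α i ≠ 0) → ∑ i, α i • x i ^ k = 1 →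
    Liou K T x → (∀ w : L, IsAlgebraic K w → ∃ q : K, w = algebraMap K L q) →
    ∑ i, α i = 1 ∧ ((x 1 = 1 ∧ x 2 = x 0) ∨ (x 2 = 1 ∧ x 1 = x 0) ∨ (x 0 = 1 ∧ x 2 = x 1)) := by
  obtain ⟨c, j, hc⟩ := hb T
  refine ⟨j + c * (24 * c + 2) + 3, fun k hk K L _ _ _ _ _ x α hα hx hL hrat => ?_⟩
  have h1 : (1 : L) ∈ W K x := Submodule.subset_span (Set.mem_insert _ _)
  have hxm : ∀ i, x i ∈ W K x := fun i => Submodule.subset_span (Set.mem_insert_of_mem _ ⟨i, rfl⟩)
  have key : ∀ (q : K) (M : R3 K), M ∈ mm K → algebraMap K L q = aeval x M → q = 0 := fun q M hM e => by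
    have := hL 0 1 (by simp) (algebraMap K (R3 K) q) (by rw [pow_zero]; exact Submodule.algebraMap_mem q)
      M (by rwa [pow_one]) (by rw [AlgHom.commutes, e])
    rw [AlgHom.commutes] at this
    exact (map_eq_zero _).1 this
  have hs1 : ∑ i, α i = 1 := by
    have := key (1 - ∑ i, α i) (∑ i, α i • (X i ^ k - 1))
      (Submodule.sum_mem _ fun i _ => Submodule.smul_of_tower_mem _ _ (X_pow_sub_mem i k)) (by
        simp only [map_sub, map_sum, map_smul, map_pow, aeval_X, map_one, smul_sub,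
          Finset.sum_sub_distrib, hx, Algebra.algebraMap_eq_smul_one])
    exact (sub_eq_zero.1 this).symm
  have hs : ∑ i, α i ≠ 0 := hs1 ▸ one_ne_zero
  rw [← map_one (algebraMap K L), ← hs1] at hx
  obtain ⟨l, hli, h0, hl⟩ := slopes hα
  have hV := hc k (by omega) (hα 2) hli h0 hl hx hL
  obtain ⟨h, rfl⟩ : ∃ h, k = h + 2 := ⟨k - 2, by omega⟩
  refine ⟨hs1, ?_⟩
  have hm : ∀ i, (X i - 1 : R3 K) ∈ mm K := fun i => Ideal.subset_span ⟨i, rfl⟩
  have ha : ∀ i, IsAlgebraic K (x i) → x i = 1 := fun i hi => by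
    obtain ⟨q, hq⟩ := hrat _ hi
    rw [hq, sub_eq_zero.1 (key (q - 1) _ (hm i) (by simp [hq])), map_one]
  have hx0 : ∀ i, x i ≠ 0 := fun i hi => by
    have := ha i (hi ▸ isAlgebraic_zero)
    rw [hi] at this
    exact zero_ne_one this
  have hb : ∀ i j, IsAlgebraic K (x i / x j) → x i = x j := fun i j hi => by
    obtain ⟨q, hq⟩ := hrat _ hi
    rw [div_eq_iff (hx0 j)] at hq
    have := key (q - 1) _ (sub_mem (hm i) (Submodule.smul_of_tower_mem _ q (hm j))) (by
      simp only [map_sub, map_smul, aeval_X, map_one, hq]; rw [Algebra.smul_def]; ring)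
    rw [hq, sub_eq_zero.1 this, map_one, one_mul]
  have cr : ∀ i j k : Fin 3, (∀ m, m = i ∨ m = j ∨ m = k) →
      (∀ f : Fin 3 → L, ∑ m, f m = f i + f j + f k) → (∑ m, α m = α i + α j + α k) →
      Transcendental K (x i) → (x j = 1 ∧ x k = x i) ∨ (x k = 1 ∧ x j = x i) :=
    fun i j k h2 h3 h4 ht => core hV h1 (hxm i) (hxm j) (hxm k) (Submodule.span_mono (by
      rintro _ (rfl | ⟨m, rfl⟩)
      · simp
      · rcases h2 m with rfl | rfl | rfl <;> simp)) (hα i) (hα j) (hα k) (h4 ▸ hs) (h := h)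
      (by omega) (by rw [← h4, ← hx, h3]) (hx0 j) (hx0 k) hrat
      (by rintro w (rfl | rfl) <;> exact ⟨ha _, hb _ _⟩) ht
  by_cases t0 : IsAlgebraic K (x 0)
  · by_cases t1 : IsAlgebraic K (x 1)
    · by_cases t2 : IsAlgebraic K (x 2)
      · exact .inl ⟨ha 1 t1, (ha 2 t2).trans (ha 0 t0).symm⟩
      · have := cr 2 0 1 (by decide) (fun f => by rw [Fin.sum_univ_three]; ring)
          (by rw [Fin.sum_univ_three]; ring) t2
        tauto
    · have := cr 1 0 2 (by decide) (fun f => by rw [Fin.sum_univ_three]; ring)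
        (by rw [Fin.sum_univ_three]; ring) t1
      tauto
  · have := cr 0 1 2 (by decide) (fun f => by rw [Fin.sum_univ_three])
      (by rw [Fin.sum_univ_three]) t0
    tauto

end Pool.Agent.P.MP_2c7719_nt.Win
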