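import Pool.Agent.P.MP_2c7719_nt.Win.Dim

/-! The Hilbert function bound in low degree for a point close to a diagonal surface. -/

namespace Pool.Agent.P.MP_2c7719_nt.Win

open PowerSeries

set_option linter.unusedSectionVars false

noncomputable section

variable {K : Type} [Field K] [CharZero K]

/-- the Liouville property with a further small quantity `Φ` of order `C` -/
def Liou2 (K : Type) [Field K] {L : Type} [Field L] [Algebra K L] (T C : ℕ) (x : Fin 3 → L)
    (Φ : R3 K) : Prop :=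
  ∀ n τ j : ℕ, T * n + 1 ≤ τ → T * n + 1 ≤ C * j →
    ∀ F ∈ W K (MvPolynomial.X : Fin 3 → (R3 K)) ^ n, ∀ M ∈ mm K ^ τ, ∀ G : R3 K,
    MvPolynomial.aeval x F = MvPolynomial.aeval x M + MvPolynomial.aeval x (Φ ^ j * G) →
    MvPolynomial.aeval x F = 0

theorem dim_le2 {L : Type} [Field L] [Algebra K L] {T C k : ℕ} (hk : k ≠ 0) {x : Fin 3 → L}
    {α l : Fin 3 → K} (hα : α 2 ≠ 0) (h0 : l 0 ≠ 0) (hl : ∑ i, α i * l i = 0)
    (hL : Liou2 K T C x (∑ i, α i • MvPolynomial.X i ^ k - algebraMap K (R3 K) (∑ i, α i)))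
    (n e : ℕ) (hn : T * n + 1 ≤ C)
    (he : e = T * n + 1 ∨ ∃ F : (R3 K), MvPolynomial.aeval x F = 0 ∧
      MvPolynomial.aeval (fun i => bs (l i) (k : K)⁻¹) F ∣ X ^ e)
    {ι : Type} [Fintype ι] {f : ι → L} (hf : ∀ i, f i ∈ W K x ^ n) (hi : LinearIndependent K f) :
    Fintype.card ι ≤ (T * n + 1) * e := by
  set τ := T * n + 1
  choose F hF hFx using fun i => W_lift x n (hf i)
  let J : Ideal (R3 K) := (RingHom.ker (MvPolynomial.aeval x : (R3 K) →ₐ[K] L) ⊔ mm K ^ τ) ⊔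
    Ideal.span {∑ i, α i • MvPolynomial.X i ^ k - algebraMap K (R3 K) (∑ i, α i)}
  let t : (R3 K) := (l 0)⁻¹ • (MvPolynomial.X 0 ^ k - 1)
  let w : (R3 K) := MvPolynomial.X 1 ^ k - 1 - l 1 • t
  have ht : t ∈ mm K := Submodule.smul_of_tower_mem _ _ (X_pow_sub_mem 0 k)
  have hw : w ∈ mm K := sub_mem (X_pow_sub_mem 1 k) (Submodule.smul_of_tower_mem _ _ ht)
  have hind : LinearIndependent K fun i => Ideal.Quotient.mkₐ K J (F i) := by
    rw [Fintype.linearIndependent_iff] at hi ⊢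
    intro c hc
    apply hi c
    simp only [← map_smul, ← map_sum] at hc
    obtain ⟨G', hG', Q, hQ, hGQ⟩ := Submodule.mem_sup.1 (Ideal.Quotient.eq_zero_iff_mem.1 hc)
    obtain ⟨G, hG, M, hM, rfl⟩ := Submodule.mem_sup.1 hG'
    obtain ⟨Q', rfl⟩ := Ideal.mem_span_singleton.1 hQ
    have := hL n τ 1 le_rfl (by rwa [mul_one]) _
      (Submodule.sum_mem _ fun i _ => Submodule.smul_mem _ (c i) (hF i)) M hM Q'
      (by rw [← hGQ, map_add, map_add, RingHom.mem_ker.1 hG, zero_add, pow_one])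
    simpa only [map_sum, map_smul, hFx] using this
  refine card_le_of_filtr (Ideal.Quotient.mk J t) (Ideal.Quotient.mk J w) e τ ?_ ?_ hind
  · rw [← map_pow, Ideal.Quotient.eq_zero_iff_mem]
    exact Ideal.mem_sup_left (Ideal.mem_sup_right (Ideal.pow_mem_pow hw τ))
  let J' : Ideal (R3 K) := J ⊔ Ideal.span {w}
  let π := Ideal.Quotient.mkₐ K J'
  have hz : ∀ a ∈ J, π a = 0 := fun a ha =>
    Ideal.Quotient.eq_zero_iff_mem.2 (Ideal.mem_sup_left ha)
  have hnil : ∀ a ∈ mm K, π a ^ τ = 0 := fun a ha => by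
    rw [← map_pow]; exact hz _ (Ideal.mem_sup_left (Ideal.mem_sup_right (Ideal.pow_mem_pow ha τ)))
  obtain ⟨E, hE⟩ := exists_eval (K := K) ⟨τ, hnil t ht⟩
  have e0 : π (MvPolynomial.X 0) ^ k = 1 + l 0 • π t := by
    simp [t, smul_smul, mul_inv_cancel₀ h0]
  have e1 : π (MvPolynomial.X 1) ^ k = 1 + l 1 • π t := by
    have : π w = 0 := Ideal.Quotient.eq_zero_iff_mem.2
      (Ideal.mem_sup_right (Ideal.subset_span rfl))
    simp only [w, map_sub, map_pow, map_one, map_smul] at this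
    linear_combination this
  have e2 : π (MvPolynomial.X 2) ^ k = 1 + l 2 • π t := by
    have := hz (∑ i, α i • MvPolynomial.X i ^ k - algebraMap K (R3 K) (∑ i, α i))
      (Ideal.mem_sup_right (Ideal.subset_span rfl))
    rw [map_sub, AlgHom.commutes, Algebra.algebraMap_eq_smul_one] at this
    simp only [Fin.sum_univ_three, map_add, map_smul, map_pow, e0, e1] at this hl
    apply smul_right_injective _ hα
    have h2 : α 2 * l 2 = -(α 0 * l 0 + α 1 * l 1) := by linear_combination hl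
    simp only [smul_add, smul_smul, add_smul, h2, neg_smul] at this ⊢
    linear_combination this
  have hEX : ∀ i, E (bs (l i) (k : K)⁻¹) = π (MvPolynomial.X i) := fun i => by
    refine root_unique K hk ?_ ⟨τ, ?_⟩ ?_
    · obtain ⟨g, hg⟩ : X ∣ bs (l i) (k : K)⁻¹ - 1 := by rw [X_dvd_iff]; simp [bs_const]
      rw [← map_one E, ← map_sub, hg, map_mul, hE]
      exact (Commute.all _ _).isNilpotent_mul_right ⟨τ, hnil t ht⟩
    · rw [← map_one π, ← map_sub]
      exact hnil _ (Ideal.subset_span ⟨i, rfl⟩)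
    · rw [← map_pow, bs_pow, mul_inv_cancel₀ (Nat.cast_ne_zero.2 hk), bs_one, ← smul_eq_C_mul,
        map_add, map_one, map_smul, hE]
      fin_cases i
      exacts [e0.symm, e1.symm, e2.symm]
  have hπ : ∀ G : (R3 K), π G = E (MvPolynomial.aeval (fun i => bs (l i) (k : K)⁻¹) G) := fun G => by
    rw [← AlgHom.comp_apply]
    congr 1
    ext i
    simp [hEX]
  have hte : π t ^ e = 0 := by
    rcases he with rfl | ⟨G, hG, g, hg⟩
    · exact hnil t ht
    · rw [← hE, ← map_pow, hg, map_mul, ← hπ, hz G (Ideal.mem_sup_left (Ideal.mem_sup_left hG)), zero_mul]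
  intro a
  obtain ⟨G, rfl⟩ := Ideal.Quotient.mk_surjective a
  set g := MvPolynomial.aeval (fun i => bs (l i) (k : K)⁻¹) G with hg
  have h1 : π (G - ∑ i : Fin e, coeff (i : ℕ) g • t ^ (i : ℕ)) = 0 := by
    obtain ⟨g', hg'⟩ : X ^ e ∣ g - ∑ i : Fin e, coeff (i : ℕ) g • X ^ (i : ℕ) := by
      rw [X_pow_dvd_iff]
      intro m hm
      simp only [map_sub, map_sum, map_smul, coeff_X_pow, smul_eq_mul, mul_ite, mul_one, mul_zero]
      rw [Finset.sum_eq_single ⟨m, hm⟩ (fun b _ hb => if_neg fun h => hb (Fin.ext h.symm))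
        (by simp)]
      simp
    have := congrArg E hg'
    simp only [map_sub, map_sum, map_smul, map_pow, map_mul, hE, hte, zero_mul] at this
    simp only [map_sub, map_sum, map_smul, map_pow, hπ G]
    exact this
  obtain ⟨j, hj, y, hy, hjy⟩ := Submodule.mem_sup.1 (Ideal.Quotient.eq_zero_iff_mem.1 h1)
  obtain ⟨b, rfl⟩ := Ideal.mem_span_singleton.1 hy
  refine ⟨∑ i : Fin e, coeff (i : ℕ) g • Ideal.Quotient.mk J t ^ (i : ℕ),
    Submodule.sum_mem _ fun i _ => Submodule.smul_mem _ _ (Submodule.subset_span ⟨i, rfl⟩),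
    Ideal.Quotient.mk J b, ?_⟩
  have := congrArg (Ideal.Quotient.mkₐ K J) hjy
  simp only [map_add, map_sub, map_sum, map_smul, map_pow, map_mul, Ideal.Quotient.mkₐ_eq_mk,
    Ideal.Quotient.eq_zero_iff_mem.2 hj] at this
  linear_combination -this

theorem hb2 (T : ℕ) : ∃ c j : ℕ, ∀ k, j < k → ∀ C, T * (3 * j) + T * (4 * c) + 1 ≤ C → ∀ {K L : Type} [Field K] [CharZero K] [Field L]
    [Algebra K L]
    {x : Fin 3 → L} {α l : Fin 3 → K}, α 2 ≠ 0 → Function.Injective l → (∀ i, l i ≠ 0) →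
    ∑ i, α i * l i = 0 →
    Liou2 K T C x (∑ i, α i • MvPolynomial.X i ^ k - algebraMap K (R3 K) (∑ i, α i)) →
    ∀ (ι : Type) [Fintype ι] (f : ι → L), (∀ i, f i ∈ W K x ^ (4 * c)) → LinearIndependent K f →
      Fintype.card ι ≤ c * (4 * c + 1) := by
  set j := (3 * T + 1) ^ 2 with hj
  obtain ⟨Z, hZ⟩ := zero_est ((j + 1) ^ 3) 0
  refine ⟨(T + 1) * Z, j, fun k hk C hC K L _ _ _ _ x α l hα hli h0 hl hL ι _ f hf hi => ?_⟩
  generalize 4 * ((T + 1) * Z) = n at hC hf ⊢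
  have hk0 : k ≠ 0 := by omega
  have h1 : (1 : L) ∈ W K x := Submodule.subset_span (Set.mem_insert _ _)
  have hxm : ∀ i, x i ∈ W K x := fun i => Submodule.subset_span (Set.mem_insert_of_mem _ ⟨i, rfl⟩)
  have hdep : ¬ LinearIndependent K fun s : Fin 3 → Fin (j + 1) =>
      x 0 ^ (s 0 : ℕ) * x 1 ^ (s 1 : ℕ) * x 2 ^ (s 2 : ℕ) := fun h => by
    have := dim_le2 hk0 hα (h0 0) hl hL (3 * j) _ (by omega) (.inl rfl) (fun s => mono_mem h1
      (pmul (pmul (Submodule.pow_mem_pow _ (hxm 0) _) (Submodule.pow_mem_pow _ (hxm 1) _))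
        (Submodule.pow_mem_pow _ (hxm 2) _))
      (by have := (s 0).2; have := (s 1).2; have := (s 2).2; omega)) h
    simp only [Fintype.card_pi, Fintype.card_fin, Finset.prod_const, Finset.card_univ] at this
    have h2 : T * (3 * j) + 1 ≤ (3 * T + 1) * (j + 1) := by nlinarith
    have h3 := this.trans (Nat.mul_le_mul h2 h2)
    rw [mul_mul_mul_comm, ← sq, ← hj] at h3
    nlinarith
  obtain ⟨c, hc, s₀, hs₀⟩ := Fintype.not_linearIndependent_iff.1 hdep
  have := dim_le2 hk0 hα (h0 0) hl hL n Z (by omega) (.inr ⟨∑ s : Fin 3 → Fin (j + 1), c s •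
    (MvPolynomial.X 0 ^ (s 0 : ℕ) * MvPolynomial.X 1 ^ (s 1 : ℕ) * MvPolynomial.X 2 ^ (s 2 : ℕ)),
      by simpa using hc, ?_⟩) hf hi
  · exact this.trans (by nlinarith)
  refine (ValuationRing.dvd_total _ _).resolve_right fun h => hs₀ ?_
  have := hZ l hli h0 Finset.univ (fun (s : Fin 3 → Fin (j + 1)) i => ((s i : ℕ) : K) * (k : K)⁻¹)
    (fun s => Polynomial.C (c s)) (by simp) (fun s _ s' _ hne hint => hne ?_) (by simp)
    (by simpa [ph, bs_pow, smul_eq_C_mul] using h) s₀ (Finset.mem_univ _)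
  · simpa using this
  ext i
  obtain ⟨z, hz⟩ := hint i
  simp only [Pi.sub_apply] at hz
  have hk1 : (k : K) ≠ 0 := Nat.cast_ne_zero.2 hk0
  field_simp at hz
  have h2 : ((s i : ℕ) : ℤ) - (s' i : ℕ) = k * z := by exact_mod_cast hz
  have := (s i).2
  have := (s' i).2
  rcases lt_trichotomy z 0 with h | h | h
  · nlinarith
  · rw [h] at h2; omega
  · nlinarith

end

end Pool.Agent.P.MP_2c7719_nt.Win
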