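import Pool.Agent.P.MP_2c7719_nt.Win.ApxA
import Pool.Agent.P.MP_2c7719_nt.Win.ApxB

/-! Constants of a derivation on a curve, and elimination of terms in a small sum. -/

namespace Pool.Agent.P.MP_2c7719_nt.Win

open Polynomial

set_option linter.unusedSectionVars false

variable {K L : Type} [Field K] [CharZero K] [Field L] [CharZero L] [Algebra K L]

theorem aa_eq (s y : L) (q : K[X][X]) :
    aevalAeval s y q = eval y (q.map (aeval s : K[X] →ₐ[K] L).toRingHom) := by
  induction q using Polynomial.induction_on' with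
  | add p q hp hq => rw [map_add, hp, hq, Polynomial.map_add, eval_add]
  | monomial n a =>
    rw [← C_mul_X_pow_eq_monomial, map_mul, aevalAeval_C, map_pow, aevalAeval_Y]
    simp

theorem const_alg (D : Derivation K L L) {s κ : L} (hD : D s ≠ 0) (hκ : D κ = 0)
    (h : IsAlgebraic (Algebra.adjoin K {s}) κ) : IsAlgebraic K κ := by
  by_contra ht
  obtain ⟨p, hp0, hp⟩ := h
  obtain ⟨q, hq⟩ : p.map (algebraMap _ L) ∈ lifts (aeval s : K[X] →ₐ[K] L).toRingHom :=
    (lifts_iff_coeff_lifts _).2 fun n => by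
      rw [coeff_map]
      exact (Algebra.adjoin_singleton_eq_range_aeval K s).le (p.coeff n).2
  replace hq : q.map (aeval s : K[X] →ₐ[K] L).toRingHom = p.map (algebraMap _ L) := hq
  have hq0 : Bivariate.swap q ≠ 0 := fun h => hp0 (by
    rw [map_eq_zero_iff _ Bivariate.swap.injective] at h
    rw [h, Polynomial.map_zero, eq_comm, Polynomial.map_eq_zero_iff Subtype.val_injective] at hq
    exact hq)
  have h1 : aevalAeval κ s (Bivariate.swap q) = 0 := by
    rw [Bivariate.aevalAeval_swap, aa_eq, hq, eval_map, ← aeval_def, hp]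
  rw [aa_eq] at h1
  obtain ⟨r, -, h2, h3, h4⟩ := exists_min (LinearMap.ker (D : L →ₗ[K] L)) s _ _ _ rfl
    ((Polynomial.map_ne_zero_iff (transcendental_iff_injective.1 ht)).2 hq0) le_rfl
    (fun j => by
      rw [coeff_map, LinearMap.mem_ker]
      change D (aeval κ _) = 0
      rw [Derivation.map_aeval, hκ, smul_zero]) h1
  have := der_eval D s r
  rw [h3, map_zero, sum_def, Finset.sum_eq_zero fun j _ => by
    rw [show D (r.coeff j) = 0 from h2 j, zero_mul], zero_add] at this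
  exact mul_ne_zero h4 hD this.symm

theorem der_bdd2 {c : ℕ} {V : Submodule K L}
    (hV : ∀ (ι : Type) [Fintype ι] (f : ι → L), (∀ i, f i ∈ V ^ (4 * c)) → LinearIndependent K f →
      Fintype.card ι ≤ c * (4 * c + 1)) (h1 : (1 : L) ∈ V) (D : Derivation K L L) {s y : L}
    (hs : s ∈ V) (hy : y ∈ V) (ht : Transcendental K s) (hD : D s = 1) :
    IsAlgebraic (Algebra.adjoin K {s}) y ∧ ∃ η ∈ V ^ (4 * c), η ≠ 0 ∧ η * D y ∈ V ^ (4 * c) := by
  obtain ⟨r, h0, h2, h3, h4⟩ := exists_rel (y := y) ht (2 * c) fun hi => by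
    have := hV _ _ (fun u => mono_mem h1 (pmul (Submodule.pow_mem_pow _ hs _)
      (Submodule.pow_mem_pow _ hy _)) (by have := u.1.2; have := u.2.2; omega)) hi
    simp only [Fintype.card_prod, Fintype.card_fin] at this
    nlinarith
  have h5 : ∀ j, r.coeff j ∈ V ^ (2 * c) ∧ D (r.coeff j) ∈ V ^ (2 * c) := fun j => by
    refine Submodule.span_induction (p := fun a _ => a ∈ V ^ (2 * c) ∧ D a ∈ V ^ (2 * c)) ?_
      (by simp) (fun a b _ _ ha hb => ⟨add_mem ha.1 hb.1, by rw [map_add]; exact add_mem ha.2 hb.2⟩)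
      (fun e a _ ha => ⟨Submodule.smul_mem _ _ ha.1, by
        rw [D.map_smul]; exact Submodule.smul_mem _ _ ha.2⟩) (h2 j)
    rintro _ ⟨i, rfl⟩
    have := i.2
    refine ⟨mono_mem h1 (Submodule.pow_mem_pow _ hs _) (by omega), ?_⟩
    simp only [Derivation.leibniz_pow, hD, smul_eq_mul, mul_one]
    exact nsmul_mem (mono_mem h1 (Submodule.pow_mem_pow _ hs _) (by omega)) _
  refine ⟨?_, _, ?_, h4, ?_⟩
  · obtain ⟨q, hq⟩ : r ∈ lifts (algebraMap (Algebra.adjoin K {s}) L) :=
      (lifts_iff_coeff_lifts _).2 fun n => ⟨⟨r.coeff n, (Submodule.span_le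
        (p := (Algebra.adjoin K {s}).toSubmodule)).2 (by
          rintro _ ⟨i, rfl⟩
          exact pow_mem (Algebra.self_mem_adjoin_singleton K s) _) (h2 n)⟩, rfl⟩
    replace hq : q.map (algebraMap _ L) = r := hq
    refine ⟨q, fun h => h4 (by simp [← hq, h]), ?_⟩
    rw [aeval_def, ← eval_map, hq, h3]
  · rw [eval_eq_sum_range' (Nat.lt_succ_of_le ((natDegree_derivative_le r).trans
      ((Nat.sub_le _ _).trans h0)))]
    refine Submodule.sum_mem _ fun j hj => ?_
    rw [coeff_derivative, ← Nat.cast_succ, mul_right_comm, ← nsmul_eq_mul']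
    exact nsmul_mem (mono_mem h1 (pmul (h5 _).1 (Submodule.pow_mem_pow _ hy _))
      (by have := Finset.mem_range.1 hj; omega)) _
  · have := der_eval D y r
    rw [h3, map_zero, eq_comm, add_eq_zero_iff_neg_eq, sum_def] at this
    rw [← this]
    exact neg_mem (Submodule.sum_mem _ fun j hj => mono_mem h1 (pmul (h5 _).2
      (Submodule.pow_mem_pow _ hy _)) (by have := le_natDegree_of_mem_supp j hj; omega))

theorem elim {V : Submodule K L} (h1 : (1 : L) ∈ V) (R : Subalgebra K L)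
    (hVR : ∀ n, ∀ a ∈ V ^ n, a ∈ R) (D : Derivation K L L) {g B : ℕ}
    (hDV : ∀ a ∈ V, D a ∈ V ^ g) (Sm : ℕ → L → Prop)
    (Sadd : ∀ {b u v}, Sm b u → Sm b v → Sm b (u + v))
    (Smul : ∀ {b u r}, r ∈ R → Sm b u → Sm b (r * u)) (Sup : ∀ {b u}, Sm b u → Sm (b + 2) u)
    (Sder : ∀ {b u}, u ∈ R → Sm b u → Sm (b + 2) (D u))
    (Szero : ∀ n b, n + b ≤ B → ∀ u ∈ V ^ n, Sm b u → u = 0)
    (hconst : ∀ u ∈ R, ∀ v ∈ R, D (u / v) = 0 → ∃ q : K, u / v = algebraMap K L q)
    {ι : Type} [DecidableEq ι] {P : L} (hP : P ∈ V ^ 3) (hP0 : P ≠ 0) {y l : ι → L}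
    (hy : ∀ i, y i ∈ R) (hy' : ∀ i, (y i)⁻¹ ∈ R) (hy0 : ∀ i, y i ≠ 0)
    (hl : ∀ i, l i ∈ V ^ (g + 3)) (hyl : ∀ i, P * D (y i) = l i * y i) (s : Finset ι) :
    ∀ (n b : ℕ) (G : ι → L), (n + g + 3) * 2 ^ s.card + b + 2 * s.card ≤ B → (∀ i, G i ∈ V ^ n) →
      Sm b (∑ i ∈ s, G i * y i) → ∑ i ∈ s, G i * y i = 0 := by
  induction s using Finset.induction_on with
  | empty => simp
  | insert i s hi ih =>
    intro n b G hB hG hS
    rw [Finset.card_insert_of_notMem hi, pow_succ] at hB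
    by_cases h0 : G i = 0
    · rw [Finset.sum_insert hi, h0, zero_mul, zero_add] at hS ⊢
      exact ih n b G (by rw [← mul_assoc] at hB; omega) hG hS
    have hDG : ∀ j, D (G j) ∈ V ^ (n + g) := fun j => der_mem D h1 hDV n _ (hG j)
    set S := ∑ j ∈ insert i s, G j * y j with hSd
    have hSR : S ∈ R := Subalgebra.sum_mem _ fun j _ => mul_mem (hVR _ _ (hG j)) (hy j)
    let H : ι → L := fun j => P * (G i * D (G j) - G j * D (G i)) + G j * G i * (l j - l i)
    have e1 : ∑ j ∈ s, H j * y j = P * G i * D S + -(P * D (G i) + G i * l i) * S := by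
      have : ∑ j ∈ insert i s, H j * y j = P * G i * D S + -(P * D (G i) + G i * l i) * S := by
        rw [hSd, map_sum, Finset.mul_sum, Finset.mul_sum, ← Finset.sum_add_distrib]
        refine Finset.sum_congr rfl fun j _ => ?_
        simp only [H, D.leibniz, smul_eq_mul]
        linear_combination -(G i * G j) * hyl j
      rw [← this, Finset.sum_insert hi]
      simp [H]
    have e2 := ih (n + (n + g) + 3) (b + 2) H (by nlinarith) (fun j => add_mem
      (mono_mem h1 (pmul hP (sub_mem (pmul (hG i) (hDG j)) (pmul (hG j) (hDG i)))) (by omega))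
      (mono_mem h1 (pmul (pmul (hG j) (hG i)) (sub_mem (hl j) (hl i))) (by omega)))
      (e1 ▸ Sadd (Smul (hVR _ _ (pmul hP (hG i))) (Sder hSR hS))
        (Smul (neg_mem (add_mem (hVR _ _ (pmul hP (hDG i))) (hVR _ _ (pmul (hG i) (hl i)))))
          (Sup hS)))
    rw [e1] at e2
    have q0 : G i * y i ≠ 0 := mul_ne_zero h0 (hy0 i)
    obtain ⟨q, hq⟩ := hconst S hSR (G i * y i) (mul_mem (hVR _ _ (hG i)) (hy i)) (by
      rw [D.leibniz_div, D.leibniz]
      simp only [smul_eq_mul]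
      refine mul_eq_zero_of_right _ (mul_left_cancel₀ hP0 ?_)
      linear_combination y i * e2 - S * G i * hyl i)
    rw [div_eq_iff q0] at hq
    have e3 : (y i)⁻¹ * S = q • G i := by
      rw [hq, Algebra.smul_def]
      have := hy0 i
      field_simp
    have := Szero n b (by nlinarith [Nat.one_le_two_pow (n := s.card)]) _
      (Submodule.smul_mem _ q (hG i)) (e3 ▸ Smul (hy' i) hS)
    rw [← e3] at this
    exact (mul_eq_zero.1 this).resolve_left (inv_ne_zero (hy0 i))

end Pool.Agent.P.MP_2c7719_nt.Win
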