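import Pool.Agent.P.MP_2c7719_nt.Win.Der

/-! A derivation lowers every valuation by a bounded amount. -/

namespace Pool.Agent.P.MP_2c7719_nt.Win

open PowerSeries

set_option linter.unusedSectionVars false

variable {K L : Type} [Field K] [CharZero K] [Field L] [CharZero L] [Algebra K L]

theorem gauss_aux (V : ValuationSubring L) {A : L⟦X⟧} {N : ℕ} (h0 : coeff 0 A = 1)
    (hA : ∀ j, N ≤ j → coeff j A ∈ V) :
    ∃ i, coeff i A ≠ 0 ∧ (coeff i A)⁻¹ ∈ V ∧ ∀ j, coeff j A * (coeff i A)⁻¹ ∈ V := by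
  obtain ⟨i, -, hi⟩ := (Finset.range (N + 1)).exists_max_image
    (fun j => V.valuation (coeff j A)) ⟨0, by simp⟩
  have h1 := hi 0 (by simp)
  rw [h0, map_one] at h1
  have h2 : coeff i A ≠ 0 := fun h => by simp [h] at h1
  have h3 : (coeff i A)⁻¹ ∈ V := by
    rw [← V.valuation_le_one_iff, map_inv₀]
    exact inv_le_one_of_one_le₀ h1
  refine ⟨i, h2, h3, fun j => ?_⟩
  by_cases hj : N ≤ j
  · exact mul_mem (hA j hj) h3
  · rw [← V.valuation_le_one_iff, map_mul, map_inv₀]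
    exact mul_inv_le_one_of_le₀ (hi j (Finset.mem_range.2 (by omega))) zero_le

theorem gauss (V : ValuationSubring L) {A B : L⟦X⟧} {N : ℕ} (hA0 : coeff 0 A = 1)
    (hB0 : coeff 0 B = 1) (hA : ∀ j, N ≤ j → coeff j A ∈ V) (hB : ∀ j, N ≤ j → coeff j B ∈ V)
    (hAB : ∀ j, coeff j (A * B) ∈ V) (j : ℕ) : coeff j A ∈ V := by
  obtain ⟨i, a0, a1, a2⟩ := gauss_aux V hA0 hA
  obtain ⟨i', b0, b1, b2⟩ := gauss_aux V hB0 hB
  let A' : V⟦X⟧ := mk fun j => ⟨_, a2 j⟩
  let B' : V⟦X⟧ := mk fun j => ⟨_, b2 j⟩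
  have nz : ∀ (F : V⟦X⟧) (i : ℕ), coeff i F = 1 → map (IsLocalRing.residue V) F ≠ 0 :=
    fun F i h h' => by simpa [h] using congrArg (coeff i) h'
  have h1 := mul_ne_zero (nz A' i (Subtype.ext (by simp [A', a0])))
    (nz B' i' (Subtype.ext (by simp [B', b0])))
  rw [← map_mul] at h1
  obtain ⟨m, hm⟩ := exists_coeff_ne_zero_iff_ne_zero.2 h1
  rw [coeff_map, Ne, IsLocalRing.residue_eq_zero_iff, IsLocalRing.notMem_maximalIdeal] at hm
  obtain ⟨u, hu⟩ := hm.exists_right_inv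
  have h2 : ((coeff m (A' * B') : V) : L) = coeff m (A * B) * (coeff i A)⁻¹ * (coeff i' B)⁻¹ := by
    simp only [coeff_mul, A', B', coeff_mk, Finset.sum_mul]
    rw [AddSubmonoidClass.coe_finsetSum]
    exact Finset.sum_congr rfl fun p _ => by push_cast; ring
  have h3 := congrArg (Subtype.val : V → L) hu
  push_cast at h3
  rw [h2] at h3
  have h4 : coeff j A = coeff j A * (coeff i A)⁻¹ * (coeff m (A * B) * (coeff i' B)⁻¹ * u) := by
    have : coeff m (A * B) * (coeff i' B)⁻¹ * u = coeff i A := by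
      field_simp at h3 ⊢
      linear_combination h3
    rw [this, inv_mul_cancel_right₀ a0]
  rw [h4]
  exact mul_mem (a2 j) (mul_mem (mul_mem (hAB m) b1) u.2)

/-- the Taylor series of `w` along a derivation -/
noncomputable def ex (δ : Derivation K L L) (w : L) : L⟦X⟧ :=
  mk fun j => ((j.factorial : ℕ) : L)⁻¹ * δ^[j] w

theorem ex_add (δ : Derivation K L L) (a b : L) : ex δ (a + b) = ex δ a + ex δ b := by
  ext j
  simp [ex, mul_add]

theorem ex_der (δ : Derivation K L L) (a : L) : d⁄dX L (ex δ a) = ex δ (δ a) := by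
  ext j
  have h1 : ((j.factorial : ℕ) : L) ≠ 0 := Nat.cast_ne_zero.2 j.factorial_ne_zero
  have h2 : (j : L) + 1 ≠ 0 := Nat.cast_add_one_ne_zero j
  simp only [coeff_derivative, ex, coeff_mk, Function.iterate_succ_apply, Nat.factorial_succ]
  push_cast
  field_simp

theorem ex_mul (δ : Derivation K L L) (a b : L) : ex δ (a * b) = ex δ a * ex δ b := by
  ext j
  induction j generalizing a b with
  | zero => simp [ex, coeff_mul]
  | succ j ih =>
    apply mul_right_cancel₀ (Nat.cast_add_one_ne_zero j : (j : L) + 1 ≠ 0)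
    rw [← coeff_derivative, ← coeff_derivative, ex_der, δ.leibniz, Derivation.leibniz, ex_der,
      ex_der]
    simp only [smul_eq_mul, ex_add, map_add, ih]

theorem logder (R : Subalgebra K L) (D : Derivation K L L) (hD : ∀ w ∈ R, D w ∈ R) {σ w G : L}
    (hσ : σ ∈ R) (hσ0 : σ ≠ 0) (hw : w ∈ R) (hG : G ∈ R) {N : ℕ} (e : w * G = σ ^ N)
    (V : ValuationSubring L) (hV : ∀ a ∈ R, a ∈ V) : σ ^ 2 * D w / w ∈ V := by
  set δ : Derivation K L L := σ ^ 2 • D with hδ
  have it : ∀ j a : ℕ, ∀ r ∈ R, ∃ r' ∈ R, δ^[j] (σ ^ a * r) = σ ^ (a + j) * r' := fun j => by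
    induction j with
    | zero => exact fun a r hr => ⟨r, hr, rfl⟩
    | succ j ih =>
      intro a r hr
      obtain ⟨r', hr', h⟩ := ih (a + 1) (σ * D r + a • (r * D σ))
        (add_mem (mul_mem hσ (hD r hr)) (nsmul_mem (mul_mem hr (hD σ hσ)) a))
      refine ⟨r', hr', ?_⟩
      rw [Function.iterate_succ_apply, show a + (j + 1) = a + 1 + j by ring, ← h]
      congr 1
      simp only [hδ, Derivation.smul_apply, D.leibniz, D.leibniz_pow, smul_eq_mul, nsmul_eq_mul]
      rcases a with _ | a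
      · simp; ring
      · simp only [Nat.add_sub_cancel]; ring
  have hf : ∀ j : ℕ, ((j.factorial : ℕ) : L)⁻¹ ∈ R := fun j => by
    rw [← map_natCast (algebraMap K L), ← map_inv₀]
    exact R.algebraMap_mem _
  have hN : σ ^ N ≠ 0 := pow_ne_zero _ hσ0
  have hw0 : w ≠ 0 := left_ne_zero_of_mul (e ▸ hN)
  have hG0 : G ≠ 0 := right_ne_zero_of_mul (e ▸ hN)
  have tail : ∀ {w G : L}, w ∈ R → G ∈ R → w ≠ 0 → w * G = σ ^ N → ∀ j, N ≤ j →
      coeff j (C w⁻¹ * ex δ w) ∈ V := fun {w G} hw hG h0 e j hj => by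
    obtain ⟨r, hr, h⟩ := it j 0 w hw
    obtain ⟨i, rfl⟩ := Nat.exists_eq_add_of_le hj
    rw [pow_zero, one_mul, zero_add, pow_add, ← e] at h
    rw [coeff_C_mul, ex, coeff_mk, h]
    convert hV _ (mul_mem (hf (N + i)) (mul_mem (mul_mem hG (pow_mem hσ i)) hr)) using 1
    field_simp
  have := gauss V (A := C w⁻¹ * ex δ w) (B := C G⁻¹ * ex δ G) (by simp [ex, hw0])
    (by simp [ex, hG0]) (tail hw hG hw0 e) (tail hG hw hG0 (mul_comm w G ▸ e)) (fun j => by
      obtain ⟨r, hr, h⟩ := it j N 1 (one_mem _)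
      rw [mul_one] at h
      rw [mul_mul_mul_comm, ← map_mul, ← ex_mul, ← mul_inv, e, coeff_C_mul, ex, coeff_mk, h]
      convert hV _ (mul_mem (hf j) (mul_mem (pow_mem hσ j) hr)) using 1
      rw [pow_add]
      field_simp) 1
  simpa [ex, hδ, div_eq_inv_mul] using this

theorem pow_of_val (R : Subalgebra K L) {ω Φ : L} (hΦ : Φ ∈ R) (h1 : Φ * ω ∈ R)
    (h : ∀ V : ValuationSubring L, (∀ a ∈ R, a ∈ V) → ω ∈ V) :
    ∃ m : ℕ, ∀ N : ℕ, Φ ^ m * ω ^ N ∈ R := by
  have h2 : ω ∈ (integralClosure (Subring.closure (R : Set L)) L).toSubring := by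
    rw [← iInf_valuationSubring_superset, Subring.mem_iInf]
    exact fun V => h V.1 V.2
  obtain ⟨p, hp, hp0⟩ := h2
  have hc : ∀ i, algebraMap _ L (p.coeff i) ∈ R := fun i =>
    (Subring.closure_le (t := R.toSubring)).2 le_rfl (p.coeff i).2
  refine ⟨p.natDegree, fun N => ?_⟩
  induction N using Nat.strong_induction_on with
  | _ N ih =>
    by_cases hN : N ≤ p.natDegree
    · obtain ⟨i, hi⟩ := Nat.exists_eq_add_of_le hN
      rw [hi, pow_add, mul_right_comm, ← mul_pow]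
      exact mul_mem (pow_mem h1 _) (pow_mem hΦ _)
    · obtain ⟨i, rfl⟩ := Nat.exists_eq_add_of_le (not_le.1 hN).le
      rw [Polynomial.eval₂_eq_sum_range, Finset.sum_range_succ, hp.coeff_natDegree, map_one,
        one_mul, add_eq_zero_iff_neg_eq] at hp0
      rw [pow_add, ← hp0, neg_mul, mul_neg, Finset.sum_mul, Finset.mul_sum]
      refine neg_mem (Subalgebra.sum_mem _ fun j hj => ?_)
      rw [mul_assoc, ← pow_add, mul_left_comm]
      exact mul_mem (hc j) (ih _ (by have := Finset.mem_range.1 hj; omega))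

end Pool.Agent.P.MP_2c7719_nt.Win
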