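import Pool.Agent.P.MP_2c7719_nt.Win.ApxC
import Pool.Agent.P.MP_2c7719_nt.Win.Diag

/-! A point with the Liouville property close to a diagonal surface of large degree lies on it. -/

namespace Pool.Agent.P.MP_2c7719_nt.Win

open MvPolynomial

set_option linter.unusedSectionVars false

variable {K L : Type} [Field K] [CharZero K] [Field L] [CharZero L] [Algebra K L]

/-- the fractions in `x` whose denominator takes the value one at the point `(1,1,1)` -/
def loc (K : Type) [Field K] {L : Type} [Field L] [Algebra K L] (x : Fin 3 → L) :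
    Subalgebra K L where
  carrier := {w | ∃ F G : R3 K, G - 1 ∈ mm K ∧ w * aeval x G = aeval x F}
  mul_mem' := by
    rintro a b ⟨F, G, h, e⟩ ⟨F', G', h', e'⟩
    refine ⟨F * F', G * G', ?_, by rw [map_mul, map_mul, ← e, ← e']; ring⟩
    rw [show G * G' - 1 = G' * (G - 1) + (G' - 1) by ring]
    exact add_mem (Ideal.mul_mem_left _ _ h) h'
  add_mem' := by
    rintro a b ⟨F, G, h, e⟩ ⟨F', G', h', e'⟩
    refine ⟨F * G' + F' * G, G * G', ?_, by
      rw [map_add, map_mul, map_mul, map_mul, ← e, ← e']; ring⟩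
    rw [show G * G' - 1 = G' * (G - 1) + (G' - 1) by ring]
    exact add_mem (Ideal.mul_mem_left _ _ h) h'
  algebraMap_mem' := fun q => ⟨algebraMap _ _ q, 1, by simp, by rw [map_one, mul_one, AlgHom.commutes]⟩

theorem aeval_mem_loc (x : Fin 3 → L) (F : R3 K) : aeval x F ∈ loc K x := ⟨F, 1, by simp, by simp⟩

theorem Liou2.liou {T C : ℕ} {x : Fin 3 → L} {Φ : R3 K} (h : Liou2 K T C x Φ) (hC : 1 ≤ C) :
    Liou K T x := fun n τ hτ F hF M hM e =>
  h n τ (T * n + 1) hτ (Nat.le_mul_of_pos_left _ hC) F hF M hM 0 (by simp [e])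

theorem Liou2.loc {T C : ℕ} {x : Fin 3 → L} {Φ : R3 K} (h : Liou2 K T C x Φ) {n j : ℕ}
    (hj : T * n + 1 ≤ C * j) {f w : L} (hf : f ∈ W K x ^ n) (hw : w ∈ loc K x)
    (e : f = aeval x Φ ^ j * w) : f = 0 := by
  obtain ⟨F, hF, rfl⟩ := W_lift x n hf
  obtain ⟨F', G, hG, e'⟩ := hw
  refine h n _ j le_rfl hj F hF (F * (1 - G) ^ (T * n + 1))
    (Ideal.mul_mem_left _ _ (Ideal.pow_mem_pow (neg_sub G 1 ▸ neg_mem hG) _))
    (F' * ∑ i ∈ Finset.range (T * n + 1), (1 - G) ^ i) ?_
  have := congrArg (aeval x) (geom_sum_mul_neg (1 - G) (T * n + 1))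
  simp only [map_mul, map_pow, map_sub, map_one, sub_sub_cancel] at this ⊢
  rw [← e']
  linear_combination (aeval x (∑ i ∈ Finset.range (T * n + 1), (1 - G) ^ i) * aeval x G) * e -
    aeval x F * this

theorem apx (T : ℕ) : ∃ C k₀ : ℕ, 1 ≤ C ∧ ∀ k, k₀ ≤ k → ∀ {K L : Type} [Field K] [CharZero K]
    [Field L] [CharZero L] [Algebra K L] {x : Fin 3 → L} {α : Fin 3 → K}, (∀ i, α i ≠ 0) →
    Liou2 K T C x (∑ i, α i • X i ^ k - 1) →
    (∀ w : L, IsAlgebraic K w → ∃ q : K, w = algebraMap K L q) → ∑ i, α i • x i ^ k = 1 := by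
  obtain ⟨c, j, hc⟩ := hb2 T
  set B := (0 + 12 * c + 3) * 2 ^ 4 + 0 + 2 * 4 with hB
  set C := T * (3 * j) + T * (4 * c) + 1 + T * B with hC
  refine ⟨C, j + 1, by omega, fun k hk K L _ _ _ _ _ x α hα hL hrat => ?_⟩
  have h1 : (1 : L) ∈ W K x := Submodule.subset_span (Set.mem_insert _ _)
  have hxm : ∀ i, x i ∈ W K x := fun i => Submodule.subset_span (Set.mem_insert_of_mem _ ⟨i, rfl⟩)
  have key : ∀ (q : K) (M G : R3 K), M ∈ mm K →
      algebraMap K L q = aeval x M + aeval x ((∑ i, α i • X i ^ k - 1) * G) → q = 0 :=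
    fun q M G hM e => by
      have := hL 0 1 1 (by simp) (by omega) (algebraMap K (R3 K) q)
        (by rw [pow_zero]; exact Submodule.algebraMap_mem q) M (by rwa [pow_one]) G
        (by rw [AlgHom.commutes, pow_one, e])
      rw [AlgHom.commutes] at this
      exact (map_eq_zero _).1 this
  have hs1 : ∑ i, α i = 1 := by
    have := key (1 - ∑ i, α i) (∑ i, α i • (X i ^ k - 1)) (-1)
      (Submodule.sum_mem _ fun i _ => Submodule.smul_of_tower_mem _ _ (X_pow_sub_mem i k)) (by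
        simp only [map_sub, map_sum, map_smul, map_pow, aeval_X, map_one, smul_sub, map_mul, map_neg,
          Finset.sum_sub_distrib, Algebra.algebraMap_eq_smul_one]
        ring)
    exact (sub_eq_zero.1 this).symm
  have hm : ∀ i, (X i - 1 : R3 K) ∈ mm K := fun i => Ideal.subset_span ⟨i, rfl⟩
  have hne : ∀ G : R3 K, G - 1 ∈ mm K → aeval x G ≠ 0 := fun G hG h =>
    one_ne_zero (key 1 (-(G - 1)) 0 (neg_mem hG) (by simp [h]))
  have hinv : ∀ G : R3 K, G - 1 ∈ mm K → (aeval x G)⁻¹ ∈ loc K x := fun G hG =>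
    ⟨1, G, hG, by rw [inv_mul_cancel₀ (hne G hG), map_one]⟩
  by_cases ht : ∀ i, IsAlgebraic K (x i)
  · have : ∀ i, x i = 1 := fun i => by
      obtain ⟨q, hq⟩ := hrat _ (ht i)
      rw [hq, sub_eq_zero.1 (key (q - 1) _ 0 (hm i) (by simp [hq])), map_one]
    simp only [this, one_pow, ← Finset.sum_smul, hs1, one_smul]
  obtain ⟨i₀, ht⟩ := not_forall.1 ht
  obtain ⟨l, hli, h0, hl⟩ := slopes hα
  have hV := hc k (by omega) C (by omega) (hα 2) hli h0 hl (by rwa [hs1, map_one])
  obtain ⟨D₀, hD₀⟩ := exists_der ht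
  choose halg η hη hη0 hηx using fun i => der_bdd2 hV h1 D₀ (hxm i₀) (hxm i) ht hD₀
  set D : Derivation K L L := (η 0 * η 1 * η 2) • D₀ with hD
  have hDx : D (x i₀) ≠ 0 := by simp [hD, hD₀, hη0]
  have hDV : ∀ a ∈ W K x, D a ∈ W K x ^ (12 * c) := fun a ha => by
    refine Submodule.span_induction (p := fun a _ => D a ∈ W K x ^ (12 * c)) ?_ (by simp)
      (fun a b _ _ ha hb => by rw [map_add]; exact add_mem ha hb)
      (fun e a _ ha => by rw [D.map_smul]; exact Submodule.smul_mem _ _ ha) ha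
    rw [show 12 * c = 4 * c + 4 * c + 4 * c by ring]
    rintro a (rfl | ⟨i, rfl⟩)
    · simp
    · rw [hD, Derivation.smul_apply, smul_eq_mul]
      fin_cases i
      · convert pmul (pmul (hη 1) (hη 2)) (hηx 0) using 1; simp; ring
      · convert pmul (pmul (hη 0) (hη 2)) (hηx 1) using 1; simp; ring
      · convert pmul (pmul (hη 0) (hη 1)) (hηx 2) using 1; simp; ring
  have hVR : ∀ n, ∀ a ∈ W K x ^ n, a ∈ loc K x := fun n a ha => by
    obtain ⟨F, -, rfl⟩ := W_lift x n ha
    exact aeval_mem_loc x F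
  have hDF : ∀ F : R3 K, ∃ F' : R3 K, D (aeval x F) = aeval x F' := fun F => by
    induction F using MvPolynomial.induction_on with
    | C a => exact ⟨0, by simp⟩
    | add p q hp hq =>
      obtain ⟨p', hp⟩ := hp
      obtain ⟨q', hq⟩ := hq
      exact ⟨p' + q', by simp [hp, hq]⟩
    | mul_X p i hp =>
      obtain ⟨p', hp⟩ := hp
      obtain ⟨F, -, hF⟩ := W_lift x _ (hDV _ (hxm i))
      exact ⟨p * F + X i * p', by simp [hp, hF]⟩
  have hDR : ∀ w ∈ loc K x, D w ∈ loc K x := by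
    rintro w hw
    obtain ⟨F, G, hG, e⟩ := id hw
    obtain ⟨F', hF'⟩ := hDF F
    obtain ⟨G', hG'⟩ := hDF G
    have := congrArg D e
    rw [D.leibniz, hF', hG', smul_eq_mul, smul_eq_mul] at this
    have e2 : D w = (aeval x G)⁻¹ * (aeval x F' - w * aeval x G') := by
      rw [eq_inv_mul_iff_mul_eq₀ (hne G hG)]
      linear_combination this
    exact e2 ▸ mul_mem (hinv G hG) (sub_mem (aeval_mem_loc x _) (mul_mem hw (aeval_mem_loc x _)))
  have hAF : ∀ F : R3 K, IsAlgebraic (Algebra.adjoin K {x i₀}) (aeval x F) := fun F => by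
    induction F using MvPolynomial.induction_on with
    | C a => rw [aeval_C]; exact isAlgebraic_algebraMap (algebraMap K (Algebra.adjoin K {x i₀}) a)
    | add p q hp hq => rw [map_add]; exact hp.add hq
    | mul_X p i hp => rw [map_mul, aeval_X]; exact hp.mul (halg i)
  have hAR : ∀ w ∈ loc K x, IsAlgebraic (Algebra.adjoin K {x i₀}) w := by
    rintro w ⟨F, G, hG, e⟩
    rw [(eq_mul_inv_iff_mul_eq₀ (hne G hG)).2 e]
    exact (hAF F).mul (hAF G).inv
  have hxR : ∀ i, x i ∈ loc K x := fun i => by simpa using aeval_mem_loc x (X i : R3 K)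
  have hσV : x i₀ - 1 ∈ W K x := sub_mem (hxm i₀) h1
  have hσ : x i₀ - 1 ∈ loc K x := sub_mem (hxR i₀) (one_mem _)
  have hσ0 : x i₀ - 1 ≠ 0 := fun h => ht (sub_eq_zero.1 h ▸ isAlgebraic_one)
  have hdiv : ∀ w ∈ loc K x, w ≠ 0 → ∃ G ∈ loc K x, ∃ N : ℕ, w * G = (x i₀ - 1) ^ N := by
    intro w hw h0
    obtain ⟨t, htm, r, hr, e⟩ := (hAR w hw).exists_nonzero_eq_adjoin_mul
      (mem_nonZeroDivisors_of_ne_zero h0)
    have htR : t ∈ loc K x := by
      refine Algebra.adjoin_induction (p := fun t _ => t ∈ loc K x) (fun _ h => Set.mem_singleton_iff.1 h ▸ hw)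
        (fun a => Algebra.adjoin_le (S := loc K x) (Set.singleton_subset_iff.2 (hxR i₀)) a.2)
        (fun _ _ _ _ => add_mem) (fun _ _ _ _ => mul_mem) htm
    obtain ⟨p, hp⟩ := (Algebra.adjoin_singleton_eq_range_aeval K (x i₀)).le r.2
    replace hp : Polynomial.aeval (x i₀) p = r := hp
    obtain ⟨q, hq, hq1⟩ := p.exists_eq_pow_rootMultiplicity_mul_and_not_dvd
      (fun h => hr (Subtype.ext (by rw [← hp, h, map_zero]; rfl))) 1
    rw [Polynomial.dvd_iff_isRoot] at hq1
    obtain ⟨u, hu⟩ := Polynomial.X_sub_C_dvd_sub_C_eval (a := (1 : K)) (p := q)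
    let G : R3 K := (q.eval 1)⁻¹ • Polynomial.aeval (X i₀ : R3 K) q
    have hG : G - 1 ∈ mm K := by
      have := congrArg (Polynomial.aeval (X i₀ : R3 K)) hu
      simp only [map_sub, map_mul, Polynomial.aeval_X, Polynomial.aeval_C, map_one] at this
      rw [show G - 1 = (q.eval 1)⁻¹ • ((X i₀ - 1) * Polynomial.aeval (X i₀ : R3 K) u) by
        rw [← this, smul_sub, Algebra.algebraMap_eq_smul_one, smul_smul, inv_mul_cancel₀ hq1,
          one_smul]]
      exact Submodule.smul_of_tower_mem _ _ (Ideal.mul_mem_right _ _ (hm i₀))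
    have hGx : aeval x G = (q.eval 1)⁻¹ • Polynomial.aeval (x i₀) q := by
      simp only [G, map_smul, ← Polynomial.aeval_algHom_apply, aeval_X]
    refine ⟨t * (q.eval 1)⁻¹ • (aeval x G)⁻¹, mul_mem htR (Subalgebra.smul_mem _ (hinv G hG) _),
      p.rootMultiplicity 1, ?_⟩
    have h2 := congrArg (Polynomial.aeval (x i₀)) hq
    simp only [map_mul, map_pow, map_sub, Polynomial.aeval_X, map_one, hp] at h2
    rw [← mul_assoc, e, mul_smul_comm, ← smul_mul_assoc, mul_inv_eq_iff_eq_mul₀ (hne G hG), hGx,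
      mul_smul_comm, ← h2]
    rfl
  set Φ := ∑ i, α i • x i ^ k - 1 with hΦ
  have hΦx : aeval x (∑ i, α i • X i ^ k - 1 : R3 K) = Φ := by simp [hΦ]
  have hΦR : Φ ∈ loc K x := hΦx ▸ aeval_mem_loc x _
  rw [← sub_eq_zero]
  by_contra hΦ0
  replace hΦ0 : Φ ≠ 0 := hΦ0
  let E : Fin 3 → L := ![x 1 * x 2, x 0 * x 2, x 0 * x 1]
  have hE : ∀ i, E i * x i = x 0 * x 1 * x 2 := fun i => by fin_cases i <;> simp [E] <;> ring
  have hEV : ∀ i, E i ∈ W K x ^ 2 := fun i => by
    fin_cases i <;> exact pmul (mem_one (hxm _)) (mem_one (hxm _))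
  have hx0 : ∀ i, x i ≠ 0 := fun i => by simpa using hne (X i) (hm i)
  obtain ⟨h, rfl⟩ : ∃ h, k = h + 1 := ⟨k - 1, by omega⟩
  have := elim h1 (loc K x) hVR D hDV (B := B)
    (fun b u => ∀ V : ValuationSubring L, (∀ a ∈ loc K x, a ∈ V) → (x i₀ - 1) ^ b * u / Φ ∈ V)
    (fun hu hv V hV => by rw [mul_add, add_div]; exact add_mem (hu V hV) (hv V hV))
    (fun hr hu V hV => by rw [mul_left_comm, mul_div_assoc]; exact mul_mem (hV _ hr) (hu V hV))
    (fun hu V hV => by
      rw [pow_add, mul_comm (_ ^ _), mul_assoc, mul_div_assoc]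
      exact mul_mem (hV _ (pow_mem hσ 2)) (hu V hV))
    (fun {b u} hu hs V hV => by
      by_cases u0 : u = 0
      · simp [u0]
      obtain ⟨G, hG, N, e⟩ := hdiv u hu u0
      convert mul_mem (logder _ D hDR hσ hσ0 hu hG e V hV) (hs V hV) using 1
      field_simp
      ring)
    (fun n b hnb u hu hs => by
      have e0 : Φ * ((x i₀ - 1) ^ b * u / Φ) = (x i₀ - 1) ^ b * u := mul_div_cancel₀ _ hΦ0
      have hu' := pmul (Submodule.pow_mem_pow _ hσV b) hu
      obtain ⟨m, hm⟩ := pow_of_val (loc K x) hΦR (by rw [e0]; exact hVR _ _ hu') hs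
      have h2 := Submodule.pow_mem_pow _ hu' (C * m + 1 + m)
      rw [← pow_mul] at h2
      have h3 : T * (b + n) + 1 ≤ C := by
        have := Nat.mul_le_mul_left T (add_comm n b ▸ hnb)
        omega
      have := hL.loc (j := C * m + 1) (by
        rw [← mul_assoc]
        nlinarith [Nat.mul_le_mul_right (C * m + 1 + m) h3]) h2 (hm (C * m + 1 + m)) (by
        rw [hΦx, ← mul_assoc, ← pow_add, ← mul_pow, e0])
      exact (mul_eq_zero.1 (pow_eq_zero_iff (by omega) |>.1 this)).resolve_left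
        (pow_ne_zero _ hσ0))
    (fun u hu v hv e => hrat _ (const_alg D hDx e (by
      rw [div_eq_mul_inv]; exact (hAR u hu).mul (hAR v hv).inv)))
    (ι := Option (Fin 3)) (P := x 0 * x 1 * x 2)
    (pmul (pmul (mem_one (hxm 0)) (mem_one (hxm 1))) (mem_one (hxm 2)))
    (mul_ne_zero (mul_ne_zero (hx0 0) (hx0 1)) (hx0 2))
    (y := fun o => o.elim 1 fun i => x i ^ (h + 1))
    (l := fun o => o.elim 0 fun i => (h + 1) • (E i * D (x i)))
    (by rintro (_ | i); exacts [one_mem _, pow_mem (hxR i) _])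
    (by
      rintro (_ | i)
      · simp
      · simpa using pow_mem (hinv (X i) (hm i)) (h + 1))
    (by rintro (_ | i); exacts [one_ne_zero, pow_ne_zero _ (hx0 i)])
    (by
      rintro (_ | i)
      exacts [zero_mem _, nsmul_mem (mono_mem h1 (pmul (hEV i) (hDV _ (hxm i))) (by omega)) _])
    (by
      rintro (_ | i)
      · simp
      · simp only [Option.elim, D.leibniz_pow, ← hE i, smul_eq_mul, nsmul_eq_mul,
          Nat.add_sub_cancel]
        ring)
    Finset.univ 0 0 (fun o => o.elim (-1) fun i => algebraMap K L (α i)) (by simp [hB])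
    (by
      rw [pow_zero]
      rintro (_ | i)
      exacts [neg_mem (by simp), Submodule.algebraMap_mem _])
  have e : ∑ o : Option (Fin 3), (o.elim (-1) fun i => algebraMap K L (α i)) *
      (o.elim 1 fun i => x i ^ (h + 1)) = Φ := by
    simp only [Fintype.sum_option, Option.elim, hΦ, Algebra.smul_def]
    ring
  rw [e] at this
  exact hΦ0 (this fun V _ => by simp [hΦ0])

end Pool.Agent.P.MP_2c7719_nt.Win
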