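import Pool.Agent.P.MP_2c7719_nt.Win.Gcd
import Pool.Agent.P.MP_2c7719_nt.Win.ApxD

/-! Almost equal sums of two large powers near rational points of small height. -/

namespace Pool.Agent.P.MP_2c7719_nt.Win

open Filter Asymptotics MvPolynomial

namespace Ult

variable {L : Type} [Field L] {A : Ult L}

theorem liou2 {ε : ℝ} (hε : 0 < ε) {T : ℕ} (hT : 1 ≤ ε * T) {x : Fin 3 → L} {D M : L}
    (hD0 : D ≠ 0) (hM0 : M ≠ 0) (hD : D ∈ A.Ψ.range) (hM : M ∈ A.Ψ.range) (hD1 : A.Bd 1 D)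
    (hc : ∀ u ∈ A.Ψ.range, ∀ v ∈ A.Ψ.range, ∀ j τ : ℕ, D ^ j * u = M ^ τ * v →
      ∃ r ∈ A.S, r ≠ 0 ∧ ∃ y ∈ A.Ψ.range, r * u = M ^ τ * y)
    (hi : ∀ i, ∃ q ∈ A.S, q ≠ 0 ∧ q * D * ((x i - 1) / M) ∈ A.Ψ.range)
    (hx0 : ∀ i, A.Bd 0 (x i)) (hx : ∀ i, A.Bd (-ε) ((x i - 1) / M))
    (hM' : A.Bd ε M ∨ A.Bd (-ε) M⁻¹) {C : ℕ} {Φ : R3 A.K}
    (hΦi : ∃ n : ℕ, ∃ q ∈ A.S, q ≠ 0 ∧ q * D ^ n * (aeval x Φ / M ^ C) ∈ A.Ψ.range)
    (hΦ : A.Bd (C * -ε) (aeval x Φ / M ^ C)) : Liou2 A.K T C x Φ := by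
  let I : ℕ → ℕ → R3 A.K → Prop := fun n τ F =>
    ∃ q ∈ A.S, q ≠ 0 ∧ q * D ^ n * (aeval x F / M ^ τ) ∈ A.Ψ.range
  have Iadd : ∀ {n τ F G}, I n τ F → I n τ G → I n τ (F + G) := by
    rintro n τ F G ⟨q, hq, h0, h⟩ ⟨q', hq', h0', h'⟩
    refine ⟨q * q', mul_mem hq hq', mul_ne_zero h0 h0', ?_⟩
    rw [map_add, add_div, show ∀ a b, q * q' * D ^ n * (a + b) =
      q' * (q * D ^ n * a) + q * (q' * D ^ n * b) from fun a b => by ring]
    exact add_mem (mul_mem hq'.1 h) (mul_mem hq.1 h')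
  have Imul : ∀ {m n σ τ F G}, I m σ F → I n τ G → I (m + n) (σ + τ) (F * G) := by
    rintro m n σ τ F G ⟨q, hq, h0, h⟩ ⟨q', hq', h0', h'⟩
    refine ⟨q * q', mul_mem hq hq', mul_ne_zero h0 h0', ?_⟩
    rw [map_mul, pow_add M, mul_div_mul_comm, show ∀ a b, q * q' * D ^ (m + n) * (a * b) =
      q * D ^ m * a * (q' * D ^ n * b) from fun a b => by ring]
    exact mul_mem h h'
  have Ic : ∀ c : A.K, I 0 0 (algebraMap _ _ c) := fun c => by
    obtain ⟨q, hq, h0, h⟩ := frac c.2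
    exact ⟨q, hq, h0, by rw [AlgHom.commutes, pow_zero, pow_zero, mul_one, div_one]; exact h.1⟩
  have Ione : ∀ n, I n 0 1 := fun n => ⟨1, one_mem _, one_ne_zero, by simpa using pow_mem hD n⟩
  have Iup : ∀ {n τ F G}, (∃ n, I n τ F) → I n τ G → ∃ n, I n τ (F + G) := by
    rintro n τ F G ⟨m, h⟩ h'
    have e1 := Imul h (Ione n)
    have e2 := Imul (Ione m) h'
    simp only [add_zero, zero_add, mul_one, one_mul] at e1 e2
    exact ⟨_, Iadd e1 e2⟩
  have IX1 : ∀ i, I 1 1 (X i - 1) := fun i => by simpa [I] using hi i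
  have IX : ∀ i, I 1 0 (X i) := fun i => by
    obtain ⟨q, hq, h0, h⟩ := hi i
    refine ⟨q, hq, h0, ?_⟩
    have := add_mem (mul_mem h hM) (mul_mem hq.1 hD)
    convert this using 1
    simp only [aeval_X, pow_one, pow_zero, div_one]
    field_simp
    ring
  have I1 : ∀ F ∈ W A.K (X : Fin 3 → R3 A.K), I 1 0 F := fun F hF => by
    refine Submodule.span_induction (p := fun F _ => I 1 0 F) ?_
      ⟨1, one_mem _, one_ne_zero, by simp⟩ (fun _ _ _ _ => Iadd)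
      (fun c F _ hF => by rw [Algebra.smul_def]; exact Imul (Ic c) hF) hF
    rintro _ (rfl | ⟨i, rfl⟩)
    · exact Ione 1
    · exact IX i
  have In : ∀ n, ∀ F ∈ W A.K (X : Fin 3 → R3 A.K) ^ n, I n 0 F := fun n => by
    induction n with
    | zero =>
      intro F hF
      obtain ⟨c, rfl⟩ := Submodule.mem_one.1 (pow_zero (W A.K (X : Fin 3 → R3 A.K)) ▸ hF)
      exact Ic c
    | succ n ih =>
      intro F hF
      rw [pow_succ] at hF
      exact Submodule.mul_induction_on hF (fun a ha b hb => Imul (ih a ha) (I1 b hb))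
        fun _ _ => Iadd
  have J0 : ∀ G : R3 A.K, ∃ n, I n 0 G := fun G => by
    induction G using MvPolynomial.induction_on with
    | C a => exact ⟨0, Ic a⟩
    | add p q hp hq => exact Iup hp hq.choose_spec
    | mul_X p i hp => exact ⟨_, Imul hp.choose_spec (IX i)⟩
  have J1 : ∀ G ∈ mm A.K, ∃ n, I n 1 G := fun G hG => by
    refine Submodule.span_induction (p := fun G _ => ∃ n, I n 1 G) ?_
      ⟨0, 1, one_mem _, one_ne_zero, by simp⟩ (fun _ _ _ _ ha hb => Iup ha hb.choose_spec)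
      (fun G' G _ hG => by
        obtain ⟨n, hn⟩ := hG
        obtain ⟨n', hn'⟩ := J0 G'
        have := Imul hn' hn
        rw [zero_add, ← smul_eq_mul] at this
        exact ⟨_, this⟩) hG
    rintro _ ⟨i, rfl⟩
    exact ⟨1, IX1 i⟩
  have J2 : ∀ τ : ℕ, ∀ G ∈ mm A.K ^ τ, ∃ n, I n τ G := fun τ => by
    induction τ with
    | zero => exact fun G _ => J0 G
    | succ τ ih =>
      intro G hG
      rw [pow_succ] at hG
      exact Submodule.mul_induction_on hG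
        (fun a ha b hb => ⟨_, Imul (ih a ha).choose_spec (J1 b hb).choose_spec⟩)
        fun _ _ ha hb => Iup ha hb.choose_spec
  have h0 : ∀ G : R3 A.K, A.Bd 0 (aeval x G) := fun G => by
    induction G using MvPolynomial.induction_on with
    | C a => rw [aeval_C]; exact bd_K a.2
    | add p q hp hq => rw [map_add]; exact hp.add hq
    | mul_X p i hp => simpa using hp.mul (hx0 i)
  have h1 : ∀ G ∈ mm A.K, A.Bd (-ε) (aeval x G / M) := fun G hG => by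
    refine Submodule.span_induction (p := fun G _ => A.Bd (-ε) (aeval x G / M)) ?_
      (by simpa using bd_zero _) (fun _ _ _ _ ha hb => by simpa [add_div] using ha.add hb)
      (fun G' G _ hG => by simpa [mul_div_assoc] using (h0 G').mul hG) hG
    rintro _ ⟨i, rfl⟩
    simpa using hx i
  have h2 : ∀ τ : ℕ, ∀ G ∈ mm A.K ^ τ, A.Bd (τ * -ε) (aeval x G / M ^ τ) := fun τ => by
    induction τ with
    | zero => exact fun G _ => by simpa using h0 G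
    | succ τ ih =>
      intro G hG
      rw [pow_succ] at hG
      refine Submodule.mul_induction_on hG (fun a ha b hb => ?_)
        fun _ _ ha hb => by simpa [add_div] using ha.add hb
      have := (ih a ha).mul (h1 b hb)
      rw [← mul_div_mul_comm, ← map_mul, ← pow_succ] at this
      convert this using 1
      push_cast
      ring
  intro m τ' j' hτ' hj F hF G₁ hG₁ G₂ e
  set τ := T * m + 1 with hτ
  replace hG₁ : G₁ ∈ mm A.K ^ τ := Ideal.pow_le_pow_right hτ' hG₁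
  obtain ⟨i, hi'⟩ := Nat.exists_eq_add_of_le hj
  have J3 : ∀ j : ℕ, (∃ n, I n (C * j) (Φ ^ j * G₂)) ∧
      A.Bd ((C * j : ℕ) * -ε) (aeval x (Φ ^ j * G₂) / M ^ (C * j)) := fun j => by
    induction j with
    | zero => exact ⟨by simpa using J0 G₂, by simpa using h0 G₂⟩
    | succ j ih =>
      obtain ⟨n, hn⟩ := hΦi
      obtain ⟨⟨n', hn'⟩, hb⟩ := ih
      rw [pow_succ', mul_assoc, mul_add, mul_one, add_comm]
      refine ⟨⟨_, Imul hn hn'⟩, ?_⟩
      have := hΦ.mul hb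
      rw [← mul_div_mul_comm, ← map_mul, ← pow_add] at this
      convert this using 1
      push_cast
      ring
  obtain ⟨⟨n₂, q₂, hq₂, hq₂0, h₂⟩, hb₂⟩ := J3 j'
  rw [hi'] at h₂ hb₂
  have e₂ : aeval x (Φ ^ j' * G₂) / M ^ τ = aeval x (Φ ^ j' * G₂) / M ^ (τ + i) * M ^ i := by
    rw [pow_add M τ i, div_mul_eq_mul_div, mul_div_mul_right _ _ (pow_ne_zero i hM0)]
  have I₂ : I n₂ τ (Φ ^ j' * G₂) :=
    ⟨q₂, hq₂, hq₂0, by rw [e₂, ← mul_assoc]; exact mul_mem h₂ (pow_mem hM i)⟩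
  have b₂ : A.Bd (τ * -ε) (aeval x (Φ ^ j' * G₂) / M ^ τ) := by
    rcases hM' with h | h
    · rw [e₂]
      convert hb₂.mul (h.pow i) using 1
      push_cast
      ring
    · simpa [div_eq_mul_inv] using (h0 (Φ ^ j' * G₂)).mul (h.pow τ)
  rw [← map_add] at e
  have hbG : A.Bd (τ * -ε) (aeval x (G₁ + Φ ^ j' * G₂) / M ^ τ) := by
    rw [map_add, add_div]
    exact (h2 τ G₁ hG₁).add b₂
  obtain ⟨j, q', hq', hq0', h'⟩ := Iup (J2 τ G₁ hG₁) I₂
  generalize G₁ + Φ ^ j' * G₂ = G at e hbG h'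
  obtain ⟨q, hq, hq0, h⟩ := In m F hF
  rw [pow_zero, div_one] at h
  have hMτ : M ^ τ ≠ 0 := pow_ne_zero _ hM0
  obtain ⟨r, hr, hr0, y, hy, ey⟩ := hc _ (mul_mem hq'.1 h) _ (mul_mem (mul_mem hq.1 (pow_mem hD m)) h') j τ
    (by rw [e]; field_simp)
  have h3 : 0 + 0 + 0 + m * 1 + τ * -ε < 0 := by
    have : (T : ℝ) * m + 1 ≤ τ := by exact_mod_cast hτ.ge
    nlinarith [mul_le_mul_of_nonneg_left this hε.le,
      mul_le_mul_of_nonneg_right hT (Nat.cast_nonneg (α := ℝ) m)]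
  have ey' : r * q' * q * D ^ m * (aeval x G / M ^ τ) = y := by
    rw [← e, ← mul_div_assoc, div_eq_iff hMτ]
    linear_combination ey
  have := eq_zero h3 (ey' ▸ (((Bd.mul hr.2 hq'.2).mul hq.2).mul (hD1.pow m)).mul hbG) hy
  rw [this, mul_zero] at ey
  exact (mul_eq_zero.1 ((mul_eq_zero.1 ((mul_eq_zero.1 ey).resolve_left hr0)).resolve_left
    hq0')).resolve_left (mul_ne_zero hq0 (pow_ne_zero _ hD0))

end Ult

theorem aux2 {L : Type} [Field L] [CharZero L] (A : Ult L) (hU : (A.U : Filter ℕ) ≤ atTop)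
    {ε : ℝ} (hε : 0 < ε) {T C k : ℕ} (hT : 1 ≤ ε * T)
    (hk : ∀ {x : Fin 3 → L} {α : Fin 3 → A.K}, (∀ i, α i ≠ 0) →
      Liou2 A.K T C x (∑ i, α i • X i ^ k - 1) →
      (∀ w : L, IsAlgebraic A.K w → ∃ q : A.K, w = algebraMap A.K L q) → ∑ i, α i • x i ^ k = 1)
    {a b c d u v w z m : ℕ → ℕ} (hA : A.d = d) (hd1 : ∀ n, 1 ≤ d n) (hm1 : ∀ n, 1 ≤ m n)
    (hm : ∀ n, ∃ e e' : ℤ, (z n : ℤ) = d n * e + m n * e') (hu : ∀ n, 1 ≤ u n)
    (hv : ∀ n, 1 ≤ v n) (hw : ∀ n, 1 ≤ w n) (hz : ∀ n, 1 ≤ z n)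
    (hu' : ∀ n, (u n : ℝ) ≤ (d n : ℝ) ^ (1 / (n + 1) : ℝ))
    (hv' : ∀ n, (v n : ℝ) ≤ (d n : ℝ) ^ (1 / (n + 1) : ℝ))
    (hw' : ∀ n, (w n : ℝ) ≤ (d n : ℝ) ^ (1 / (n + 1) : ℝ))
    (hz' : ∀ n, (z n : ℝ) ≤ (d n : ℝ) ^ (1 / (n + 1) : ℝ))
    (ma : ∀ n, a n * z n ≡ d n * u n [MOD m n]) (mb : ∀ n, b n * z n ≡ d n * v n [MOD m n])
    (mc : ∀ n, c n * z n ≡ d n * w n [MOD m n])
    (ha : ∀ n, |(a n : ℝ) * z n - d n * u n| ≤
      min (m n * (d n : ℝ) ^ (1 - ε)) ((d n : ℝ) ^ (1 + 1 / (n + 1) : ℝ)))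
    (hb : ∀ n, |(b n : ℝ) * z n - d n * v n| ≤
      min (m n * (d n : ℝ) ^ (1 - ε)) ((d n : ℝ) ^ (1 + 1 / (n + 1) : ℝ)))
    (hc : ∀ n, |(c n : ℝ) * z n - d n * w n| ≤
      min (m n * (d n : ℝ) ^ (1 - ε)) ((d n : ℝ) ^ (1 + 1 / (n + 1) : ℝ)))
    (e1 : ∀ n, (m n : ℤ) ^ C ∣ (a n : ℤ) ^ k + b n ^ k - c n ^ k - d n ^ k)
    (e2 : ∀ n, |(a n : ℝ) ^ k + b n ^ k - c n ^ k - d n ^ k| ≤
      (m n * (d n : ℝ) ^ (-ε)) ^ C * d n ^ k) : ∃ n, a n ^ k + b n ^ k = c n ^ k + d n ^ k := by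
  let φ : (ℕ → ℕ) → L := fun y => A.Φ fun n => y n
  have hφ : ∀ y, φ y ∈ A.Ψ.range := fun y => ⟨fun n => y n, rfl⟩
  have hφ0 : ∀ y : ℕ → ℕ, (∀ n, 1 ≤ y n) → φ y ≠ 0 := fun y hy h => by
    obtain ⟨n, hn⟩ := ((A.ker _).1 h).exists
    have := hy n
    simp only [Nat.cast_eq_zero] at hn
    omega
  have hS : ∀ y : ℕ → ℕ, (∀ n, (y n : ℝ) ≤ (d n : ℝ) ^ (1 / (n + 1) : ℝ)) → φ y ∈ A.S :=
    fun y hy => ⟨hφ y, _, rfl, fun η hη => .of_bound' <| by
      filter_upwards [hU (tendsto_one_div_add_atTop_nhds_zero_nat.eventually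
        (eventually_le_nhds hη))] with n hn
      rw [Real.norm_of_nonneg (by positivity), Real.norm_of_nonneg (by positivity), zero_add,
        Rat.cast_natCast, hA]
      exact (hy n).trans (Real.rpow_le_rpow_of_exponent_le (by exact_mod_cast hd1 n) hn)⟩
  have hK : ∀ y : ℕ → ℕ, (∀ n, (y n : ℝ) ≤ (d n : ℝ) ^ (1 / (n + 1) : ℝ)) → φ y ∈ A.K :=
    fun y hy => Subfield.subset_closure (hS y hy)
  have hx : ∀ y s : ℕ → ℕ, (∀ n, 1 ≤ s n) →
      (∀ n, |(y n : ℝ) * z n - d n * s n| ≤ m n * (d n : ℝ) ^ (1 - ε)) →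
      A.Bd (-ε) ((φ y * φ z / (φ d * φ s) - 1) / φ m) := fun y s hs h => by
    rw [div_eq_mul_inv, div_eq_mul_inv, ← map_mul, ← map_mul, A.inv, A.inv, ← map_mul,
      ← map_one A.Φ, ← map_sub, ← map_mul]
    refine Ult.bd_of_le (.of_forall fun n => ?_)
    have h1 : (1 : ℝ) ≤ d n := by exact_mod_cast hd1 n
    have h2 : (1 : ℝ) ≤ s n := by exact_mod_cast hs n
    have h4 : (1 : ℝ) ≤ m n := by exact_mod_cast hm1 n
    have h3 : (0 : ℝ) < d n * s n := by positivity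
    have h5 : (0 : ℝ) < d n * s n * m n := by positivity
    simp only [Pi.sub_apply, Pi.mul_apply, Pi.inv_apply, Pi.one_apply, hA]
    push_cast
    rw [← div_eq_mul_inv, ← div_eq_mul_inv, div_sub_one h3.ne', div_div, abs_div, abs_of_pos h5,
      div_le_iff₀ h5]
    refine (h n).trans ?_
    rw [sub_eq_neg_add, Real.rpow_add_one (by positivity), mul_comm (m n : ℝ), ← mul_assoc]
    refine mul_le_mul_of_nonneg_right ?_ (by positivity)
    exact mul_le_mul_of_nonneg_left (le_mul_of_one_le_right (by positivity) h2) (by positivity)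
  have hx0 : ∀ y s : ℕ → ℕ, (∀ n, 1 ≤ s n) →
      (∀ n, |(y n : ℝ) * z n - d n * s n| ≤ (d n : ℝ) ^ (1 + 1 / (n + 1) : ℝ)) →
      A.Bd 0 (φ y * φ z / (φ d * φ s)) := fun y s hs h => by
    rw [← sub_add_cancel (φ y * φ z / (φ d * φ s)) 1]
    refine Ult.Bd.add ?_ Ult.bd_one
    rw [div_eq_mul_inv, ← map_mul, ← map_mul, A.inv, ← map_mul, ← map_one A.Φ, ← map_sub]
    refine ⟨_, rfl, fun η hη => .of_bound' ?_⟩
    filter_upwards [hU (tendsto_one_div_add_atTop_nhds_zero_nat.eventually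
      (eventually_le_nhds hη))] with n hn
    have h1 : (1 : ℝ) ≤ d n := by exact_mod_cast hd1 n
    have h2 : (1 : ℝ) ≤ s n := by exact_mod_cast hs n
    have h3 : (0 : ℝ) < d n * s n := by positivity
    rw [Real.norm_of_nonneg (r := _ ^ _) (by positivity), Real.norm_eq_abs, zero_add]
    simp only [Pi.sub_apply, Pi.mul_apply, Pi.inv_apply, Pi.one_apply, hA]
    push_cast
    rw [← div_eq_mul_inv, div_sub_one h3.ne', abs_div, abs_of_pos h3, div_le_iff₀ h3]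
    refine (h n).trans ?_
    rw [add_comm, Real.rpow_add_one (by positivity)]
    exact mul_le_mul (Real.rpow_le_rpow_of_exponent_le h1 hn)
      (le_mul_of_one_le_right (by positivity) h2) (by positivity) (by positivity)
  have hi : ∀ y s : ℕ → ℕ, (∀ n, 1 ≤ s n) → (∀ n, y n * z n ≡ d n * s n [MOD m n]) →
      φ s * φ d * ((φ y * φ z / (φ d * φ s) - 1) / φ m) ∈ A.Ψ.range := fun y s hs h => by
    refine ⟨fun n => ((y n * z n : ℕ) - (d n * s n : ℕ) : ℤ) / m n, ?_⟩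
    have e1 : φ s * φ d * ((φ y * φ z / (φ d * φ s) - 1) / φ m) = (φ y * φ z - φ d * φ s) / φ m := by
      have := hφ0 d hd1
      have := hφ0 s hs
      field_simp
    rw [e1, eq_div_iff (hφ0 m hm1)]
    simp only [φ, Ult.Ψ, RingHom.comp_apply, ← map_mul, ← map_sub]
    congr 1
    ext n
    change ((((y n * z n : ℕ) - (d n * s n : ℕ) : ℤ) / m n : ℤ) : ℚ) * m n = y n * z n - d n * s n
    exact_mod_cast Int.ediv_mul_cancel (h n).symm.dvd
  let ρ : ∀ y : ℕ → ℕ, (∀ n, (y n : ℝ) ≤ (d n : ℝ) ^ (1 / (n + 1) : ℝ)) → A.K :=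
    fun y hy => ⟨(φ y / φ z) ^ k, pow_mem (div_mem (hK y hy) (hK z hz')) k⟩
  have hρ : ∀ y hy, (∀ n, 1 ≤ y n) → ρ y hy ≠ 0 := fun y hy h1 h =>
    pow_ne_zero k (div_ne_zero (hφ0 y h1) (hφ0 z hz)) (congrArg Subtype.val h)
  have d0 := hφ0 d hd1
  have u0 := hφ0 u hu
  have v0 := hφ0 v hv
  have w0 := hφ0 w hw
  have z0 := hφ0 z hz
  have m0 := hφ0 m hm1
  have E : ∑ i, (![ρ u hu', ρ v hv', -ρ w hw'] : Fin 3 → A.K) i •
      (![φ a * φ z / (φ d * φ u), φ b * φ z / (φ d * φ v), φ c * φ z / (φ d * φ w)] : Fin 3 → L) i ^ k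
      - 1 = (φ a ^ k + φ b ^ k - φ c ^ k - φ d ^ k) / φ d ^ k := by
    simp only [Fin.sum_univ_three, Algebra.smul_def]
    change (φ u / φ z) ^ k * (φ a * φ z / (φ d * φ u)) ^ k +
      (φ v / φ z) ^ k * (φ b * φ z / (φ d * φ v)) ^ k +
      -(φ w / φ z) ^ k * (φ c * φ z / (φ d * φ w)) ^ k - 1 = _
    simp only [div_pow, mul_pow]
    field_simp
    ring
  have h1 := hk (α := ![ρ u hu', ρ v hv', -ρ w hw'])
    (x := ![φ a * φ z / (φ d * φ u), φ b * φ z / (φ d * φ v), φ c * φ z / (φ d * φ w)])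
    (fun i => by fin_cases i <;> simp [hρ, hu, hv, hw])
    (Ult.liou2 hε hT d0 m0 (hφ d) (hφ m)
      (Ult.bd_of_le (.of_forall fun n => by simp [hA]))
      (fun s hs t ht j τ h => ⟨φ z ^ (j + τ), pow_mem (hS z hz') _, pow_ne_zero _ z0, by
        subst hA; exact Ult.cancel hm s hs t ht j τ h⟩)
      (fun i => by
        fin_cases i
        exacts [⟨_, hS u hu', u0, hi a u hu ma⟩, ⟨_, hS v hv', v0, hi b v hv mb⟩,
          ⟨_, hS w hw', w0, hi c w hw mc⟩])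
      (fun i => by
        fin_cases i
        exacts [hx0 a u hu fun n => (ha n).trans (min_le_right _ _),
          hx0 b v hv fun n => (hb n).trans (min_le_right _ _),
          hx0 c w hw fun n => (hc n).trans (min_le_right _ _)])
      (fun i => by
        fin_cases i
        exacts [hx a u hu fun n => (ha n).trans (min_le_left _ _),
          hx b v hv fun n => (hb n).trans (min_le_left _ _),
          hx c w hw fun n => (hc n).trans (min_le_left _ _)])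
      (by
        rw [A.inv]
        refine (A.U.em fun n => (m n : ℝ) ≤ (d n : ℝ) ^ ε).imp
          (fun h => Ult.bd_of_le (by simpa [hA] using h))
          fun h => Ult.bd_of_le (h.mono fun n hn => ?_)
        have h1 : (0 : ℝ) < d n := by exact_mod_cast hd1 n
        simpa [hA, Real.rpow_neg h1.le] using inv_anti₀ (by positivity) (not_le.1 hn).le)
      ⟨k, 1, one_mem _, one_ne_zero, by
        simp only [map_sub, map_sum, map_smul, map_pow, aeval_X, map_one, E]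
        refine ⟨fun n => ((a n : ℤ) ^ k + b n ^ k - c n ^ k - d n ^ k) / m n ^ C, ?_⟩
        rw [one_mul, ← mul_div_assoc, mul_div_cancel₀ _ (pow_ne_zero _ d0),
          eq_div_iff (pow_ne_zero _ m0)]
        simp only [φ, Ult.Ψ, RingHom.comp_apply, ← map_pow, ← map_mul, ← map_sub, ← map_add]
        congr 1
        ext n
        change ((((a n : ℤ) ^ k + b n ^ k - c n ^ k - d n ^ k) / m n ^ C : ℤ) : ℚ) * m n ^ C =
          a n ^ k + b n ^ k - c n ^ k - d n ^ k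
        exact_mod_cast Int.ediv_mul_cancel (e1 n)⟩
      (by
        simp only [map_sub, map_sum, map_smul, map_pow, aeval_X, map_one, E]
        simp only [φ, div_eq_mul_inv, ← map_pow, A.inv, ← map_mul, ← map_sub, ← map_add]
        refine Ult.bd_of_le (.of_forall fun n => ?_)
        have h1 : (0 : ℝ) < d n := by exact_mod_cast hd1 n
        have h2 : (0 : ℝ) < m n := by exact_mod_cast hm1 n
        simp only [Pi.sub_apply, Pi.mul_apply, Pi.inv_apply, Pi.add_apply, Pi.pow_apply, hA]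
        push_cast
        rw [mul_assoc, ← mul_inv, ← div_eq_mul_inv, abs_div,
          abs_of_pos (a := (d n : ℝ) ^ k * _) (by positivity), div_le_iff₀ (by positivity)]
        refine (e2 n).trans (le_of_eq ?_)
        rw [mul_comm (C : ℝ), Real.rpow_mul_natCast h1.le, mul_pow]
        ring)) Ult.rat
  rw [← sub_eq_zero, E, div_eq_zero_iff, or_iff_left (pow_ne_zero _ d0)] at h1
  simp only [φ, ← map_pow, ← map_add, ← map_sub, A.ker] at h1
  obtain ⟨n, hn⟩ := h1.exists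
  refine ⟨n, ?_⟩
  have : (a n : ℚ) ^ k + b n ^ k = c n ^ k + d n ^ k := by
    simp only [Pi.sub_apply, Pi.add_apply, Pi.pow_apply] at hn
    linear_combination hn
  exact_mod_cast this

theorem near2 (ε : ℝ) (hε : 0 < ε) : ∃ k₀ C : ℕ, ∀ k ≥ k₀, ∃ δ : ℝ, 0 < δ ∧ ∃ N₀ : ℕ,
    ∀ a b c d u v w z M : ℕ, N₀ ≤ d → 1 ≤ u → 1 ≤ v → 1 ≤ w → 1 ≤ z →
      (u : ℝ) ≤ (d : ℝ) ^ δ → (v : ℝ) ≤ (d : ℝ) ^ δ → (w : ℝ) ≤ (d : ℝ) ^ δ →
      (z : ℝ) ≤ (d : ℝ) ^ δ → 1 ≤ M → Nat.Coprime M (Nat.gcd (Nat.gcd a b) (Nat.gcd c d)) →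
      a * z ≡ d * u [MOD M] → b * z ≡ d * v [MOD M] → c * z ≡ d * w [MOD M] →
      |(a : ℝ) * z - d * u| ≤ min (M * (d : ℝ) ^ (1 - ε)) ((d : ℝ) ^ (1 + δ)) →
      |(b : ℝ) * z - d * v| ≤ min (M * (d : ℝ) ^ (1 - ε)) ((d : ℝ) ^ (1 + δ)) →
      |(c : ℝ) * z - d * w| ≤ min (M * (d : ℝ) ^ (1 - ε)) ((d : ℝ) ^ (1 + δ)) →
      (M : ℤ) ^ C ∣ (a : ℤ) ^ k + b ^ k - c ^ k - d ^ k →
      |(a : ℝ) ^ k + b ^ k - c ^ k - d ^ k| ≤ (M * (d : ℝ) ^ (-ε)) ^ C * d ^ k →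
      a ^ k + b ^ k = c ^ k + d ^ k ∧ ((a = c ∧ b = d) ∨ (a = d ∧ b = c) ∨
        (a * z = d * u ∧ b * z = d * v ∧ c * z = d * w)) := by
  obtain ⟨k₁, hk₁⟩ := near' ε hε
  obtain ⟨T, hT⟩ := exists_nat_ge ε⁻¹
  obtain ⟨C, k₀, -, hk₀⟩ := apx T
  refine ⟨k₀ + k₁, C, fun k hk => ?_⟩
  obtain ⟨δ, hδ, N, hN⟩ := hk₁ k (by omega)
  by_contra hc
  push Not at hc
  choose a b c d u v w z m hd hu hv hw hz hu' hv' hw' hz' hm1 hm ma mb mc ha hb hc e1 e2 hne using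
    fun n : ℕ => hc (min δ (1 / (n + 1))) (lt_min hδ Nat.one_div_pos_of_nat) (n + 1 + N)
  have hd1 : ∀ n, 1 ≤ d n := fun n => by have := hd n; omega
  have up : ∀ {n : ℕ} {s : ℝ}, min δ (1 / (n + 1) : ℝ) ≤ s → ∀ {y : ℝ},
      y ≤ (d n : ℝ) ^ min δ (1 / (n + 1) : ℝ) → y ≤ (d n : ℝ) ^ s := fun {n s} hs {y} h =>
    h.trans (Real.rpow_le_rpow_of_exponent_le (by exact_mod_cast hd1 n) hs)
  have up' : ∀ {n : ℕ} {s : ℝ}, min δ (1 / (n + 1) : ℝ) ≤ s → ∀ {y t : ℝ},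
      y ≤ min t ((d n : ℝ) ^ (1 + min δ (1 / (n + 1) : ℝ))) → y ≤ min t ((d n : ℝ) ^ (1 + s)) :=
    fun {n s} hs {y t} h => h.trans (min_le_min_left _
      (Real.rpow_le_rpow_of_exponent_le (by exact_mod_cast hd1 n) (by linarith)))
  let U := hyperfilter ℕ
  have hU : (U : Filter ℕ) ≤ atTop := Nat.hyperfilter_le_atTop
  let L := Germ (U : Filter ℕ) ℚ
  let A : Ult L := ⟨U, Germ.coeRingHom _, d, fun f => Germ.coe_eq, Quot.mk_surjective,
    (tendsto_natCast_atTop_atTop.comp (tendsto_atTop_mono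
      (fun n => (Nat.le_add_right n (1 + N)).trans (add_assoc n 1 N ▸ hd n)) tendsto_id)).mono_left hU⟩
  have : CharZero L :=
    (RingHom.charZero_iff (A.Φ.comp (Pi.constRingHom ℕ ℚ)).injective).1 inferInstance
  have r := fun n : ℕ => min_le_right δ (1 / (n + 1) : ℝ)
  have r' := fun n : ℕ => min_le_left δ (1 / (n + 1) : ℝ)
  obtain ⟨n, hn⟩ := aux2 A hU hε (T := T) (C := C) (k := k)
    (by rwa [inv_le_iff_one_le_mul₀' hε] at hT) (hk₀ k (by omega)) rfl hd1 hm1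
    (fun n => bez (hm n) (ma n) (mb n) (mc n)) hu hv hw hz (fun n => up (r n) (hu' n))
    (fun n => up (r n) (hv' n)) (fun n => up (r n) (hw' n)) (fun n => up (r n) (hz' n)) ma mb mc
    (fun n => up' (r n) (ha n)) (fun n => up' (r n) (hb n)) (fun n => up' (r n) (hc n)) e1 e2
  have h1 := hN _ _ _ _ _ _ _ _ _ ((Nat.le_add_left N (n + 1)).trans (hd n)) (hu n) (hv n) (hw n)
    (hz n) (up (r' n) (hu' n)) (up (r' n) (hv' n)) (up (r' n) (hw' n)) (up (r' n) (hz' n)) (hm1 n)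
    (hm n) (ma n) (mb n) (mc n) (up' (r' n) (ha n)) (up' (r' n) (hb n)) (up' (r' n) (hc n)) hn
  have := hne n hn
  tauto

end Pool.Agent.P.MP_2c7719_nt.Win
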