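import Pool.Agent.P.MP_2c7719_nt.Win.Dim

/-! Curves with a small Hilbert function on a diagonal surface of large degree are lines. -/

namespace Pool.Agent.P.MP_2c7719_nt.Win

open Polynomial
open scoped TensorProduct

set_option linter.unusedSectionVars false

variable {K L : Type} [Field K] [CharZero K] [Field L] [CharZero L] [Algebra K L]

theorem ext_aux {S : Type} [CommRing S] [Algebra K S] [Algebra S L]
    [IsScalarTower K S L] (hinj : Function.Injective (algebraMap S L))
    (halg : Algebra.IsAlgebraic S L) (d : Derivation K S L) :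
    ∃ D : Derivation K L L, ∀ x, D (algebraMap S L x) = d x := by
  have : IsDomain S := hinj.isDomain _
  have : FaithfulSMul S L := (faithfulSMul_iff_algebraMap_injective S L).2 hinj
  let : Algebra (FractionRing S) L := FractionRing.liftAlgebra S L
  have : IsScalarTower S (FractionRing S) L := FractionRing.isScalarTower_liftAlgebra S L
  have : Algebra.IsAlgebraic (FractionRing S) L :=
    Algebra.IsAlgebraic.extendScalars (R := S) (IsFractionRing.injective S (FractionRing S))
  have : CharZero (FractionRing S) := (algebraMap (FractionRing S) L).charZero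
  have : Algebra.FormallyEtale S (FractionRing S) :=
    Algebra.FormallyEtale.of_isLocalization (nonZeroDivisors S)
  have : Algebra.FormallyEtale (FractionRing S) L :=
    Algebra.FormallyEtale.of_isSeparable (FractionRing S) L
  have : Algebra.FormallyEtale S L := Algebra.FormallyEtale.comp S (FractionRing S) L
  let e := KaehlerDifferential.tensorKaehlerEquivOfFormallyEtale K S L
  let φ : L ⊗[S] Ω[S⁄K] →ₗ[L] L := d.liftKaehlerDifferential.liftBaseChange L
  refine ⟨(φ ∘ₗ e.symm.toLinearMap).compDer (KaehlerDifferential.D K L), fun x => ?_⟩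
  change φ (e.symm (KaehlerDifferential.D K L (algebraMap S L x))) = d x
  rw [KaehlerDifferential.tensorKaehlerEquivOfFormallyEtale_symm_D_algebraMap]
  simp [φ]

theorem exists_der {s : L} (hs : Transcendental K s) : ∃ D : Derivation K L L, D s = 1 := by
  classical
  obtain ⟨B, hsB, hB⟩ := exists_isTranscendenceBasis_superset (R := K) (s := {s})
    (algebraicIndependent_unique_type_iff.2 hs)
  let e := hB.1.aevalEquiv
  let i : B := ⟨s, hsB rfl⟩
  let d := Derivation.mk' (e.toLinearMap ∘ₗ (MvPolynomial.pderiv i).toLinearMap ∘ₗ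
    e.symm.toLinearMap) fun a b => by simp
  obtain ⟨D, hD⟩ := ext_aux (Subtype.val_injective) hB.isAlgebraic
    ((Algebra.linearMap _ L).compDer d)
  refine ⟨D, ?_⟩
  have := hD (e (MvPolynomial.X i))
  rw [hB.1.algebraMap_aevalEquiv, MvPolynomial.aeval_X] at this
  refine this.trans ?_
  change ((e (MvPolynomial.pderiv i (e.symm (e (MvPolynomial.X i)))) : _) : L) = 1
  simp

theorem der_eval (D : Derivation K L L) (y : L) (r : L[X]) :
    D (r.eval y) = (r.sum fun j a => D a * y ^ j) + (derivative r).eval y * D y := by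
  induction r using Polynomial.induction_on' with
  | add p q hp hq =>
    rw [sum_add_index _ _ _ (by simp) (by simp [add_mul]), eval_add, map_add, hp, hq,
      derivative_add, eval_add]
    ring
  | monomial n a =>
    rw [sum_monomial_index _ _ (by simp)]
    simp [derivative_monomial, Derivation.leibniz_pow]
    ring

theorem exists_min (U : Submodule K L) (y : L) (J : ℕ) (n : ℕ) : ∀ r : L[X], r.natDegree = n →
    r ≠ 0 → r.natDegree ≤ J → (∀ j, r.coeff j ∈ U) → r.eval y = 0 →
    ∃ r' : L[X], r'.natDegree ≤ J ∧ (∀ j, r'.coeff j ∈ U) ∧ r'.eval y = 0 ∧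
      (derivative r').eval y ≠ 0 := by
  induction n using Nat.strong_induction_on with
  | _ n ih =>
    intro r hn h0 hJ hU hr
    by_cases h : (derivative r).eval y = 0
    · have hd : r.natDegree ≠ 0 := fun h1 => h0 (by
        rw [eq_C_of_natDegree_eq_zero h1] at hr ⊢
        rw [eval_C] at hr
        rw [hr, C_0])
      have hlt := natDegree_derivative_lt hd
      refine ih _ (hn ▸ hlt) (derivative r) rfl (fun h1 => hd (derivative_eq_zero.1 h1))
        (by omega) (fun j => ?_) h
      rw [coeff_derivative, ← Nat.cast_succ, mul_comm, ← nsmul_eq_mul]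
      exact nsmul_mem (hU _) _
    · exact ⟨r, hJ, hU, hr, h⟩

theorem li_pow {s : L} (hs : Transcendental K s) : LinearIndependent K fun n : ℕ => s ^ n := by
  have := (basisMonomials K).linearIndependent.map' (aeval s : K[X] →ₐ[K] L).toLinearMap
    (LinearMap.ker_eq_bot.2 (transcendental_iff_injective.1 hs))
  simpa [Function.comp_def] using this

theorem exists_rel {s y : L} (hs : Transcendental K s) (J : ℕ)
    (h : ¬ LinearIndependent K fun p : Fin (J + 1) × Fin (J + 1) => s ^ (p.1 : ℕ) * y ^ (p.2 : ℕ)) :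
    ∃ r : L[X], r.natDegree ≤ J ∧
      (∀ j, r.coeff j ∈ Submodule.span K (Set.range fun i : Fin (J + 1) => s ^ (i : ℕ))) ∧
      r.eval y = 0 ∧ (derivative r).eval y ≠ 0 := by
  obtain ⟨c, hc, p, hp⟩ := Fintype.not_linearIndependent_iff.1 h
  refine exists_min _ y J _ (∑ j : Fin (J + 1), monomial j (∑ i : Fin (J + 1), c (i, j) • s ^ (i : ℕ)))
    rfl (fun h0 => hp ?_) ?_ (fun j => ?_) ?_
  · have := congrArg (coeff · p.2) h0
    simp only [finsetSum_coeff, coeff_monomial, Fin.val_inj, Finset.sum_ite_eq', Finset.mem_univ,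
      if_true, coeff_zero] at this
    exact Fintype.linearIndependent_iff.1 ((li_pow hs).comp _ Fin.val_injective) _ this p.1
  · exact natDegree_sum_le_of_forall_le _ _ fun j _ =>
      (natDegree_monomial_le _).trans (Nat.le_of_lt_succ j.2)
  · rw [finsetSum_coeff]
    refine Submodule.sum_mem _ fun i _ => ?_
    rw [coeff_monomial]
    split_ifs
    · exact Submodule.sum_mem _ fun i _ => Submodule.smul_mem _ _ (Submodule.subset_span ⟨i, rfl⟩)
    · exact zero_mem _
  · rw [← hc, Fintype.sum_prod_type_right, eval_finsetSum]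
    simp only [eval_monomial, Finset.sum_mul, smul_mul_assoc]

theorem li_mul {ι : Type} {f : ι → L} (hf : LinearIndependent K f) {a : L} (ha : a ≠ 0) :
    LinearIndependent K fun i => a * f i :=
  hf.map' (LinearMap.mulLeft K a) (LinearMap.ker_eq_bot.2 (mul_right_injective₀ ha))

variable {c : ℕ} {V : Submodule K L}

theorem mem_one {a : L} (h : a ∈ V) : a ∈ V ^ 1 := by rwa [pow_one]

theorem alg_of_pow (hV : HB c V) (h1 : (1 : L) ∈ V) {p q G H : L} {g h : ℕ} (hp : p ∈ V)
    (hq : q ∈ V) (hG : G ∈ V ^ g) (hH : H ∈ V ^ g) (hq0 : q ≠ 0) (hH0 : H ≠ 0)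
    (hh : c * g + 1 ≤ h) (e : p ^ h * H = q ^ h * G) : IsAlgebraic K (p / q) := by
  by_contra hs
  set M := c * (h + 1) with hM
  have hinj : Function.Injective fun u : Fin h × Fin (M + 1) => (u.1 : ℕ) + h * u.2 := by
    rintro ⟨a, b⟩ ⟨a', b'⟩ hab
    exact finProdFinEquiv.injective (a₁ := (b, a)) (a₂ := (b', a')) (Fin.ext hab) |>
      fun h => by simp only [Prod.mk.injEq] at h ⊢; exact h.symm
  have := hV (h + g * M) _ _ (fun u => ?_)
    (li_mul ((li_pow hs).comp _ hinj) (mul_ne_zero (pow_ne_zero h hq0) (pow_ne_zero M hH0)))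
  · simp only [Fintype.card_prod, Fintype.card_fin] at this
    nlinarith
  obtain ⟨a, ha⟩ := Nat.exists_eq_add_of_le u.1.2.le
  obtain ⟨b, hb⟩ := Nat.exists_eq_add_of_le (Nat.le_of_lt_succ u.2.2)
  have e2 : (p / q) ^ h = G / H := by rw [div_pow, div_eq_div_iff (pow_ne_zero _ hq0) hH0, e, mul_comm]
  have : q ^ h * H ^ M * (p / q) ^ ((u.1 : ℕ) + h * u.2) =
      p ^ (u.1 : ℕ) * q ^ a * (G ^ (u.2 : ℕ) * H ^ b) := by
    rw [pow_add, pow_mul (p / q), e2, congrArg (q ^ ·) ha, congrArg (H ^ ·) hb]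
    simp only [div_pow, pow_add]
    field_simp
  rw [Function.comp_apply, this]
  have h2 := Submodule.pow_mem_pow _ hG u.2
  have h3 := Submodule.pow_mem_pow _ hH b
  rw [← pow_mul] at h2 h3
  exact mono_mem h1 (pmul (pmul (Submodule.pow_mem_pow _ hp _) (Submodule.pow_mem_pow _ hq _))
    (pmul h2 h3)) (by rw [← mul_add, ← ha, ← hb])

theorem alg_of_const (hV : HB c V) (h1 : (1 : L) ∈ V) (D : Derivation K L L) {s p q : L} {g : ℕ}
    (hs : s ∈ V) (hD : D s ≠ 0) (hp : p ∈ V ^ g) (hq : q ∈ V ^ g) (hq0 : q ≠ 0)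
    (h : D (p / q) = 0) : IsAlgebraic K (p / q) := by
  by_contra ht
  set J := c * (g + 1) with hJ
  obtain ⟨r, -, h2, h3, h4⟩ := exists_rel (y := s) ht J fun hi => by
    have := hV (g * J + J) _ _ (fun u => ?_) (li_mul hi (pow_ne_zero J hq0))
    · simp only [Fintype.card_prod, Fintype.card_fin] at this
      nlinarith
    obtain ⟨a, ha⟩ := Nat.exists_eq_add_of_le (Nat.le_of_lt_succ u.1.2)
    have : q ^ J * ((p / q) ^ (u.1 : ℕ) * s ^ (u.2 : ℕ)) = p ^ (u.1 : ℕ) * q ^ a * s ^ (u.2 : ℕ) := by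
      rw [congrArg (q ^ ·) ha]
      simp only [div_pow, pow_add]
      field_simp
    rw [this]
    have h2 := Submodule.pow_mem_pow _ hp u.1
    have h3 := Submodule.pow_mem_pow _ hq a
    rw [← pow_mul] at h2 h3
    exact mono_mem h1 (pmul (pmul h2 h3) (Submodule.pow_mem_pow _ hs _))
      (by rw [← mul_add, ← ha]; have := u.2.2; omega)
  have h5 : ∀ j, D (r.coeff j) = 0 := fun j => by
    refine Submodule.span_induction (p := fun a _ => D a = 0) ?_ (map_zero D)
      (fun a b _ _ ha hb => by rw [map_add, ha, hb, add_zero])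
      (fun e a _ ha => by rw [D.map_smul, ha, smul_zero]) (h2 j)
    rintro _ ⟨i, rfl⟩
    simp only [Derivation.leibniz_pow, h, smul_zero]
  have := der_eval D s r
  rw [h3, map_zero, sum_def, Finset.sum_eq_zero fun j _ => by rw [h5, zero_mul], zero_add] at this
  exact mul_ne_zero h4 hD this.symm

theorem der_bdd (hV : HB c V) (h1 : (1 : L) ∈ V) (D : Derivation K L L) {s y : L}
    (hs : s ∈ V) (hy : y ∈ V) (ht : Transcendental K s) (hD : D s = 1) :
    ∃ η ∈ V ^ (4 * c), η ≠ 0 ∧ η * D y ∈ V ^ (4 * c) := by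
  obtain ⟨r, h0, h2, h3, h4⟩ := exists_rel (y := y) ht (2 * c) fun hi => by
    have := hV (4 * c) _ _ (fun u => mono_mem h1 (pmul (Submodule.pow_mem_pow _ hs _)
      (Submodule.pow_mem_pow _ hy _)) (by have := u.1.2; have := u.2.2; omega)) hi
    simp only [Fintype.card_prod, Fintype.card_fin] at this
    nlinarith
  have h5 : ∀ j, r.coeff j ∈ V ^ (2 * c) ∧ D (r.coeff j) ∈ V ^ (2 * c) := fun j => by
    refine Submodule.span_induction (p := fun a _ => a ∈ V ^ (2 * c) ∧ D a ∈ V ^ (2 * c)) ?_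
      (by simp) (fun a b _ _ ha hb => ⟨add_mem ha.1 hb.1, by rw [map_add]; exact add_mem ha.2 hb.2⟩)
      (fun e a _ ha => ⟨Submodule.smul_mem _ _ ha.1, by
        rw [D.map_smul]; exact Submodule.smul_mem _ _ ha.2⟩) (h2 j)
    rintro _ ⟨i, rfl⟩
    have := i.2
    refine ⟨mono_mem h1 (Submodule.pow_mem_pow _ hs _) (by omega), ?_⟩
    simp only [Derivation.leibniz_pow, hD, smul_eq_mul, mul_one]
    exact nsmul_mem (mono_mem h1 (Submodule.pow_mem_pow _ hs _) (by omega)) _
  refine ⟨_, ?_, h4, ?_⟩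
  · rw [eval_eq_sum_range' (Nat.lt_succ_of_le ((natDegree_derivative_le r).trans
      ((Nat.sub_le _ _).trans h0)))]
    refine Submodule.sum_mem _ fun j hj => ?_
    rw [coeff_derivative, ← Nat.cast_succ, mul_right_comm, ← nsmul_eq_mul']
    exact nsmul_mem (mono_mem h1 (pmul (h5 _).1 (Submodule.pow_mem_pow _ hy _))
      (by have := Finset.mem_range.1 hj; omega)) _
  · have := der_eval D y r
    rw [h3, map_zero, eq_comm, add_eq_zero_iff_neg_eq, sum_def] at this
    rw [← this]
    exact neg_mem (Submodule.sum_mem _ fun j hj => mono_mem h1 (pmul (h5 _).2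
      (Submodule.pow_mem_pow _ hy _)) (by have := le_natDegree_of_mem_supp j hj; omega))

theorem der_mem (D : Derivation K L L) {g : ℕ} (h1 : (1 : L) ∈ V) (hD : ∀ a ∈ V, D a ∈ V ^ g)
    (n : ℕ) : ∀ a ∈ V ^ n, D a ∈ V ^ (n + g) := by
  induction n with
  | zero =>
    intro a ha
    obtain ⟨q, rfl⟩ := Submodule.mem_one.1 (pow_zero V ▸ ha)
    rw [D.map_algebraMap]
    exact zero_mem _
  | succ n ih =>
    intro a ha
    rw [pow_succ] at ha
    refine Submodule.mul_induction_on ha (fun b hb e he => ?_)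
      (fun b e hb he => by rw [map_add]; exact add_mem hb he)
    rw [D.leibniz, smul_eq_mul, smul_eq_mul]
    exact add_mem (mono_mem h1 (pmul hb (hD e he)) (by omega))
      (mono_mem h1 (pmul (mem_one he) (ih b hb)) (by omega))

theorem core (hV : HB c V) (h1 : (1 : L) ∈ V) {x y z : L} (hx : x ∈ V) (hy : y ∈ V) (hz : z ∈ V)
    (hsp : V ≤ Submodule.span K {1, x, y, z}) {α β γ : K} (hα : α ≠ 0) (hβ : β ≠ 0) (hγ : γ ≠ 0)
    (hs : α + β + γ ≠ 0) {h : ℕ} (hh : c * (24 * c + 2) + 1 ≤ h)
    (e : α • x ^ (h + 2) + β • y ^ (h + 2) + γ • z ^ (h + 2) = algebraMap K L (α + β + γ))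
    (hy0 : y ≠ 0) (hz0 : z ≠ 0) (hrat : ∀ w : L, IsAlgebraic K w → ∃ q : K, w = algebraMap K L q)
    (heq : ∀ w, w = y ∨ w = z → (IsAlgebraic K w → w = 1) ∧ (IsAlgebraic K (w / x) → w = x))
    (ht : Transcendental K x) : (y = 1 ∧ z = x) ∨ (z = 1 ∧ y = x) := by
  have hx0 : x ≠ 0 := fun h => ht (h ▸ isAlgebraic_zero)
  obtain ⟨D₀, hD₀⟩ := exists_der ht
  obtain ⟨η, hη, hη0, hηy⟩ := der_bdd hV h1 D₀ hx hy ht hD₀
  obtain ⟨θ, hθ, hθ0, hθz⟩ := der_bdd hV h1 D₀ hx hz ht hD₀
  set D : Derivation K L L := (η * θ) • D₀ with hD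
  have hDx : D x ≠ 0 := by simp [hD, hD₀, hη0, hθ0]
  have hDV : ∀ a ∈ V, D a ∈ V ^ (4 * c + 4 * c) := fun a ha => by
    refine Submodule.span_induction (p := fun a _ => D a ∈ V ^ (4 * c + 4 * c)) ?_ (by simp)
      (fun a b _ _ ha hb => by rw [map_add]; exact add_mem ha hb)
      (fun e a _ ha => by rw [D.map_smul]; exact Submodule.smul_mem _ _ ha) (hsp ha)
    rintro a (rfl | rfl | rfl | rfl)
    · simp
    · simpa [hD, hD₀] using pmul hη hθ
    · simpa [hD, mul_assoc, mul_left_comm] using pmul hθ hηy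
    · simpa [hD, mul_assoc] using pmul hη hθz
  let A : L → L := fun w => w * D w
  let B : L → L := fun w => (h + 1) • (D w * D w) + w * D (D w)
  have hA : ∀ w ∈ V, A w ∈ V ^ (8 * c + 1) := fun w hw =>
    mono_mem h1 (pmul (mem_one hw) (hDV w hw)) (by omega)
  have hB : ∀ w ∈ V, B w ∈ V ^ (16 * c + 1) := fun w hw =>
    add_mem (nsmul_mem (mono_mem h1 (pmul (hDV w hw) (hDV w hw)) (by omega)) _)
      (mono_mem h1 (pmul (mem_one hw) (der_mem D h1 hDV _ _ (hDV w hw)))
        (by omega))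
  have hC : ∀ w ∈ V, ∀ w' ∈ V, ∀ q : K, q • (A w * B w' - A w' * B w) ∈ V ^ (24 * c + 2) :=
    fun w hw w' hw' q => Submodule.smul_mem _ _ (sub_mem
      (mono_mem h1 (pmul (hA w hw) (hB w' hw')) (by omega))
      (mono_mem h1 (pmul (hA w' hw') (hB w hw)) (by omega)))
  have hAB : ∀ w, D (w ^ h * A w) = w ^ h * B w := fun w => by
    simp only [A, B]
    rw [← mul_assoc, ← pow_succ, D.leibniz, D.leibniz_pow]
    simp only [smul_eq_mul, nsmul_eq_mul, Nat.add_sub_cancel]
    ring
  have e1 : α • (x ^ h * A x) + β • (y ^ h * A y) + γ • (z ^ h * A z) = 0 := by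
    have := congrArg D e
    simp only [map_add D, D.map_smul, D.leibniz_pow, D.map_algebraMap, smul_eq_mul, nsmul_eq_mul,
      show h + 2 - 1 = h + 1 from rfl] at this
    simp only [Algebra.smul_def, A] at this ⊢
    apply mul_left_cancel₀ (Nat.cast_ne_zero.2 (Nat.succ_ne_zero (h + 1)) : ((h + 2 : ℕ) : L) ≠ 0)
    linear_combination this
  have e2 : α • (x ^ h * B x) + β • (y ^ h * B y) + γ • (z ^ h * B z) = 0 := by
    simpa only [map_add D, D.map_smul, hAB, map_zero] using congrArg D e1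
  have sm : ∀ {q : K} {a : L}, q ≠ 0 → a ≠ 0 → q • a ≠ 0 := fun h1 h2 => smul_ne_zero h1 h2
  have deg : ∀ w, w = y ∨ w = z → w ∈ V → w ≠ 0 → A x * B w - A w * B x = 0 → w = 1 ∨ w = x := by
    intro w hw hwV hw0 hc
    have hq0 : x ^ h * A x ≠ 0 := mul_ne_zero (pow_ne_zero _ hx0) (mul_ne_zero hx0 hDx)
    obtain ⟨q, hq⟩ := hrat _ (alg_of_const hV h1 D hx hDx
      (pmul (Submodule.pow_mem_pow _ hwV h) (hA w hwV))
      (pmul (Submodule.pow_mem_pow _ hx h) (hA x hx)) hq0 (by
        rw [D.leibniz_div, hAB, hAB]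
        simp only [smul_eq_mul]
        linear_combination (x ^ h * A x)⁻¹ ^ 2 * x ^ h * w ^ h * hc))
    rw [div_eq_iff hq0] at hq
    by_cases hAw : A w = 0
    · have := alg_of_const hV h1 D hx hDx (mem_one hwV) (mem_one h1) one_ne_zero
        (by rw [div_one]; exact (mul_eq_zero.1 hAw).resolve_left hw0)
      exact .inl ((heq w hw).1 (div_one w ▸ this))
    · refine .inr ((heq w hw).2 (alg_of_pow hV h1 hwV hx (Submodule.smul_mem _ q (hA x hx))
        (hA w hwV) hx0 hAw (h := h) (by nlinarith) ?_))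
      rw [hq, Algebra.smul_def]
      ring
  have hp : (y = 1 ∨ y = x) ∧ (z = 1 ∨ z = x) := by
    simp only [Algebra.smul_def] at e1 e2
    have hαL := (map_ne_zero (algebraMap K L)).2 hα
    have hβL := (map_ne_zero (algebraMap K L)).2 hβ
    have hγL := (map_ne_zero (algebraMap K L)).2 hγ
    have f1 : y ^ h * β • (A y * B z - A z * B y) = x ^ h * α • (A z * B x - A x * B z) := by
      simp only [Algebra.smul_def]; linear_combination B z * e1 - A z * e2
    have f2 : z ^ h * γ • (A y * B z - A z * B y) = x ^ h * α • (A x * B y - A y * B x) := by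
      simp only [Algebra.smul_def]; linear_combination A y * e2 - B y * e1
    by_cases hc : A y * B z - A z * B y = 0
    · rw [hc, smul_zero, mul_zero, eq_comm, mul_eq_zero, smul_eq_zero] at f1 f2
      refine ⟨deg y (.inl rfl) hy hy0 ?_, deg z (.inr rfl) hz hz0 ?_⟩
      · exact (f2.resolve_left (pow_ne_zero _ hx0)).resolve_left hα
      · linear_combination -(f1.resolve_left (pow_ne_zero _ hx0)).resolve_left hα
    · exact ⟨.inr ((heq y (.inl rfl)).2 (alg_of_pow hV h1 hy hx (hC z hz x hx α) (hC y hy z hz β)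
        hx0 (sm hβ hc) hh f1)), .inr ((heq z (.inr rfl)).2 (alg_of_pow hV h1 hz hx
        (hC x hx y hy α) (hC y hy z hz γ) hx0 (sm hγ hc) hh f2))⟩
  have fin : ∀ q : K, q ≠ 0 → q • x ^ (h + 2) = q • (1 : L) → False := fun q hq e =>
    ht (IsAlgebraic.of_pow (Nat.succ_pos (h + 1)) (smul_right_injective L hq e ▸ isAlgebraic_one))
  rw [Algebra.algebraMap_eq_smul_one] at e
  rcases hp with ⟨rfl | rfl, rfl | hz⟩
  · exact (fin α hα (by simp only [one_pow, add_smul] at e; linear_combination e)).elim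
  · exact .inl ⟨rfl, hz⟩
  · exact .inr ⟨rfl, rfl⟩
  · exact (fin _ hs (by rw [← e, hz, add_smul, add_smul])).elim

end Pool.Agent.P.MP_2c7719_nt.Win
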