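import Pool.Agent.P.MP_2c7719_nt.Win.Zero

/-! A linear bound for the Hilbert function of a point with the Liouville property. -/

namespace Pool.Agent.P.MP_2c7719_nt.Win

open PowerSeries

set_option linter.unusedSectionVars false

noncomputable section

variable {K : Type} [Field K] [CharZero K]

theorem exists_eval {A : Type} [CommRing A] [Algebra K A] {t : A} (ht : IsNilpotent t) :
    ∃ E : K⟦X⟧ →ₐ[K] A, E X = t := by
  have h : HasSubst (C t : A⟦X⟧) := by
    change IsNilpotent (constantCoeff (C t : A⟦X⟧))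
    simpa using ht
  let c : A⟦X⟧ →ₐ[K] A := ⟨constantCoeff, fun q => by
    change constantCoeff (algebraMap K A⟦X⟧ q) = _
    rw [PowerSeries.algebraMap_apply, constantCoeff_C]⟩
  refine ⟨c.comp (substAlgHom h), ?_⟩
  rw [AlgHom.comp_apply, substAlgHom_X]
  simp [c]

theorem root_unique (K : Type) [Field K] [CharZero K] {A : Type} [CommRing A] [Algebra K A]
    {a b : A} {k : ℕ} (hk : k ≠ 0)
    (ha : IsNilpotent (a - 1)) (hb : IsNilpotent (b - 1)) (h : a ^ k = b ^ k) : a = b := by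
  have h1 := (Commute.all a b).geom_sum₂_mul k
  rw [h, sub_self] at h1
  have h2 : IsNilpotent (∑ i ∈ Finset.range k, a ^ i * b ^ (k - 1 - i) - k) := by
    rw [← mem_nilradical, ← Ideal.Quotient.eq] at *
    simp [ha, hb]
  have h3 : IsUnit (k : A) := by
    rw [← map_natCast (algebraMap K A)]
    exact (IsUnit.mk0 _ (Nat.cast_ne_zero.2 hk)).map _
  have h4 := h2.isUnit_add_right_of_commute h3 (Commute.all _ _)
  rw [sub_add_cancel] at h4
  exact sub_eq_zero.1 (h4.mul_right_eq_zero.1 h1)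

theorem card_le_of_filtr {A : Type} [CommRing A] [Algebra K A] (t w : A) (e τ : ℕ)
    (hw : w ^ τ = 0)
    (h : ∀ a : A, ∃ p ∈ Submodule.span K (Set.range fun i : Fin e => t ^ (i : ℕ)), ∃ b,
      a = p + w * b) {ι : Type} [Fintype ι] {f : ι → A} (hf : LinearIndependent K f) :
    Fintype.card ι ≤ τ * e := by
  let g : Fin τ × Fin e → A := fun p => w ^ (p.1 : ℕ) * t ^ (p.2 : ℕ)
  have key : ∀ j ≤ τ, ∀ a : A, ∃ p ∈ Submodule.span K (Set.range g), ∃ b, a = p + w ^ j * b := by
    intro j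
    induction j with
    | zero => exact fun _ a => ⟨0, zero_mem _, a, by simp⟩
    | succ j ih =>
      intro hj a
      obtain ⟨p, hp, b, rfl⟩ := ih (by omega) a
      obtain ⟨p', hp', b', rfl⟩ := h b
      refine ⟨p + w ^ j * p', add_mem hp ?_, b', by ring⟩
      refine Submodule.span_induction (p := fun y _ => w ^ j * y ∈ Submodule.span K (Set.range g))
        ?_ (by simp) (fun y z _ _ hy hz => by rw [mul_add]; exact add_mem hy hz)
        (fun c y _ hy => by rw [mul_smul_comm]; exact Submodule.smul_mem _ c hy) hp'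
      rintro _ ⟨i, rfl⟩
      exact Submodule.subset_span ⟨(⟨j, hj⟩, i), rfl⟩
  have htop : Set.range f ≤ Submodule.span K (Set.range g) := by
    rintro a -
    obtain ⟨p, hp, b, rfl⟩ := key τ le_rfl a
    simpa [hw] using hp
  classical
  have := linearIndependent_le_span_aux' f hf (Set.range g) htop
  exact this.trans ((Fintype.card_range_le g).trans (by simp))

/-- the polynomial ring in three variables -/
abbrev R3 (K : Type) [Field K] : Type := MvPolynomial (Fin 3) K

/-- the affine linear expressions in `x` -/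
def W (K : Type) [Field K] {A : Type} [CommRing A] [Algebra K A] (x : Fin 3 → A) : Submodule K A :=
  Submodule.span K (insert 1 (Set.range x))

/-- the maximal ideal of the point `(1,1,1)` -/
def mm (K : Type) [Field K] : Ideal (R3 K) := Ideal.span (Set.range fun i => MvPolynomial.X i - 1)

/-- the Liouville property -/
def Liou (K : Type) [Field K] {L : Type} [Field L] [Algebra K L] (T : ℕ) (x : Fin 3 → L) : Prop :=
  ∀ n τ : ℕ, T * n + 1 ≤ τ → ∀ F ∈ W K (MvPolynomial.X : Fin 3 → (R3 K)) ^ n, ∀ M ∈ mm K ^ τ,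
    MvPolynomial.aeval x F = MvPolynomial.aeval x M → MvPolynomial.aeval x F = 0

theorem W_lift {L : Type} [Field L] [Algebra K L] (x : Fin 3 → L) (n : ℕ) {a : L}
    (ha : a ∈ W K x ^ n) : ∃ F ∈ W K (MvPolynomial.X : Fin 3 → (R3 K)) ^ n, MvPolynomial.aeval x F = a := by
  have : W K x = (W K (MvPolynomial.X : Fin 3 → (R3 K))).map
      (MvPolynomial.aeval x : (R3 K) →ₐ[K] L).toLinearMap := by
    rw [W, W, Submodule.map_span, Set.image_insert_eq, ← Set.range_comp]
    simp [Function.comp_def]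
  rw [this, ← Submodule.map_pow] at ha
  exact ha

theorem X_pow_sub_mem (i : Fin 3) (k : ℕ) : (MvPolynomial.X i ^ k - 1 : (R3 K)) ∈ mm K := by
  have := sub_dvd_pow_sub_pow (MvPolynomial.X i : (R3 K)) 1 k
  rw [one_pow] at this
  exact Ideal.mem_of_dvd _ this (Ideal.subset_span ⟨i, rfl⟩)

theorem dim_le {L : Type} [Field L] [Algebra K L] {T k : ℕ} (hk : k ≠ 0) {x : Fin 3 → L}
    {α l : Fin 3 → K} (hα : α 2 ≠ 0) (h0 : l 0 ≠ 0) (hl : ∑ i, α i * l i = 0)
    (hx : ∑ i, α i • x i ^ k = algebraMap K L (∑ i, α i)) (hL : Liou K T x) (n e : ℕ)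
    (he : e = T * n + 1 ∨ ∃ F : (R3 K), MvPolynomial.aeval x F = 0 ∧
      MvPolynomial.aeval (fun i => bs (l i) (k : K)⁻¹) F ∣ X ^ e)
    {ι : Type} [Fintype ι] {f : ι → L} (hf : ∀ i, f i ∈ W K x ^ n) (hi : LinearIndependent K f) :
    Fintype.card ι ≤ (T * n + 1) * e := by
  set τ := T * n + 1
  choose F hF hFx using fun i => W_lift x n (hf i)
  let J : Ideal (R3 K) := RingHom.ker (MvPolynomial.aeval x : (R3 K) →ₐ[K] L) ⊔ mm K ^ τ
  let t : (R3 K) := (l 0)⁻¹ • (MvPolynomial.X 0 ^ k - 1)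
  let w : (R3 K) := MvPolynomial.X 1 ^ k - 1 - l 1 • t
  have ht : t ∈ mm K := Submodule.smul_of_tower_mem _ _ (X_pow_sub_mem 0 k)
  have hw : w ∈ mm K := sub_mem (X_pow_sub_mem 1 k) (Submodule.smul_of_tower_mem _ _ ht)
  have hind : LinearIndependent K fun i => Ideal.Quotient.mkₐ K J (F i) := by
    rw [Fintype.linearIndependent_iff] at hi ⊢
    intro c hc
    apply hi c
    simp only [← map_smul, ← map_sum] at hc
    obtain ⟨G, hG, M, hM, hGM⟩ := Submodule.mem_sup.1 (Ideal.Quotient.eq_zero_iff_mem.1 hc)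
    have := hL n τ le_rfl _ (Submodule.sum_mem _ fun i _ => Submodule.smul_mem _ (c i) (hF i)) M hM
      (by rw [← hGM, map_add, RingHom.mem_ker.1 hG, zero_add])
    simpa only [map_sum, map_smul, hFx] using this
  refine card_le_of_filtr (Ideal.Quotient.mk J t) (Ideal.Quotient.mk J w) e τ ?_ ?_ hind
  · rw [← map_pow, Ideal.Quotient.eq_zero_iff_mem]
    exact Ideal.mem_sup_right (Ideal.pow_mem_pow hw τ)
  let J' : Ideal (R3 K) := J ⊔ Ideal.span {w}
  let π := Ideal.Quotient.mkₐ K J'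
  have hz : ∀ a ∈ J, π a = 0 := fun a ha =>
    Ideal.Quotient.eq_zero_iff_mem.2 (Ideal.mem_sup_left ha)
  have hnil : ∀ a ∈ mm K, π a ^ τ = 0 := fun a ha => by
    rw [← map_pow]; exact hz _ (Ideal.mem_sup_right (Ideal.pow_mem_pow ha τ))
  obtain ⟨E, hE⟩ := exists_eval (K := K) ⟨τ, hnil t ht⟩
  have e0 : π (MvPolynomial.X 0) ^ k = 1 + l 0 • π t := by
    simp [t, smul_smul, mul_inv_cancel₀ h0]
  have e1 : π (MvPolynomial.X 1) ^ k = 1 + l 1 • π t := by
    have : π w = 0 := Ideal.Quotient.eq_zero_iff_mem.2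
      (Ideal.mem_sup_right (Ideal.subset_span rfl))
    simp only [w, map_sub, map_pow, map_one, map_smul] at this
    linear_combination this
  have e2 : π (MvPolynomial.X 2) ^ k = 1 + l 2 • π t := by
    have := hz (∑ i, α i • MvPolynomial.X i ^ k - algebraMap K (R3 K) (∑ i, α i))
      (Ideal.mem_sup_left (by
        rw [RingHom.mem_ker]
        simp only [map_sub, map_sum, map_smul, map_pow, MvPolynomial.aeval_X, AlgHom.commutes] at *
        rw [hx, sub_self]))
    rw [map_sub, AlgHom.commutes, Algebra.algebraMap_eq_smul_one] at this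
    simp only [Fin.sum_univ_three, map_add, map_smul, map_pow, e0, e1] at this hl
    apply smul_right_injective _ hα
    have h2 : α 2 * l 2 = -(α 0 * l 0 + α 1 * l 1) := by linear_combination hl
    simp only [smul_add, smul_smul, add_smul, h2, neg_smul] at this ⊢
    linear_combination this
  have hEX : ∀ i, E (bs (l i) (k : K)⁻¹) = π (MvPolynomial.X i) := fun i => by
    refine root_unique K hk ?_ ⟨τ, ?_⟩ ?_
    · obtain ⟨g, hg⟩ : X ∣ bs (l i) (k : K)⁻¹ - 1 := by rw [X_dvd_iff]; simp [bs_const]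
      rw [← map_one E, ← map_sub, hg, map_mul, hE]
      exact (Commute.all _ _).isNilpotent_mul_right ⟨τ, hnil t ht⟩
    · rw [← map_one π, ← map_sub]
      exact hnil _ (Ideal.subset_span ⟨i, rfl⟩)
    · rw [← map_pow, bs_pow, mul_inv_cancel₀ (Nat.cast_ne_zero.2 hk), bs_one, ← smul_eq_C_mul,
        map_add, map_one, map_smul, hE]
      fin_cases i
      exacts [e0.symm, e1.symm, e2.symm]
  have hπ : ∀ G : (R3 K), π G = E (MvPolynomial.aeval (fun i => bs (l i) (k : K)⁻¹) G) := fun G => by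
    rw [← AlgHom.comp_apply]
    congr 1
    ext i
    simp [hEX]
  have hte : π t ^ e = 0 := by
    rcases he with rfl | ⟨G, hG, g, hg⟩
    · exact hnil t ht
    · rw [← hE, ← map_pow, hg, map_mul, ← hπ, hz G (Ideal.mem_sup_left hG), zero_mul]
  intro a
  obtain ⟨G, rfl⟩ := Ideal.Quotient.mk_surjective a
  set g := MvPolynomial.aeval (fun i => bs (l i) (k : K)⁻¹) G with hg
  have h1 : π (G - ∑ i : Fin e, coeff (i : ℕ) g • t ^ (i : ℕ)) = 0 := by
    obtain ⟨g', hg'⟩ : X ^ e ∣ g - ∑ i : Fin e, coeff (i : ℕ) g • X ^ (i : ℕ) := by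
      rw [X_pow_dvd_iff]
      intro m hm
      simp only [map_sub, map_sum, map_smul, coeff_X_pow, smul_eq_mul, mul_ite, mul_one, mul_zero]
      rw [Finset.sum_eq_single ⟨m, hm⟩ (fun b _ hb => if_neg fun h => hb (Fin.ext h.symm))
        (by simp)]
      simp
    have := congrArg E hg'
    simp only [map_sub, map_sum, map_smul, map_pow, map_mul, hE, hte, zero_mul] at this
    simp only [map_sub, map_sum, map_smul, map_pow, hπ G]
    exact this
  obtain ⟨j, hj, y, hy, hjy⟩ := Submodule.mem_sup.1 (Ideal.Quotient.eq_zero_iff_mem.1 h1)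
  obtain ⟨b, rfl⟩ := Ideal.mem_span_singleton.1 hy
  refine ⟨∑ i : Fin e, coeff (i : ℕ) g • Ideal.Quotient.mk J t ^ (i : ℕ),
    Submodule.sum_mem _ fun i _ => Submodule.smul_mem _ _ (Submodule.subset_span ⟨i, rfl⟩),
    Ideal.Quotient.mk J b, ?_⟩
  have := congrArg (Ideal.Quotient.mkₐ K J) hjy
  simp only [map_add, map_sub, map_sum, map_smul, map_pow, map_mul, Ideal.Quotient.mkₐ_eq_mk,
    Ideal.Quotient.eq_zero_iff_mem.2 hj] at this
  linear_combination -this

theorem mono_mem {A : Type} [CommRing A] [Algebra K A] {V : Submodule K A} (h1 : (1 : A) ∈ V)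
    {a : A} {m n : ℕ} (ha : a ∈ V ^ m) (h : m ≤ n) : a ∈ V ^ n := by
  obtain ⟨d, rfl⟩ := Nat.exists_eq_add_of_le h
  rw [pow_add, ← mul_one a, ← one_pow d]
  exact Submodule.mul_mem_mul ha (Submodule.pow_mem_pow V h1 d)

theorem pmul {A : Type} [CommRing A] [Algebra K A] {V : Submodule K A}
    {a b : A} {m n : ℕ} (ha : a ∈ V ^ m) (hb : b ∈ V ^ n) : a * b ∈ V ^ (m + n) := by
  rw [pow_add]; exact Submodule.mul_mem_mul ha hb

/-- the dimension of `V ^ n` is at most `c (n + 1)` -/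
def HB {L : Type} [Field L] [Algebra K L] (c : ℕ) (V : Submodule K L) : Prop :=
  ∀ (n : ℕ) (ι : Type) [Fintype ι] (f : ι → L), (∀ i, f i ∈ V ^ n) → LinearIndependent K f →
    Fintype.card ι ≤ c * (n + 1)

theorem hb (T : ℕ) : ∃ c j : ℕ, ∀ k, j < k → ∀ {K L : Type} [Field K] [CharZero K] [Field L]
    [Algebra K L]
    {x : Fin 3 → L} {α l : Fin 3 → K}, α 2 ≠ 0 → Function.Injective l → (∀ i, l i ≠ 0) →
    ∑ i, α i * l i = 0 → ∑ i, α i • x i ^ k = algebraMap K L (∑ i, α i) → Liou K T x →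
    HB c (W K x) := by
  set j := (3 * T + 1) ^ 2 with hj
  obtain ⟨Z, hZ⟩ := zero_est ((j + 1) ^ 3) 0
  refine ⟨(T + 1) * Z, j, fun k hk K L _ _ _ _ x α l hα hli h0 hl hx hL n ι _ f hf hi => ?_⟩
  have hk0 : k ≠ 0 := by omega
  have h1 : (1 : L) ∈ W K x := Submodule.subset_span (Set.mem_insert _ _)
  have hxm : ∀ i, x i ∈ W K x := fun i => Submodule.subset_span (Set.mem_insert_of_mem _ ⟨i, rfl⟩)
  have hdep : ¬ LinearIndependent K fun s : Fin 3 → Fin (j + 1) =>
      x 0 ^ (s 0 : ℕ) * x 1 ^ (s 1 : ℕ) * x 2 ^ (s 2 : ℕ) := fun h => by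
    have := dim_le hk0 hα (h0 0) hl hx hL (3 * j) _ (.inl rfl) (fun s => mono_mem h1
      (pmul (pmul (Submodule.pow_mem_pow _ (hxm 0) _) (Submodule.pow_mem_pow _ (hxm 1) _))
        (Submodule.pow_mem_pow _ (hxm 2) _))
      (by have := (s 0).2; have := (s 1).2; have := (s 2).2; omega)) h
    simp only [Fintype.card_pi, Fintype.card_fin, Finset.prod_const, Finset.card_univ] at this
    have h2 : T * (3 * j) + 1 ≤ (3 * T + 1) * (j + 1) := by nlinarith
    have h3 := this.trans (Nat.mul_le_mul h2 h2)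
    rw [mul_mul_mul_comm, ← sq, ← hj] at h3
    nlinarith
  obtain ⟨c, hc, s₀, hs₀⟩ := Fintype.not_linearIndependent_iff.1 hdep
  have := dim_le hk0 hα (h0 0) hl hx hL n Z (.inr ⟨∑ s : Fin 3 → Fin (j + 1), c s •
    (MvPolynomial.X 0 ^ (s 0 : ℕ) * MvPolynomial.X 1 ^ (s 1 : ℕ) * MvPolynomial.X 2 ^ (s 2 : ℕ)),
      by simpa using hc, ?_⟩) hf hi
  · exact this.trans (by nlinarith)
  refine (ValuationRing.dvd_total _ _).resolve_right fun h => hs₀ ?_
  have := hZ l hli h0 Finset.univ (fun (s : Fin 3 → Fin (j + 1)) i => ((s i : ℕ) : K) * (k : K)⁻¹)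
    (fun s => Polynomial.C (c s)) (by simp) (fun s _ s' _ hne hint => hne ?_) (by simp)
    (by simpa [ph, bs_pow, smul_eq_C_mul] using h) s₀ (Finset.mem_univ _)
  · simpa using this
  ext i
  obtain ⟨z, hz⟩ := hint i
  simp only [Pi.sub_apply] at hz
  have hk1 : (k : K) ≠ 0 := Nat.cast_ne_zero.2 hk0
  field_simp at hz
  have h2 : ((s i : ℕ) : ℤ) - (s' i : ℕ) = k * z := by exact_mod_cast hz
  have := (s i).2
  have := (s' i).2
  rcases lt_trichotomy z 0 with h | h | h
  · nlinarith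
  · rw [h] at h2; omega
  · nlinarith

end

end Pool.Agent.P.MP_2c7719_nt.Win
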