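import Pool.Agent.P.MP_2c7719_nt.Win.Main

/-! Equal sums of two large powers near rational points of small height, all places at once. -/

namespace Pool.Agent.P.MP_2c7719_nt.Win

open Filter Asymptotics MvPolynomial

namespace Ult

variable {L : Type} [Field L] {A : Ult L}

theorem cancel {m z : ℕ → ℕ} (hm : ∀ n, ∃ e e' : ℤ, (z n : ℤ) = A.d n * e + m n * e') (u : L)
    (hu : u ∈ A.Ψ.range) (v : L) (hv : v ∈ A.Ψ.range) (j τ : ℕ)
    (h : A.Φ (fun n => A.d n) ^ j * u = A.Φ (fun n => m n) ^ τ * v) :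
    ∃ y ∈ A.Ψ.range, A.Φ (fun n => z n) ^ (j + τ) * u = A.Φ (fun n => m n) ^ τ * y := by
  obtain ⟨f, rfl⟩ := hu
  obtain ⟨g, rfl⟩ := hv
  refine ⟨A.Ψ fun n => (z n) ^ (j + τ) * f n / (m n) ^ τ, ⟨_, rfl⟩, ?_⟩
  simp only [Ψ, RingHom.comp_apply, ← map_pow, ← map_mul, A.eq_iff] at h ⊢
  filter_upwards [h] with n hn
  have h1 : (A.d n : ℤ) ^ j * f n = (m n : ℤ) ^ τ * g n := by
    have : (A.d n : ℚ) ^ j * f n = (m n : ℚ) ^ τ * g n := hn
    exact_mod_cast this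
  obtain ⟨e, e', he⟩ := hm n
  have h2 : ((m n : ℤ) ^ τ) ∣ (z n) ^ (j + τ) * f n := by
    let I : Ideal ℤ := Submodule.comap (LinearMap.mulRight ℤ (f n)) (Ideal.span {(m n : ℤ) ^ τ})
    have hI : ∀ t, t ∈ I ↔ (m n : ℤ) ^ τ ∣ t * f n := fun t => Ideal.mem_span_singleton
    rw [← hI, he]
    refine I.add_pow_mem_of_pow_mem_of_le (m := j) (n := τ) ((hI _).2 ⟨e ^ j * g n, ?_⟩)
      ((hI _).2 ⟨e' ^ τ * f n, by ring⟩) (by omega)
    linear_combination e ^ j * h1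
  change (z n : ℚ) ^ (j + τ) * (f n : ℚ) =
    (m n : ℚ) ^ τ * (((z n) ^ (j + τ) * f n / (m n) ^ τ : ℤ) : ℚ)
  exact_mod_cast (Int.mul_ediv_cancel' h2).symm

theorem liou' {ε : ℝ} (hε : 0 < ε) {T : ℕ} (hT : 1 ≤ ε * T) {x : Fin 3 → L} {D M : L}
    (hD0 : D ≠ 0) (hM0 : M ≠ 0) (hD : D ∈ A.Ψ.range) (hM : M ∈ A.Ψ.range) (hD1 : A.Bd 1 D)
    (hc : ∀ u ∈ A.Ψ.range, ∀ v ∈ A.Ψ.range, ∀ j τ : ℕ, D ^ j * u = M ^ τ * v →
      ∃ r ∈ A.S, r ≠ 0 ∧ ∃ y ∈ A.Ψ.range, r * u = M ^ τ * y)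
    (hi : ∀ i, ∃ q ∈ A.S, q ≠ 0 ∧ q * D * ((x i - 1) / M) ∈ A.Ψ.range)
    (hx0 : ∀ i, A.Bd 0 (x i)) (hx : ∀ i, A.Bd (-ε) ((x i - 1) / M)) : Liou A.K T x := by
  let I : ℕ → ℕ → R3 A.K → Prop := fun n τ F =>
    ∃ q ∈ A.S, q ≠ 0 ∧ q * D ^ n * (aeval x F / M ^ τ) ∈ A.Ψ.range
  have Iadd : ∀ {n τ F G}, I n τ F → I n τ G → I n τ (F + G) := by
    rintro n τ F G ⟨q, hq, h0, h⟩ ⟨q', hq', h0', h'⟩
    refine ⟨q * q', mul_mem hq hq', mul_ne_zero h0 h0', ?_⟩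
    rw [map_add, add_div, show ∀ a b, q * q' * D ^ n * (a + b) =
      q' * (q * D ^ n * a) + q * (q' * D ^ n * b) from fun a b => by ring]
    exact add_mem (mul_mem hq'.1 h) (mul_mem hq.1 h')
  have Imul : ∀ {m n σ τ F G}, I m σ F → I n τ G → I (m + n) (σ + τ) (F * G) := by
    rintro m n σ τ F G ⟨q, hq, h0, h⟩ ⟨q', hq', h0', h'⟩
    refine ⟨q * q', mul_mem hq hq', mul_ne_zero h0 h0', ?_⟩
    rw [map_mul, pow_add M, mul_div_mul_comm, show ∀ a b, q * q' * D ^ (m + n) * (a * b) =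
      q * D ^ m * a * (q' * D ^ n * b) from fun a b => by ring]
    exact mul_mem h h'
  have Ic : ∀ c : A.K, I 0 0 (algebraMap _ _ c) := fun c => by
    obtain ⟨q, hq, h0, h⟩ := frac c.2
    exact ⟨q, hq, h0, by rw [AlgHom.commutes, pow_zero, pow_zero, mul_one, div_one]; exact h.1⟩
  have Ione : ∀ n, I n 0 1 := fun n => ⟨1, one_mem _, one_ne_zero, by simpa using pow_mem hD n⟩
  have Iup : ∀ {n τ F G}, (∃ n, I n τ F) → I n τ G → ∃ n, I n τ (F + G) := by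
    rintro n τ F G ⟨m, h⟩ h'
    have e1 := Imul h (Ione n)
    have e2 := Imul (Ione m) h'
    simp only [add_zero, zero_add, mul_one, one_mul] at e1 e2
    exact ⟨_, Iadd e1 e2⟩
  have IX1 : ∀ i, I 1 1 (X i - 1) := fun i => by simpa [I] using hi i
  have IX : ∀ i, I 1 0 (X i) := fun i => by
    obtain ⟨q, hq, h0, h⟩ := hi i
    refine ⟨q, hq, h0, ?_⟩
    have := add_mem (mul_mem h hM) (mul_mem hq.1 hD)
    convert this using 1
    simp only [aeval_X, pow_one, pow_zero, div_one]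
    field_simp
    ring
  have I1 : ∀ F ∈ W A.K (X : Fin 3 → R3 A.K), I 1 0 F := fun F hF => by
    refine Submodule.span_induction (p := fun F _ => I 1 0 F) ?_
      ⟨1, one_mem _, one_ne_zero, by simp⟩ (fun _ _ _ _ => Iadd)
      (fun c F _ hF => by rw [Algebra.smul_def]; exact Imul (Ic c) hF) hF
    rintro _ (rfl | ⟨i, rfl⟩)
    · exact Ione 1
    · exact IX i
  have In : ∀ n, ∀ F ∈ W A.K (X : Fin 3 → R3 A.K) ^ n, I n 0 F := fun n => by
    induction n with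
    | zero =>
      intro F hF
      obtain ⟨c, rfl⟩ := Submodule.mem_one.1 (pow_zero (W A.K (X : Fin 3 → R3 A.K)) ▸ hF)
      exact Ic c
    | succ n ih =>
      intro F hF
      rw [pow_succ] at hF
      exact Submodule.mul_induction_on hF (fun a ha b hb => Imul (ih a ha) (I1 b hb))
        fun _ _ => Iadd
  have J0 : ∀ G : R3 A.K, ∃ n, I n 0 G := fun G => by
    induction G using MvPolynomial.induction_on with
    | C a => exact ⟨0, Ic a⟩
    | add p q hp hq => exact Iup hp hq.choose_spec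
    | mul_X p i hp => exact ⟨_, Imul hp.choose_spec (IX i)⟩
  have J1 : ∀ G ∈ mm A.K, ∃ n, I n 1 G := fun G hG => by
    refine Submodule.span_induction (p := fun G _ => ∃ n, I n 1 G) ?_
      ⟨0, 1, one_mem _, one_ne_zero, by simp⟩ (fun _ _ _ _ ha hb => Iup ha hb.choose_spec)
      (fun G' G _ hG => by
        obtain ⟨n, hn⟩ := hG
        obtain ⟨n', hn'⟩ := J0 G'
        have := Imul hn' hn
        rw [zero_add, ← smul_eq_mul] at this
        exact ⟨_, this⟩) hG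
    rintro _ ⟨i, rfl⟩
    exact ⟨1, IX1 i⟩
  have J2 : ∀ τ : ℕ, ∀ G ∈ mm A.K ^ τ, ∃ n, I n τ G := fun τ => by
    induction τ with
    | zero => exact fun G _ => J0 G
    | succ τ ih =>
      intro G hG
      rw [pow_succ] at hG
      exact Submodule.mul_induction_on hG
        (fun a ha b hb => ⟨_, Imul (ih a ha).choose_spec (J1 b hb).choose_spec⟩)
        fun _ _ ha hb => Iup ha hb.choose_spec
  have h0 : ∀ G : R3 A.K, A.Bd 0 (aeval x G) := fun G => by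
    induction G using MvPolynomial.induction_on with
    | C a => rw [aeval_C]; exact bd_K a.2
    | add p q hp hq => rw [map_add]; exact hp.add hq
    | mul_X p i hp => simpa using hp.mul (hx0 i)
  have h1 : ∀ G ∈ mm A.K, A.Bd (-ε) (aeval x G / M) := fun G hG => by
    refine Submodule.span_induction (p := fun G _ => A.Bd (-ε) (aeval x G / M)) ?_
      (by simpa using bd_zero _) (fun _ _ _ _ ha hb => by simpa [add_div] using ha.add hb)
      (fun G' G _ hG => by simpa [mul_div_assoc] using (h0 G').mul hG) hG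
    rintro _ ⟨i, rfl⟩
    simpa using hx i
  have h2 : ∀ τ : ℕ, ∀ G ∈ mm A.K ^ τ, A.Bd (τ * -ε) (aeval x G / M ^ τ) := fun τ => by
    induction τ with
    | zero => exact fun G _ => by simpa using h0 G
    | succ τ ih =>
      intro G hG
      rw [pow_succ] at hG
      refine Submodule.mul_induction_on hG (fun a ha b hb => ?_)
        fun _ _ ha hb => by simpa [add_div] using ha.add hb
      have := (ih a ha).mul (h1 b hb)
      rw [← mul_div_mul_comm, ← map_mul, ← pow_succ] at this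
      convert this using 1
      push_cast
      ring
  intro m τ hτ F hF G hG e
  obtain ⟨q, hq, hq0, h⟩ := In m F hF
  obtain ⟨j, q', hq', hq0', h'⟩ := J2 τ G hG
  rw [pow_zero, div_one] at h
  have hMτ : M ^ τ ≠ 0 := pow_ne_zero _ hM0
  obtain ⟨r, hr, hr0, y, hy, ey⟩ := hc _ (mul_mem hq'.1 h) _ (mul_mem (mul_mem hq.1 (pow_mem hD m)) h') j τ
    (by rw [e]; field_simp)
  have h3 : 0 + 0 + 0 + m * 1 + τ * -ε < 0 := by
    have : (T : ℝ) * m + 1 ≤ τ := by exact_mod_cast hτ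
    nlinarith [mul_le_mul_of_nonneg_left this hε.le,
      mul_le_mul_of_nonneg_right hT (Nat.cast_nonneg (α := ℝ) m)]
  have ey' : r * q' * q * D ^ m * (aeval x G / M ^ τ) = y := by
    rw [← e, ← mul_div_assoc, div_eq_iff hMτ]
    linear_combination ey
  have := eq_zero h3 (ey' ▸ (((Bd.mul hr.2 hq'.2).mul hq.2).mul (hD1.pow m)).mul (h2 τ G hG)) hy
  rw [this, mul_zero] at ey
  exact (mul_eq_zero.1 ((mul_eq_zero.1 ((mul_eq_zero.1 ey).resolve_left hr0)).resolve_left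
    hq0')).resolve_left (mul_ne_zero hq0 (pow_ne_zero _ hD0))

end Ult

theorem aux' {L : Type} [Field L] [CharZero L] (A : Ult L) (hU : (A.U : Filter ℕ) ≤ atTop)
    {ε : ℝ} (hε : 0 < ε) {T k : ℕ} (hT : 1 ≤ ε * T) (hk0 : k ≠ 0)
    (hk : ∀ {x : Fin 3 → L} {α : Fin 3 → A.K}, (∀ i, α i ≠ 0) → ∑ i, α i • x i ^ k = 1 →
      Liou A.K T x → (∀ w : L, IsAlgebraic A.K w → ∃ q : A.K, w = algebraMap A.K L q) →
      ∑ i, α i = 1 ∧ ((x 1 = 1 ∧ x 2 = x 0) ∨ (x 2 = 1 ∧ x 1 = x 0) ∨ (x 0 = 1 ∧ x 2 = x 1)))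
    {a b c d u v w z m : ℕ → ℕ} (hA : A.d = d) (hd1 : ∀ n, 1 ≤ d n) (hm1 : ∀ n, 1 ≤ m n)
    (hm : ∀ n, ∃ e e' : ℤ, (z n : ℤ) = d n * e + m n * e') (hu : ∀ n, 1 ≤ u n)
    (hv : ∀ n, 1 ≤ v n) (hw : ∀ n, 1 ≤ w n) (hz : ∀ n, 1 ≤ z n)
    (hu' : ∀ n, (u n : ℝ) ≤ (d n : ℝ) ^ (1 / (n + 1) : ℝ))
    (hv' : ∀ n, (v n : ℝ) ≤ (d n : ℝ) ^ (1 / (n + 1) : ℝ))
    (hw' : ∀ n, (w n : ℝ) ≤ (d n : ℝ) ^ (1 / (n + 1) : ℝ))
    (hz' : ∀ n, (z n : ℝ) ≤ (d n : ℝ) ^ (1 / (n + 1) : ℝ))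
    (ma : ∀ n, a n * z n ≡ d n * u n [MOD m n]) (mb : ∀ n, b n * z n ≡ d n * v n [MOD m n])
    (mc : ∀ n, c n * z n ≡ d n * w n [MOD m n])
    (ha : ∀ n, |(a n : ℝ) * z n - d n * u n| ≤
      min (m n * (d n : ℝ) ^ (1 - ε)) ((d n : ℝ) ^ (1 + 1 / (n + 1) : ℝ)))
    (hb : ∀ n, |(b n : ℝ) * z n - d n * v n| ≤
      min (m n * (d n : ℝ) ^ (1 - ε)) ((d n : ℝ) ^ (1 + 1 / (n + 1) : ℝ)))
    (hc : ∀ n, |(c n : ℝ) * z n - d n * w n| ≤
      min (m n * (d n : ℝ) ^ (1 - ε)) ((d n : ℝ) ^ (1 + 1 / (n + 1) : ℝ)))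
    (e : ∀ n, a n ^ k + b n ^ k = c n ^ k + d n ^ k) : ∃ n, (a n = c n ∧ b n = d n) ∨
      (a n = d n ∧ b n = c n) ∨
      (a n * z n = d n * u n ∧ b n * z n = d n * v n ∧ c n * z n = d n * w n) := by
  let φ : (ℕ → ℕ) → L := fun y => A.Φ fun n => y n
  have hφ : ∀ y, φ y ∈ A.Ψ.range := fun y => ⟨fun n => y n, rfl⟩
  have hφ0 : ∀ y : ℕ → ℕ, (∀ n, 1 ≤ y n) → φ y ≠ 0 := fun y hy h => by
    obtain ⟨n, hn⟩ := ((A.ker _).1 h).exists
    have := hy n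
    simp only [Nat.cast_eq_zero] at hn
    omega
  have hS : ∀ y : ℕ → ℕ, (∀ n, (y n : ℝ) ≤ (d n : ℝ) ^ (1 / (n + 1) : ℝ)) → φ y ∈ A.S :=
    fun y hy => ⟨hφ y, _, rfl, fun η hη => .of_bound' <| by
      filter_upwards [hU (tendsto_one_div_add_atTop_nhds_zero_nat.eventually
        (eventually_le_nhds hη))] with n hn
      rw [Real.norm_of_nonneg (by positivity), Real.norm_of_nonneg (by positivity), zero_add,
        Rat.cast_natCast, hA]
      exact (hy n).trans (Real.rpow_le_rpow_of_exponent_le (by exact_mod_cast hd1 n) hn)⟩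
  have hK : ∀ y : ℕ → ℕ, (∀ n, (y n : ℝ) ≤ (d n : ℝ) ^ (1 / (n + 1) : ℝ)) → φ y ∈ A.K :=
    fun y hy => Subfield.subset_closure (hS y hy)
  have hx : ∀ y s : ℕ → ℕ, (∀ n, 1 ≤ s n) →
      (∀ n, |(y n : ℝ) * z n - d n * s n| ≤ m n * (d n : ℝ) ^ (1 - ε)) →
      A.Bd (-ε) ((φ y * φ z / (φ d * φ s) - 1) / φ m) := fun y s hs h => by
    rw [div_eq_mul_inv, div_eq_mul_inv, ← map_mul, ← map_mul, A.inv, A.inv, ← map_mul,
      ← map_one A.Φ, ← map_sub, ← map_mul]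
    refine Ult.bd_of_le (.of_forall fun n => ?_)
    have h1 : (1 : ℝ) ≤ d n := by exact_mod_cast hd1 n
    have h2 : (1 : ℝ) ≤ s n := by exact_mod_cast hs n
    have h4 : (1 : ℝ) ≤ m n := by exact_mod_cast hm1 n
    have h3 : (0 : ℝ) < d n * s n := by positivity
    have h5 : (0 : ℝ) < d n * s n * m n := by positivity
    simp only [Pi.sub_apply, Pi.mul_apply, Pi.inv_apply, Pi.one_apply, hA]
    push_cast
    rw [← div_eq_mul_inv, ← div_eq_mul_inv, div_sub_one h3.ne', div_div, abs_div, abs_of_pos h5,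
      div_le_iff₀ h5]
    refine (h n).trans ?_
    rw [sub_eq_neg_add, Real.rpow_add_one (by positivity), mul_comm (m n : ℝ), ← mul_assoc]
    refine mul_le_mul_of_nonneg_right ?_ (by positivity)
    exact mul_le_mul_of_nonneg_left (le_mul_of_one_le_right (by positivity) h2) (by positivity)
  have hx0 : ∀ y s : ℕ → ℕ, (∀ n, 1 ≤ s n) →
      (∀ n, |(y n : ℝ) * z n - d n * s n| ≤ (d n : ℝ) ^ (1 + 1 / (n + 1) : ℝ)) →
      A.Bd 0 (φ y * φ z / (φ d * φ s)) := fun y s hs h => by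
    rw [← sub_add_cancel (φ y * φ z / (φ d * φ s)) 1]
    refine Ult.Bd.add ?_ Ult.bd_one
    rw [div_eq_mul_inv, ← map_mul, ← map_mul, A.inv, ← map_mul, ← map_one A.Φ, ← map_sub]
    refine ⟨_, rfl, fun η hη => .of_bound' ?_⟩
    filter_upwards [hU (tendsto_one_div_add_atTop_nhds_zero_nat.eventually
      (eventually_le_nhds hη))] with n hn
    have h1 : (1 : ℝ) ≤ d n := by exact_mod_cast hd1 n
    have h2 : (1 : ℝ) ≤ s n := by exact_mod_cast hs n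
    have h3 : (0 : ℝ) < d n * s n := by positivity
    rw [Real.norm_of_nonneg (r := _ ^ _) (by positivity), Real.norm_eq_abs, zero_add]
    simp only [Pi.sub_apply, Pi.mul_apply, Pi.inv_apply, Pi.one_apply, hA]
    push_cast
    rw [← div_eq_mul_inv, div_sub_one h3.ne', abs_div, abs_of_pos h3, div_le_iff₀ h3]
    refine (h n).trans ?_
    rw [add_comm, Real.rpow_add_one (by positivity)]
    exact mul_le_mul (Real.rpow_le_rpow_of_exponent_le h1 hn)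
      (le_mul_of_one_le_right (by positivity) h2) (by positivity) (by positivity)
  have hi : ∀ y s : ℕ → ℕ, (∀ n, 1 ≤ s n) → (∀ n, y n * z n ≡ d n * s n [MOD m n]) →
      φ s * φ d * ((φ y * φ z / (φ d * φ s) - 1) / φ m) ∈ A.Ψ.range := fun y s hs h => by
    refine ⟨fun n => ((y n * z n : ℕ) - (d n * s n : ℕ) : ℤ) / m n, ?_⟩
    have e1 : φ s * φ d * ((φ y * φ z / (φ d * φ s) - 1) / φ m) = (φ y * φ z - φ d * φ s) / φ m := by
      have := hφ0 d hd1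
      have := hφ0 s hs
      field_simp
    rw [e1, eq_div_iff (hφ0 m hm1)]
    simp only [φ, Ult.Ψ, RingHom.comp_apply, ← map_mul, ← map_sub]
    congr 1
    ext n
    change ((((y n * z n : ℕ) - (d n * s n : ℕ) : ℤ) / m n : ℤ) : ℚ) * m n = y n * z n - d n * s n
    exact_mod_cast Int.ediv_mul_cancel (h n).symm.dvd
  have E : φ a ^ k + φ b ^ k = φ c ^ k + φ d ^ k := by
    simp only [φ, ← map_pow, ← map_add]
    congr 1
    ext n
    simp only [Pi.add_apply, Pi.pow_apply]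
    exact_mod_cast e n
  let ρ : ∀ y : ℕ → ℕ, (∀ n, (y n : ℝ) ≤ (d n : ℝ) ^ (1 / (n + 1) : ℝ)) → A.K :=
    fun y hy => ⟨(φ y / φ z) ^ k, pow_mem (div_mem (hK y hy) (hK z hz')) k⟩
  have hρ : ∀ y hy, (∀ n, 1 ≤ y n) → ρ y hy ≠ 0 := fun y hy h1 h =>
    pow_ne_zero k (div_ne_zero (hφ0 y h1) (hφ0 z hz)) (congrArg Subtype.val h)
  have d0 := hφ0 d hd1
  have u0 := hφ0 u hu
  have v0 := hφ0 v hv
  have w0 := hφ0 w hw
  have z0 := hφ0 z hz
  obtain ⟨h1, h2⟩ := hk (α := ![ρ u hu', ρ v hv', -ρ w hw'])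
    (x := ![φ a * φ z / (φ d * φ u), φ b * φ z / (φ d * φ v), φ c * φ z / (φ d * φ w)])
    (fun i => by fin_cases i <;> simp [hρ, hu, hv, hw])
    (by
      simp only [Fin.sum_univ_three, Algebra.smul_def]
      change (φ u / φ z) ^ k * (φ a * φ z / (φ d * φ u)) ^ k +
        (φ v / φ z) ^ k * (φ b * φ z / (φ d * φ v)) ^ k +
        -(φ w / φ z) ^ k * (φ c * φ z / (φ d * φ w)) ^ k = 1
      simp only [div_pow, mul_pow]
      field_simp
      linear_combination E)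
    (Ult.liou' hε hT d0 (hφ0 m hm1) (hφ d) (hφ m)
      (Ult.bd_of_le (.of_forall fun n => by simp [hA]))
      (fun s hs t ht j τ h => ⟨φ z ^ (j + τ), pow_mem (hS z hz') _, pow_ne_zero _ z0, by
        subst hA; exact Ult.cancel hm s hs t ht j τ h⟩)
      (fun i => by
        fin_cases i
        exacts [⟨_, hS u hu', u0, hi a u hu ma⟩, ⟨_, hS v hv', v0, hi b v hv mb⟩,
          ⟨_, hS w hw', w0, hi c w hw mc⟩])
      (fun i => by
        fin_cases i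
        exacts [hx0 a u hu fun n => (ha n).trans (min_le_right _ _),
          hx0 b v hv fun n => (hb n).trans (min_le_right _ _),
          hx0 c w hw fun n => (hc n).trans (min_le_right _ _)])
      fun i => by
        fin_cases i
        exacts [hx a u hu fun n => (ha n).trans (min_le_left _ _),
          hx b v hv fun n => (hb n).trans (min_le_left _ _),
          hx c w hw fun n => (hc n).trans (min_le_left _ _)]) Ult.rat
  have E' : φ u ^ k + φ v ^ k = φ w ^ k + φ z ^ k := by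
    have := congrArg Subtype.val h1
    simp only [Fin.sum_univ_three] at this
    change (φ u / φ z) ^ k + (φ v / φ z) ^ k + -(φ w / φ z) ^ k = 1 at this
    simp only [div_pow] at this
    field_simp at this
    linear_combination this
  have ev : ∀ y y' s s' : ℕ → ℕ, φ y * φ y' = φ s * φ s' → ∀ᶠ n in A.U, y n * y' n = s n * s' n :=
    fun y y' s s' h => by
      simp only [φ, ← map_mul, A.eq_iff] at h
      exact h.mono fun n hn => by simp only [Pi.mul_apply] at hn; exact_mod_cast hn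
  have ev' : ∀ᶠ n in A.U, u n ^ k + v n ^ k = w n ^ k + z n ^ k := by
    simp only [φ, ← map_pow, ← map_add, A.eq_iff] at E'
    exact E'.mono fun n hn => by simp only [Pi.add_apply, Pi.pow_apply] at hn; exact_mod_cast hn
  simp only [Matrix.cons_val_zero, Matrix.cons_val_one, Matrix.cons_val] at h2
  have one : ∀ y s, φ s ≠ 0 → φ y * φ z / (φ d * φ s) = 1 → ∀ᶠ n in A.U, y n * z n = d n * s n :=
    fun y s h0 h => ev _ _ _ _ ((div_eq_one_iff_eq (mul_ne_zero d0 h0)).1 h)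
  have two : ∀ y s y' s', φ s ≠ 0 → φ s' ≠ 0 →
      φ y * φ z / (φ d * φ s) = φ y' * φ z / (φ d * φ s') → ∀ᶠ n in A.U, y n * s' n = y' n * s n :=
    fun y s y' s' h0 h0' h => ev _ _ _ _ (by field_simp at h; linear_combination h)
  rcases h2 with ⟨h, h'⟩ | ⟨h, h'⟩ | ⟨h, h'⟩
  · obtain ⟨n, f, g⟩ := (ev'.and ((one _ _ v0 h).and (two _ _ _ _ w0 u0 h'))).exists
    exact ⟨n, triv hk0 (hu n) (hv n) (hz n) (e n) f (.inl g)⟩
  · obtain ⟨n, f, g⟩ := (ev'.and ((one _ _ w0 h).and (two _ _ _ _ v0 u0 h'))).exists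
    exact ⟨n, triv hk0 (hu n) (hv n) (hz n) (e n) f (.inr (.inl g))⟩
  · obtain ⟨n, f, g⟩ := (ev'.and ((one _ _ u0 h).and (two _ _ _ _ w0 v0 h'))).exists
    exact ⟨n, triv hk0 (hu n) (hv n) (hz n) (e n) f (.inr (.inr g))⟩

theorem bez {a b c d u v w z m : ℕ} (h : Nat.Coprime m (Nat.gcd (Nat.gcd a b) (Nat.gcd c d)))
    (ha : a * z ≡ d * u [MOD m]) (hb : b * z ≡ d * v [MOD m]) (hc : c * z ≡ d * w [MOD m]) :
    ∃ e e' : ℤ, (z : ℤ) = d * e + m * e' := by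
  obtain ⟨s, t, hst⟩ := Nat.isCoprime_iff_coprime.2 h
  obtain ⟨x, hx⟩ := ha.dvd
  obtain ⟨y, hy⟩ := hb.dvd
  obtain ⟨x', hx'⟩ := hc.dvd
  rw [Nat.gcd_eq_gcd_ab, Nat.gcd_eq_gcd_ab a b, Nat.gcd_eq_gcd_ab c d] at hst
  push_cast at hx hy hx'
  generalize Nat.gcdA a b = α at hst
  generalize Nat.gcdB a b = β at hst
  generalize Nat.gcdA c d = γ at hst
  generalize Nat.gcdB c d = δ at hst
  generalize Nat.gcdA (Nat.gcd a b) (Nat.gcd c d) = μ at hst
  generalize Nat.gcdB (Nat.gcd a b) (Nat.gcd c d) = ν at hst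
  exact ⟨t * (μ * (α * u + β * v) + ν * (γ * w + δ * z)),
    s * z - t * (μ * (α * x + β * y) + ν * γ * x'), by
      linear_combination -z * hst - t * μ * α * hx - t * μ * β * hy - t * ν * γ * hx'⟩

theorem near' (ε : ℝ) (hε : 0 < ε) : ∃ k₀ : ℕ, ∀ k ≥ k₀, ∃ δ : ℝ, 0 < δ ∧ ∃ N₀ : ℕ,
    ∀ a b c d u v w z M : ℕ, N₀ ≤ d → 1 ≤ u → 1 ≤ v → 1 ≤ w → 1 ≤ z →
      (u : ℝ) ≤ (d : ℝ) ^ δ → (v : ℝ) ≤ (d : ℝ) ^ δ → (w : ℝ) ≤ (d : ℝ) ^ δ →
      (z : ℝ) ≤ (d : ℝ) ^ δ → 1 ≤ M → Nat.Coprime M (Nat.gcd (Nat.gcd a b) (Nat.gcd c d)) →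
      a * z ≡ d * u [MOD M] → b * z ≡ d * v [MOD M] → c * z ≡ d * w [MOD M] →
      |(a : ℝ) * z - d * u| ≤ min (M * (d : ℝ) ^ (1 - ε)) ((d : ℝ) ^ (1 + δ)) →
      |(b : ℝ) * z - d * v| ≤ min (M * (d : ℝ) ^ (1 - ε)) ((d : ℝ) ^ (1 + δ)) →
      |(c : ℝ) * z - d * w| ≤ min (M * (d : ℝ) ^ (1 - ε)) ((d : ℝ) ^ (1 + δ)) →
      a ^ k + b ^ k = c ^ k + d ^ k →
      (a = c ∧ b = d) ∨ (a = d ∧ b = c) ∨ (a * z = d * u ∧ b * z = d * v ∧ c * z = d * w) := by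
  obtain ⟨T, hT⟩ := exists_nat_ge ε⁻¹
  obtain ⟨k₀, hk₀⟩ := diag T
  refine ⟨k₀ + 1, fun k hk => ?_⟩
  by_contra hc
  push Not at hc
  choose a b c d u v w z m hd hu hv hw hz hu' hv' hw' hz' hm1 hm ma mb mc ha hb hc e hne using
    fun n : ℕ => hc (1 / (n + 1)) Nat.one_div_pos_of_nat (n + 2)
  let U := hyperfilter ℕ
  have hU : (U : Filter ℕ) ≤ atTop := Nat.hyperfilter_le_atTop
  let L := Germ (U : Filter ℕ) ℚ
  let A : Ult L := ⟨U, Germ.coeRingHom _, d, fun f => Germ.coe_eq, Quot.mk_surjective,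
    (tendsto_natCast_atTop_atTop.comp
      (tendsto_atTop_mono (fun n => (Nat.le_add_right n 2).trans (hd n)) tendsto_id)).mono_left hU⟩
  have : CharZero L :=
    (RingHom.charZero_iff (A.Φ.comp (Pi.constRingHom ℕ ℚ)).injective).1 inferInstance
  obtain ⟨n, hn⟩ := aux' A hU hε (T := T) (k := k) (by rwa [inv_le_iff_one_le_mul₀' hε] at hT)
    (by omega) (hk₀ k (by omega)) rfl (fun n => (Nat.le_add_left 1 (n + 1)).trans (hd n))
    hm1 (fun n => bez (hm n) (ma n) (mb n) (mc n)) hu hv hw hz hu' hv' hw' hz' ma mb mc ha hb hc e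
  have := hne n
  tauto

end Pool.Agent.P.MP_2c7719_nt.Win
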