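import Pool.Agent.P.MP_2c7719_nt.Win.Diag

/-! Equal sums of two large powers near rational points of small height. -/

namespace Pool.Agent.P.MP_2c7719_nt.Win

open Filter Asymptotics MvPolynomial

/-- an ultrapower of the rationals with a scale `d` -/
structure Ult (L : Type) [Field L] where
  U : Ultrafilter ℕ
  Φ : (ℕ → ℚ) →+* L
  d : ℕ → ℕ
  ker : ∀ f, Φ f = 0 ↔ ∀ᶠ n in U, f n = 0
  surj : Function.Surjective Φ
  top : Tendsto (fun n => (d n : ℝ)) U atTop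

namespace Ult

variable {L : Type} [Field L] (A : Ult L)

theorem eq_iff (f g : ℕ → ℚ) : A.Φ f = A.Φ g ↔ ∀ᶠ n in A.U, f n = g n := by
  rw [← sub_eq_zero, ← map_sub, A.ker]
  simp only [Pi.sub_apply, sub_eq_zero]

theorem inv (f : ℕ → ℚ) : (A.Φ f)⁻¹ = A.Φ f⁻¹ := by
  by_cases h : A.Φ f = 0
  · rw [h, inv_zero, eq_comm, A.ker]
    exact ((A.ker f).1 h).mono fun n hn => by simp [hn]
  · rw [eq_comm, ← mul_eq_one_iff_eq_inv₀ h, ← map_mul, ← map_one A.Φ, A.eq_iff]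
    rw [A.ker, ← Ultrafilter.eventually_not] at h
    exact h.mono fun n hn => by simp [hn]

/-- `w` is at most `d ^ (s + o(1))` -/
def Bd (s : ℝ) (w : L) : Prop :=
  ∃ f : ℕ → ℚ, A.Φ f = w ∧ ∀ η > 0, (fun n => (f n : ℝ)) =O[A.U] fun n => (A.d n : ℝ) ^ (s + η)

/-- the integer sequences -/
def Ψ : (ℕ → ℤ) →+* L := A.Φ.comp ((Int.castRingHom ℚ).compLeft ℕ)

variable {A}

theorem rpow_le {s t : ℝ} (h : s ≤ t) :
    (fun n => (A.d n : ℝ) ^ s) =O[A.U] fun n => (A.d n : ℝ) ^ t := by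
  refine .of_bound' ((A.top.eventually_ge_atTop 1).mono fun n hn => ?_)
  rw [Real.norm_of_nonneg (by positivity), Real.norm_of_nonneg (by positivity)]
  exact Real.rpow_le_rpow_of_exponent_le hn h

theorem bd_of_le {s : ℝ} {f : ℕ → ℚ} (h : ∀ᶠ n in A.U, |(f n : ℝ)| ≤ (A.d n : ℝ) ^ s) :
    A.Bd s (A.Φ f) :=
  ⟨f, rfl, fun η hη => (IsBigO.of_bound' (h.mono fun n hn => by
    rwa [Real.norm_of_nonneg (r := _ ^ s) (by positivity)])).trans (rpow_le (by linarith))⟩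

theorem Bd.mono {s t : ℝ} {w : L} (h : A.Bd s w) (hst : s ≤ t) : A.Bd t w := by
  obtain ⟨f, rfl, h⟩ := h
  exact ⟨f, rfl, fun η hη => (h η hη).trans (rpow_le (by linarith))⟩

theorem Bd.add {s : ℝ} {w w' : L} (h : A.Bd s w) (h' : A.Bd s w') : A.Bd s (w + w') := by
  obtain ⟨f, rfl, h⟩ := h
  obtain ⟨g, rfl, h'⟩ := h'
  exact ⟨f + g, map_add _ _ _, fun η hη => by simpa using (h η hη).add (h' η hη)⟩

theorem Bd.neg {s : ℝ} {w : L} (h : A.Bd s w) : A.Bd s (-w) := by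
  obtain ⟨f, rfl, h⟩ := h
  exact ⟨-f, map_neg _ _, fun η hη => by simpa using h η hη⟩

theorem Bd.mul {s t : ℝ} {w w' : L} (h : A.Bd s w) (h' : A.Bd t w') : A.Bd (s + t) (w * w') := by
  obtain ⟨f, rfl, h⟩ := h
  obtain ⟨g, rfl, h'⟩ := h'
  refine ⟨f * g, map_mul _ _ _, fun η hη => ?_⟩
  refine ((h (η / 2) (by linarith)).mul (h' (η / 2) (by linarith))).congr' (.of_forall fun n => by simp) ?_
  filter_upwards [A.top.eventually_gt_atTop 0] with n hn
  rw [← Real.rpow_add hn]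
  congr 1
  ring

theorem bd_zero (s : ℝ) : A.Bd s 0 := ⟨0, map_zero _, fun η _ => by simpa using isBigO_zero _ _⟩

theorem bd_one : A.Bd 0 1 := map_one A.Φ ▸ bd_of_le (.of_forall fun n => by simp)

theorem Bd.pow {s : ℝ} {w : L} (h : A.Bd s w) (n : ℕ) : A.Bd (n * s) (w ^ n) := by
  induction n with
  | zero => simpa using bd_one
  | succ n ih => simpa [pow_succ, add_mul] using ih.mul h

theorem eq_zero {s : ℝ} {w : L} (hs : s < 0) (h : A.Bd s w) (hw : w ∈ A.Ψ.range) : w = 0 := by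
  obtain ⟨f, rfl, h⟩ := h
  obtain ⟨z, hz⟩ := hw
  have h1 := ((h (-s / 2) (by linarith)).trans_tendsto (by
    rw [show s + -s / 2 = -(-s / 2) by ring]
    exact (tendsto_rpow_neg_atTop (by linarith)).comp A.top)).eventually
    (Metric.ball_mem_nhds (0 : ℝ) one_pos)
  rw [A.ker]
  filter_upwards [h1, (A.eq_iff _ _).1 hz] with n h1 h2
  rw [← h2] at h1 ⊢
  have : |(z n : ℝ)| < 1 := by simpa using h1
  simpa using Int.abs_lt_one_iff.1 (by exact_mod_cast this)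

variable (A)

/-- the elements of size `d ^ o(1)` -/
def O : ValuationSubring L where
  carrier := {w | A.Bd 0 w}
  mul_mem' := fun h h' => by simpa using Bd.mul h h'
  one_mem' := bd_one
  add_mem' := Bd.add
  zero_mem' := bd_zero 0
  neg_mem' := Bd.neg
  mem_or_inv_mem' := fun w => by
    obtain ⟨f, rfl⟩ := A.surj w
    rw [A.inv]
    refine (A.U.em fun n => |(f n : ℝ)| ≤ 1).imp (fun h => bd_of_le (by simpa using h))
      fun h => bd_of_le (h.mono fun n hn => ?_)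
    simpa [abs_inv] using inv_le_one_of_one_le₀ (not_le.1 hn).le

/-- the small integers -/
def S : Subring L := A.Ψ.range ⊓ A.O.toSubring

/-- the elements of small height -/
def K : Subfield L := Subfield.closure A.S

variable {A}

theorem frac {w : L} (h : w ∈ A.K) : ∃ q ∈ A.S, q ≠ 0 ∧ q * w ∈ A.S := by
  obtain ⟨y, hy, z, hz, rfl⟩ := Subfield.mem_closure_iff.1 h
  rw [Subring.closure_eq] at hy hz
  by_cases h0 : z = 0
  · exact ⟨1, one_mem _, one_ne_zero, by simp [h0]⟩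
  · exact ⟨z, hz, h0, by rwa [mul_div_cancel₀ _ h0]⟩

theorem bd_K {w : L} (h : w ∈ A.K) : A.Bd 0 w := by
  obtain ⟨q, ⟨⟨z, rfl⟩, -⟩, h0, -, h⟩ := frac h
  have : A.Bd 0 (A.Ψ z)⁻¹ := by
    rw [Ψ, RingHom.comp_apply, A.inv]
    refine bd_of_le (.of_forall fun n => ?_)
    by_cases hz : z n = 0
    · simp [hz]
    · have : (1 : ℝ) ≤ |(z n : ℝ)| := by exact_mod_cast Int.one_le_abs hz
      simpa [abs_inv] using inv_le_one_of_one_le₀ this
  simpa [h0] using this.mul h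

theorem rat (w : L) (hw : IsAlgebraic A.K w) : ∃ q : A.K, w = algebraMap A.K L q := by
  have hle : A.S ≤ A.K.toSubring := Subfield.subset_closure
  let _ : Algebra A.S A.K := (Subring.inclusion hle).toAlgebra
  have : IsScalarTower A.S A.K L := IsScalarTower.of_algebraMap_eq fun _ => rfl
  have : Algebra.IsAlgebraic A.S A.K := ⟨fun a => by
    obtain ⟨q, hq, h0, h⟩ := frac a.2
    exact IsAlgebraic.of_smul (y := (⟨q, hq⟩ : A.S))
      (mem_nonZeroDivisors_of_ne_zero fun h => h0 (congrArg Subtype.val h))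
      (isAlgebraic_algebraMap (⟨_, h⟩ : A.S))⟩
  obtain ⟨q, h0, p, hp, h⟩ := (hw.restrictScalars A.S).exists_integral_multiple
  have h1 : q • w ∈ A.O := by
    obtain ⟨y, hy⟩ := IsIntegrallyClosed.isIntegral_iff.1 (show IsIntegral A.O (q • w) from
      ⟨p.map (Subring.inclusion (inf_le_right : A.S ≤ A.O.toSubring)), hp.map _,
        (Polynomial.eval₂_map _ _ _).trans h⟩)
    exact hy ▸ y.2
  have h2 : q • w ∈ A.Ψ.range := by
    obtain ⟨r, hr, -, hm⟩ := Polynomial.lifts_and_natDegree_eq_and_monic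
      ((Polynomial.lifts_iff_coeff_lifts (f := A.Ψ) _).2 fun n => by
        rw [Polynomial.coeff_map]; exact (p.coeff n).2.1) (hp.map (algebraMap A.S L))
    obtain ⟨f, hf⟩ := A.surj (q • w)
    rw [Polynomial.eval₂_eq_eval_map, ← hr, ← Polynomial.eval₂_eq_eval_map, ← hf, Ψ,
      ← Polynomial.hom_eval₂, A.ker] at h
    refine ⟨fun n => (f n).num, ?_⟩
    rw [← hf, Ψ, RingHom.comp_apply, A.eq_iff]
    filter_upwards [h] with n hn
    obtain ⟨z, hz⟩ := IsIntegrallyClosed.isIntegral_iff.1 (show IsIntegral ℤ (f n) from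
      ⟨r.map (Pi.evalRingHom _ n), hm.map _, by
        have := Polynomial.hom_eval₂ r ((Int.castRingHom ℚ).compLeft ℕ) (Pi.evalRingHom _ n) f
        rw [Polynomial.eval₂_map, ← hn]
        exact this.symm⟩)
    simp [← hz]
  have hq0 : (q : L) ≠ 0 := fun h => h0 (Subtype.ext h)
  exact ⟨⟨(q : L)⁻¹ * q • w, mul_mem (inv_mem (hle q.2)) (hle ⟨h2, h1⟩)⟩, by
    change w = (q : L)⁻¹ * (q * w); rw [inv_mul_cancel_left₀ hq0]⟩

theorem liou {ε : ℝ} (hε : 0 < ε) {T : ℕ} (hT : 1 ≤ ε * T) {x : Fin 3 → L} {D : L} (hD0 : D ≠ 0)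
    (hD : D ∈ A.Ψ.range) (hD1 : A.Bd 1 D) (hi : ∀ i, ∃ q ∈ A.S, q ≠ 0 ∧ q * D * x i ∈ A.Ψ.range)
    (hx : ∀ i, A.Bd (-ε) (x i - 1)) : Liou A.K T x := by
  let I : ℕ → R3 A.K → Prop := fun n F => ∃ q ∈ A.S, q ≠ 0 ∧ q * D ^ n * aeval x F ∈ A.Ψ.range
  have Iadd : ∀ {n F G}, I n F → I n G → I n (F + G) := by
    rintro n F G ⟨q, hq, h0, h⟩ ⟨q', hq', h0', h'⟩
    refine ⟨q * q', mul_mem hq hq', mul_ne_zero h0 h0', ?_⟩
    rw [map_add, show ∀ a b, q * q' * D ^ n * (a + b) = q' * (q * D ^ n * a) + q * (q' * D ^ n * b)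
      from fun a b => by ring]
    exact add_mem (mul_mem hq'.1 h) (mul_mem hq.1 h')
  have Imul : ∀ {m n F G}, I m F → I n G → I (m + n) (F * G) := by
    rintro m n F G ⟨q, hq, h0, h⟩ ⟨q', hq', h0', h'⟩
    refine ⟨q * q', mul_mem hq hq', mul_ne_zero h0 h0', ?_⟩
    rw [map_mul, show ∀ a b, q * q' * D ^ (m + n) * (a * b) = q * D ^ m * a * (q' * D ^ n * b)
      from fun a b => by ring]
    exact mul_mem h h'
  have Ic : ∀ c : A.K, I 0 (algebraMap _ _ c) := fun c => by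
    obtain ⟨q, hq, h0, h⟩ := frac c.2
    exact ⟨q, hq, h0, by rw [AlgHom.commutes, pow_zero, mul_one]; exact h.1⟩
  have I1 : ∀ F ∈ W A.K (X : Fin 3 → R3 A.K), I 1 F := fun F hF => by
    refine Submodule.span_induction (p := fun F _ => I 1 F) ?_
      ⟨1, one_mem _, one_ne_zero, by simp⟩ (fun _ _ _ _ => Iadd)
      (fun c F _ hF => by rw [Algebra.smul_def]; exact Imul (Ic c) hF) hF
    rintro _ (rfl | ⟨i, rfl⟩)
    · exact ⟨1, one_mem _, one_ne_zero, by simpa using hD⟩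
    · simpa [I] using hi i
  have In : ∀ n, ∀ F ∈ W A.K (X : Fin 3 → R3 A.K) ^ n, I n F := fun n => by
    induction n with
    | zero =>
      intro F hF
      obtain ⟨c, rfl⟩ := Submodule.mem_one.1 (pow_zero (W A.K (X : Fin 3 → R3 A.K)) ▸ hF)
      exact Ic c
    | succ n ih =>
      intro F hF
      rw [pow_succ] at hF
      exact Submodule.mul_induction_on hF (fun a ha b hb => Imul (ih a ha) (I1 b hb))
        fun _ _ => Iadd
  have h0 : ∀ G : R3 A.K, A.Bd 0 (aeval x G) := fun G => by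
    induction G using MvPolynomial.induction_on with
    | C a => rw [aeval_C]; exact bd_K a.2
    | add p q hp hq => rw [map_add]; exact hp.add hq
    | mul_X p i hp => simpa using hp.mul (((hx i).mono (by linarith)).add bd_one)
  have h1 : ∀ M ∈ mm A.K, A.Bd (-ε) (aeval x M) := fun M hM => by
    refine Submodule.span_induction (p := fun M _ => A.Bd (-ε) (aeval x M)) ?_
      (by simpa using bd_zero _) (fun _ _ _ _ ha hb => by simpa using ha.add hb)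
      (fun G M _ hM => by simpa using (h0 G).mul hM) hM
    rintro _ ⟨i, rfl⟩
    simpa using hx i
  have h2 : ∀ τ : ℕ, ∀ M ∈ mm A.K ^ τ, A.Bd (τ * -ε) (aeval x M) := fun τ => by
    induction τ with
    | zero => exact fun M _ => by simpa using h0 M
    | succ τ ih =>
      intro M hM
      rw [pow_succ] at hM
      exact Submodule.mul_induction_on hM
        (fun a ha b hb => by simpa [add_mul, add_comm] using (ih a ha).mul (h1 b hb))
        fun _ _ ha hb => by simpa using ha.add hb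
  intro m τ hτ F hF M hM e
  obtain ⟨q, hq, hq0, h⟩ := In m F hF
  have h3 : 0 + m * 1 + τ * -ε < 0 := by
    have : (T : ℝ) * m + 1 ≤ τ := by exact_mod_cast hτ
    nlinarith [mul_le_mul_of_nonneg_left this hε.le,
      mul_le_mul_of_nonneg_right hT (Nat.cast_nonneg (α := ℝ) m)]
  have := eq_zero h3 (e ▸ (Bd.mul hq.2 (hD1.pow m)).mul (h2 τ M hM)) h
  exact (mul_eq_zero.1 this).resolve_left (mul_ne_zero hq0 (pow_ne_zero _ hD0))

end Ult

theorem triv {k a b c d u v w z : ℕ} (hk : k ≠ 0) (hu : 1 ≤ u) (hv : 1 ≤ v) (hz : 1 ≤ z)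
    (e : a ^ k + b ^ k = c ^ k + d ^ k) (e' : u ^ k + v ^ k = w ^ k + z ^ k)
    (h : (b * z = d * v ∧ c * u = a * w) ∨ (c * z = d * w ∧ b * u = a * v) ∨
      (a * z = d * u ∧ c * v = b * w)) :
    (a = c ∧ b = d) ∨ (a = d ∧ b = c) ∨ (a * z = d * u ∧ b * z = d * v ∧ c * z = d * w) := by
  have inj : ∀ {s t : ℕ}, (s : ℤ) ^ k - t ^ k = 0 → s = t := fun h =>
    Nat.pow_left_injective hk (by exact_mod_cast sub_eq_zero.1 h)
  have hp : ∀ {s t s' t' : ℕ}, s * t = s' * t' → (s : ℤ) ^ k * t ^ k = s' ^ k * t' ^ k := fun h => by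
    rw [← mul_pow, ← mul_pow]; exact_mod_cast congrArg (· ^ k) h
  have can : ∀ {s t m : ℕ}, 1 ≤ m → s * m = t * m → s = t := fun h => Nat.eq_of_mul_eq_mul_right h
  zify at e e'
  rcases h with ⟨h, h'⟩ | ⟨h, h'⟩ | ⟨h, h'⟩
  · have : ((u : ℤ) ^ k - w ^ k) * ((a * z : ℕ) ^ k - (d * u : ℕ) ^ k) = 0 := by
      push_cast
      simp only [mul_pow]
      linear_combination u ^ k * z ^ k * e - u ^ k * hp h + z ^ k * hp h' - d ^ k * u ^ k * e'
    rcases mul_eq_zero.1 this with g | g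
    · obtain rfl := inj g
      obtain rfl : v = z := inj (by linear_combination e')
      exact .inl ⟨(can hu h').symm, can hv h⟩
    · have g := inj g
      exact .inr (.inr ⟨g, h, can hu (by linear_combination z * h' + w * g)⟩)
  · have : ((u : ℤ) ^ k + v ^ k) * ((a * z : ℕ) ^ k - (d * u : ℕ) ^ k) = 0 := by
      push_cast
      simp only [mul_pow]
      linear_combination u ^ k * z ^ k * e + u ^ k * hp h - z ^ k * hp h' - d ^ k * u ^ k * e'
    have g := inj ((mul_eq_zero.1 this).resolve_left (by positivity))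
    exact .inr (.inr ⟨g, can hu (by linear_combination z * h' + v * g), h⟩)
  · have : ((v : ℤ) ^ k - w ^ k) * ((b * z : ℕ) ^ k - (d * v : ℕ) ^ k) = 0 := by
      push_cast
      simp only [mul_pow]
      linear_combination v ^ k * z ^ k * e - v ^ k * hp h + z ^ k * hp h' - d ^ k * v ^ k * e'
    rcases mul_eq_zero.1 this with g | g
    · obtain rfl := inj g
      obtain rfl : u = z := inj (by linear_combination e')
      exact .inr (.inl ⟨can hu h, (can hv h').symm⟩)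
    · have g := inj g
      exact .inr (.inr ⟨h, g, can hv (by linear_combination z * h' + w * g)⟩)

theorem aux {L : Type} [Field L] [CharZero L] (A : Ult L) (hU : (A.U : Filter ℕ) ≤ atTop)
    {ε : ℝ} (hε : 0 < ε) {T k : ℕ} (hT : 1 ≤ ε * T) (hk0 : k ≠ 0)
    (hk : ∀ {x : Fin 3 → L} {α : Fin 3 → A.K}, (∀ i, α i ≠ 0) → ∑ i, α i • x i ^ k = 1 →
      Liou A.K T x → (∀ w : L, IsAlgebraic A.K w → ∃ q : A.K, w = algebraMap A.K L q) →
      ∑ i, α i = 1 ∧ ((x 1 = 1 ∧ x 2 = x 0) ∨ (x 2 = 1 ∧ x 1 = x 0) ∨ (x 0 = 1 ∧ x 2 = x 1)))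
    {a b c d u v w z : ℕ → ℕ} (hA : A.d = d) (hd1 : ∀ n, 1 ≤ d n) (hu : ∀ n, 1 ≤ u n)
    (hv : ∀ n, 1 ≤ v n) (hw : ∀ n, 1 ≤ w n) (hz : ∀ n, 1 ≤ z n)
    (hu' : ∀ n, (u n : ℝ) ≤ (d n : ℝ) ^ (1 / (n + 1) : ℝ))
    (hv' : ∀ n, (v n : ℝ) ≤ (d n : ℝ) ^ (1 / (n + 1) : ℝ))
    (hw' : ∀ n, (w n : ℝ) ≤ (d n : ℝ) ^ (1 / (n + 1) : ℝ))
    (hz' : ∀ n, (z n : ℝ) ≤ (d n : ℝ) ^ (1 / (n + 1) : ℝ))
    (ha : ∀ n, |(a n : ℝ) * z n - d n * u n| ≤ (d n : ℝ) ^ (1 - ε))
    (hb : ∀ n, |(b n : ℝ) * z n - d n * v n| ≤ (d n : ℝ) ^ (1 - ε))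
    (hc : ∀ n, |(c n : ℝ) * z n - d n * w n| ≤ (d n : ℝ) ^ (1 - ε))
    (e : ∀ n, a n ^ k + b n ^ k = c n ^ k + d n ^ k) : ∃ n, (a n = c n ∧ b n = d n) ∨
      (a n = d n ∧ b n = c n) ∨
      (a n * z n = d n * u n ∧ b n * z n = d n * v n ∧ c n * z n = d n * w n) := by
  let φ : (ℕ → ℕ) → L := fun y => A.Φ fun n => y n
  have hφ : ∀ y, φ y ∈ A.Ψ.range := fun y => ⟨fun n => y n, rfl⟩
  have hφ0 : ∀ y : ℕ → ℕ, (∀ n, 1 ≤ y n) → φ y ≠ 0 := fun y hy h => by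
    obtain ⟨n, hn⟩ := ((A.ker _).1 h).exists
    have := hy n
    simp only [Nat.cast_eq_zero] at hn
    omega
  have hS : ∀ y : ℕ → ℕ, (∀ n, (y n : ℝ) ≤ (d n : ℝ) ^ (1 / (n + 1) : ℝ)) → φ y ∈ A.S :=
    fun y hy => ⟨hφ y, _, rfl, fun η hη => .of_bound' <| by
      filter_upwards [hU (tendsto_one_div_add_atTop_nhds_zero_nat.eventually
        (eventually_le_nhds hη))] with n hn
      rw [Real.norm_of_nonneg (by positivity), Real.norm_of_nonneg (by positivity), zero_add,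
        Rat.cast_natCast, hA]
      exact (hy n).trans (Real.rpow_le_rpow_of_exponent_le (by exact_mod_cast hd1 n) hn)⟩
  have hK : ∀ y : ℕ → ℕ, (∀ n, (y n : ℝ) ≤ (d n : ℝ) ^ (1 / (n + 1) : ℝ)) → φ y ∈ A.K :=
    fun y hy => Subfield.subset_closure (hS y hy)
  have hx : ∀ y s : ℕ → ℕ, (∀ n, 1 ≤ s n) →
      (∀ n, |(y n : ℝ) * z n - d n * s n| ≤ (d n : ℝ) ^ (1 - ε)) →
      A.Bd (-ε) (φ y * φ z / (φ d * φ s) - 1) := fun y s hs h => by
    rw [div_eq_mul_inv, ← map_mul, ← map_mul, A.inv, ← map_mul, ← map_one A.Φ, ← map_sub]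
    refine Ult.bd_of_le (.of_forall fun n => ?_)
    have h1 : (1 : ℝ) ≤ d n := by exact_mod_cast hd1 n
    have h2 : (1 : ℝ) ≤ s n := by exact_mod_cast hs n
    have h3 : (0 : ℝ) < d n * s n := by positivity
    simp only [Pi.sub_apply, Pi.mul_apply, Pi.inv_apply, Pi.one_apply, hA]
    push_cast
    rw [← div_eq_mul_inv, div_sub_one h3.ne', abs_div, abs_of_pos h3, div_le_iff₀ h3]
    refine (h n).trans ?_
    rw [sub_eq_neg_add, Real.rpow_add_one (by positivity)]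
    exact mul_le_mul_of_nonneg_left (le_mul_of_one_le_right (by positivity) h2) (by positivity)
  have hi : ∀ y s : ℕ → ℕ, (∀ n, 1 ≤ s n) →
      φ s * φ d * (φ y * φ z / (φ d * φ s)) ∈ A.Ψ.range := fun y s hs => by
    rw [mul_comm (φ s), mul_div_cancel₀ _ (mul_ne_zero (hφ0 d hd1) (hφ0 s hs))]
    exact mul_mem (hφ y) (hφ z)
  have E : φ a ^ k + φ b ^ k = φ c ^ k + φ d ^ k := by
    simp only [φ, ← map_pow, ← map_add]
    congr 1
    ext n
    simp only [Pi.add_apply, Pi.pow_apply]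
    exact_mod_cast e n
  let ρ : ∀ y : ℕ → ℕ, (∀ n, (y n : ℝ) ≤ (d n : ℝ) ^ (1 / (n + 1) : ℝ)) → A.K :=
    fun y hy => ⟨(φ y / φ z) ^ k, pow_mem (div_mem (hK y hy) (hK z hz')) k⟩
  have hρ : ∀ y hy, (∀ n, 1 ≤ y n) → ρ y hy ≠ 0 := fun y hy h1 h =>
    pow_ne_zero k (div_ne_zero (hφ0 y h1) (hφ0 z hz)) (congrArg Subtype.val h)
  have d0 := hφ0 d hd1
  have u0 := hφ0 u hu
  have v0 := hφ0 v hv
  have w0 := hφ0 w hw
  have z0 := hφ0 z hz
  obtain ⟨h1, h2⟩ := hk (α := ![ρ u hu', ρ v hv', -ρ w hw'])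
    (x := ![φ a * φ z / (φ d * φ u), φ b * φ z / (φ d * φ v), φ c * φ z / (φ d * φ w)])
    (fun i => by fin_cases i <;> simp [hρ, hu, hv, hw])
    (by
      simp only [Fin.sum_univ_three, Algebra.smul_def]
      change (φ u / φ z) ^ k * (φ a * φ z / (φ d * φ u)) ^ k +
        (φ v / φ z) ^ k * (φ b * φ z / (φ d * φ v)) ^ k +
        -(φ w / φ z) ^ k * (φ c * φ z / (φ d * φ w)) ^ k = 1
      simp only [div_pow, mul_pow]
      field_simp
      linear_combination E)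
    (Ult.liou hε hT d0 (hφ d)
      (Ult.bd_of_le (.of_forall fun n => by simp [hA]))
      (fun i => by
        fin_cases i
        exacts [⟨_, hS u hu', u0, hi a u hu⟩, ⟨_, hS v hv', v0, hi b v hv⟩,
          ⟨_, hS w hw', w0, hi c w hw⟩])
      fun i => by
        fin_cases i
        exacts [hx a u hu ha, hx b v hv hb, hx c w hw hc]) Ult.rat
  have E' : φ u ^ k + φ v ^ k = φ w ^ k + φ z ^ k := by
    have := congrArg Subtype.val h1
    simp only [Fin.sum_univ_three] at this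
    change (φ u / φ z) ^ k + (φ v / φ z) ^ k + -(φ w / φ z) ^ k = 1 at this
    simp only [div_pow] at this
    field_simp at this
    linear_combination this
  have ev : ∀ y y' s s' : ℕ → ℕ, φ y * φ y' = φ s * φ s' → ∀ᶠ n in A.U, y n * y' n = s n * s' n :=
    fun y y' s s' h => by
      simp only [φ, ← map_mul, A.eq_iff] at h
      exact h.mono fun n hn => by simp only [Pi.mul_apply] at hn; exact_mod_cast hn
  have ev' : ∀ᶠ n in A.U, u n ^ k + v n ^ k = w n ^ k + z n ^ k := by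
    simp only [φ, ← map_pow, ← map_add, A.eq_iff] at E'
    exact E'.mono fun n hn => by simp only [Pi.add_apply, Pi.pow_apply] at hn; exact_mod_cast hn
  simp only [Matrix.cons_val_zero, Matrix.cons_val_one, Matrix.cons_val] at h2
  have one : ∀ y s, φ s ≠ 0 → φ y * φ z / (φ d * φ s) = 1 → ∀ᶠ n in A.U, y n * z n = d n * s n :=
    fun y s h0 h => ev _ _ _ _ ((div_eq_one_iff_eq (mul_ne_zero d0 h0)).1 h)
  have two : ∀ y s y' s', φ s ≠ 0 → φ s' ≠ 0 →
      φ y * φ z / (φ d * φ s) = φ y' * φ z / (φ d * φ s') → ∀ᶠ n in A.U, y n * s' n = y' n * s n :=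
    fun y s y' s' h0 h0' h => ev _ _ _ _ (by field_simp at h; linear_combination h)
  rcases h2 with ⟨h, h'⟩ | ⟨h, h'⟩ | ⟨h, h'⟩
  · obtain ⟨n, f, g⟩ := (ev'.and ((one _ _ v0 h).and (two _ _ _ _ w0 u0 h'))).exists
    exact ⟨n, triv hk0 (hu n) (hv n) (hz n) (e n) f (.inl g)⟩
  · obtain ⟨n, f, g⟩ := (ev'.and ((one _ _ w0 h).and (two _ _ _ _ v0 u0 h'))).exists
    exact ⟨n, triv hk0 (hu n) (hv n) (hz n) (e n) f (.inr (.inl g))⟩
  · obtain ⟨n, f, g⟩ := (ev'.and ((one _ _ u0 h).and (two _ _ _ _ w0 v0 h'))).exists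
    exact ⟨n, triv hk0 (hu n) (hv n) (hz n) (e n) f (.inr (.inr g))⟩

theorem near (ε : ℝ) (hε : 0 < ε) : ∃ k₀ : ℕ, ∀ k ≥ k₀, ∃ δ : ℝ, 0 < δ ∧ ∃ N₀ : ℕ,
    ∀ a b c d u v w z : ℕ, N₀ ≤ d → 1 ≤ u → 1 ≤ v → 1 ≤ w → 1 ≤ z →
      (u : ℝ) ≤ (d : ℝ) ^ δ → (v : ℝ) ≤ (d : ℝ) ^ δ → (w : ℝ) ≤ (d : ℝ) ^ δ →
      (z : ℝ) ≤ (d : ℝ) ^ δ → |(a : ℝ) * z - d * u| ≤ (d : ℝ) ^ (1 - ε) →
      |(b : ℝ) * z - d * v| ≤ (d : ℝ) ^ (1 - ε) → |(c : ℝ) * z - d * w| ≤ (d : ℝ) ^ (1 - ε) →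
      a ^ k + b ^ k = c ^ k + d ^ k →
      (a = c ∧ b = d) ∨ (a = d ∧ b = c) ∨ (a * z = d * u ∧ b * z = d * v ∧ c * z = d * w) := by
  obtain ⟨T, hT⟩ := exists_nat_ge ε⁻¹
  obtain ⟨k₀, hk₀⟩ := diag T
  refine ⟨k₀ + 1, fun k hk => ?_⟩
  by_contra hc
  push Not at hc
  choose a b c d u v w z hd hu hv hw hz hu' hv' hw' hz' ha hb hc e hne using
    fun n : ℕ => hc (1 / (n + 1)) Nat.one_div_pos_of_nat (n + 1)
  let U := hyperfilter ℕ
  have hU : (U : Filter ℕ) ≤ atTop := Nat.hyperfilter_le_atTop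
  let L := Germ (U : Filter ℕ) ℚ
  let A : Ult L := ⟨U, Germ.coeRingHom _, d, fun f => Germ.coe_eq, Quot.mk_surjective,
    (tendsto_natCast_atTop_atTop.comp
      (tendsto_atTop_mono (fun n => (Nat.le_succ n).trans (hd n)) tendsto_id)).mono_left hU⟩
  have : CharZero L :=
    (RingHom.charZero_iff (A.Φ.comp (Pi.constRingHom ℕ ℚ)).injective).1 inferInstance
  obtain ⟨n, hn⟩ := aux A hU hε (T := T) (k := k) (by rwa [inv_le_iff_one_le_mul₀' hε] at hT)
    (by omega) (hk₀ k (by omega)) rfl (fun n => (Nat.le_add_left 1 n).trans (hd n)) hu hv hw hz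
    hu' hv' hw' hz' ha hb hc e
  have := hne n
  tauto

end Pool.Agent.P.MP_2c7719_nt.Win
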