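import Mathlib

/-! A zero estimate for sums of products of three binomial series. -/

namespace Pool.Agent.P.MP_2c7719_nt.Win

open PowerSeries

set_option linter.unusedSectionVars false

noncomputable section

variable {K : Type} [Field K] [CharZero K]

/-- the series `(1 + l X) ^ r` -/
def bs (l r : K) : K⟦X⟧ := rescale l (binomialSeries K r)

theorem bs_add (l r s : K) : bs l (r + s) = bs l r * bs l s := by
  simp [bs, binomialSeries_add]

theorem bs_zero (l : K) : bs l 0 = 1 := by simp [bs]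

theorem bs_one (l : K) : bs l 1 = 1 + C l * X := by
  have := binomialSeries_nat (R := K) (A := K) 1
  rw [Nat.cast_one, pow_one] at this
  rw [bs, this, map_add, map_one, rescale_X]

theorem bs_pow (l r : K) (n : ℕ) : bs l r ^ n = bs l (n * r) := by
  induction n with
  | zero => simp [bs_zero]
  | succ n ih => rw [pow_succ, ih, ← bs_add]; congr 1; push_cast; ring

theorem bs_const (l r : K) : constantCoeff (bs l r) = 1 := by
  rw [← coeff_zero_eq_constantCoeff_apply, bs, coeff_rescale, binomialSeries_coeff]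
  simp

theorem bs_der (l r : K) : d⁄dX K (bs l r) = C (r * l) * bs l (r - 1) := by
  ext n
  have := Ring.choose_smul_choose r (n := n + 1) (k := 1) (by omega)
  simp only [Nat.choose_one_right, Ring.choose_one_right, Nat.cast_one, Nat.add_sub_cancel,
    nsmul_eq_mul, Nat.cast_add] at this
  simp only [coeff_derivative, bs, coeff_rescale, binomialSeries_coeff, coeff_C_mul, smul_eq_mul,
    mul_one]
  linear_combination l ^ (n + 1) * this

/-- the product of three binomial series -/
def ph (l r : Fin 3 → K) : K⟦X⟧ := bs (l 0) (r 0) * bs (l 1) (r 1) * bs (l 2) (r 2)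

theorem ph_add (l r s : Fin 3 → K) : ph l (r + s) = ph l r * ph l s := by
  simp only [ph, Pi.add_apply, bs_add]; ring

theorem ph_zero (l : Fin 3 → K) : ph l 0 = 1 := by simp [ph, bs_zero]

/-- the linear polynomial `1 + l X` -/
def lin (l : K) : Polynomial K := 1 + Polynomial.C l * Polynomial.X

/-- the effect of the derivative on the polynomial coefficient -/
def op (l r : Fin 3 → K) (P : Polynomial K) : Polynomial K :=
  lin (l 0) * lin (l 1) * lin (l 2) * Polynomial.derivative P +
    (Polynomial.C (r 0 * l 0) * (lin (l 1) * lin (l 2)) +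
      Polynomial.C (r 1 * l 1) * (lin (l 0) * lin (l 2)) +
      Polynomial.C (r 2 * l 2) * (lin (l 0) * lin (l 1))) * P

theorem bs_succ (l r : K) : bs l r = (lin l : K⟦X⟧) * bs l (r - 1) := by
  have : (lin l : K⟦X⟧) = bs l 1 := by simp [lin, bs_one]
  rw [this, ← bs_add]; congr 1; ring

theorem der_ph (l r : Fin 3 → K) (P : Polynomial K) :
    d⁄dX K ((P : K⟦X⟧) * ph l r) = (op l r P : K⟦X⟧) * ph l (r - 1) := by
  simp only [ph, Derivation.leibniz, bs_der, smul_eq_mul, derivative_coe, op, Pi.sub_apply,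
    Pi.one_apply, Polynomial.coe_add, Polynomial.coe_mul, Polynomial.coe_C]
  rw [bs_succ (l 0) (r 0), bs_succ (l 1) (r 1), bs_succ (l 2) (r 2)]
  ring

theorem lin_deg (l : K) : (lin l).natDegree ≤ 1 := by
  unfold lin; compute_degree

theorem op_deg (l r : Fin 3 → K) (P : Polynomial K) :
    (op l r P).natDegree ≤ P.natDegree + 3 := by
  have h0 := lin_deg (l 0)
  have h1 := lin_deg (l 1)
  have h2 := lin_deg (l 2)
  have h3 := Polynomial.natDegree_derivative_le P
  have hc : ∀ (c : K) (A B : Polynomial K), A.natDegree ≤ 1 → B.natDegree ≤ 1 →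
      (Polynomial.C c * (A * B)).natDegree ≤ 2 := fun c A B hA hB =>
    (Polynomial.natDegree_C_mul_le _ _).trans (Polynomial.natDegree_mul_le_of_le hA hB)
  refine Polynomial.natDegree_add_le_of_degree_le ?_ ?_
  · exact (Polynomial.natDegree_mul_le_of_le (Polynomial.natDegree_mul_le_of_le
      (Polynomial.natDegree_mul_le_of_le h0 h1) h2) h3).trans (by omega)
  · exact (Polynomial.natDegree_mul_le_of_le (Polynomial.natDegree_add_le_of_degree_le
      (Polynomial.natDegree_add_le_of_degree_le (hc _ _ _ h1 h2) (hc _ _ _ h0 h2))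
      (hc _ _ _ h0 h1)) le_rfl).trans (by omega)

theorem int_of_ode {l r : K} (hl : l ≠ 0) {Q S P : Polynomial K} (hQ : Q.eval (-l⁻¹) ≠ 0)
    (hP : P ≠ 0)
    (h : lin l * Q * Polynomial.derivative P + (Polynomial.C (r * l) * Q + lin l * S) * P = 0) :
    ∃ z : ℤ, r = z := by
  obtain ⟨G, hG, hn⟩ := Polynomial.exists_eq_pow_rootMultiplicity_mul_and_not_dvd P hP (-l⁻¹)
  set e := Polynomial.rootMultiplicity (-l⁻¹) P
  set Y : Polynomial K := Polynomial.X - Polynomial.C (-l⁻¹) with hY
  have hlin : lin l = Polynomial.C l * Y := by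
    rw [hY, mul_sub, ← Polynomial.C_mul, mul_neg, mul_inv_cancel₀ hl, lin]; simp [add_comm]
  have hd : Y * Polynomial.derivative (Y ^ e) = Polynomial.C (e : K) * Y ^ e := by
    rw [Polynomial.derivative_pow]
    have : Polynomial.derivative Y = 1 := by simp [hY]
    rw [this]
    rcases e with _ | e
    · simp
    · simp only [Nat.add_sub_cancel]; ring
  have key : Y ^ e * (Polynomial.C l * Q * (Polynomial.C (e : K) * G + Y * Polynomial.derivative G)
      + (Polynomial.C (r * l) * Q + Polynomial.C l * Y * S) * G) = 0 := by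
    rw [hG, hlin, Polynomial.derivative_mul] at h
    linear_combination h - Polynomial.C l * Q * G * hd
  have h2 := (mul_eq_zero.1 key).resolve_left (pow_ne_zero _ (Polynomial.X_sub_C_ne_zero _))
  have h3 := congrArg (Polynomial.eval (-l⁻¹)) h2
  have hY0 : Y.eval (-l⁻¹) = 0 := by simp [hY]
  simp only [Polynomial.eval_add, Polynomial.eval_mul, Polynomial.eval_C, hY0,
    Polynomial.eval_zero] at h3
  have hG0 : G.eval (-l⁻¹) ≠ 0 := fun h => hn (Polynomial.dvd_iff_isRoot.2 h)
  refine ⟨-e, ?_⟩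
  have : l * Q.eval (-l⁻¹) * G.eval (-l⁻¹) * (r + e) = 0 := by linear_combination h3
  have := (mul_eq_zero.1 this).resolve_left (mul_ne_zero (mul_ne_zero hl hQ) hG0)
  push_cast
  linear_combination this

/-- all three entries are integers -/
def Int3 (r : Fin 3 → K) : Prop := ∀ i, ∃ z : ℤ, r i = z

theorem lin_ne {l m : K} (hl : l ≠ 0) (h : l ≠ m) : (lin m).eval (-l⁻¹) ≠ 0 := by
  simp only [lin, Polynomial.eval_add, Polynomial.eval_one, Polynomial.eval_mul, Polynomial.eval_C,
    Polynomial.eval_X]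
  intro h0
  field_simp at h0
  exact h (by linear_combination h0)

theorem op_inj {l r : Fin 3 → K} (hl : Function.Injective l) (h0 : ∀ i, l i ≠ 0)
    {P : Polynomial K} (hP : P ≠ 0) (h : op l r P = 0) : Int3 r := by
  have hne : ∀ i j k : Fin 3, i ≠ j → i ≠ k → (lin (l j) * lin (l k)).eval (-(l i)⁻¹) ≠ 0 :=
    fun i j k h1 h2 => by
      rw [Polynomial.eval_mul]
      exact mul_ne_zero (lin_ne (h0 i) (hl.ne h1)) (lin_ne (h0 i) (hl.ne h2))
  unfold op at h
  intro i
  fin_cases i
  · exact int_of_ode (r := r 0) (h0 0) (hne 0 1 2 (by decide) (by decide)) hP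
      (S := Polynomial.C (r 1 * l 1) * lin (l 2) + Polynomial.C (r 2 * l 2) * lin (l 1))
      (by linear_combination h)
  · exact int_of_ode (r := r 1) (h0 1) (hne 1 0 2 (by decide) (by decide)) hP
      (S := Polynomial.C (r 0 * l 0) * lin (l 2) + Polynomial.C (r 2 * l 2) * lin (l 0))
      (by linear_combination h)
  · exact int_of_ode (r := r 2) (h0 2) (hne 2 0 1 (by decide) (by decide)) hP
      (S := Polynomial.C (r 0 * l 0) * lin (l 1) + Polynomial.C (r 1 * l 1) * lin (l 0))
      (by linear_combination h)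

theorem dvd_der {f : K⟦X⟧} {n : ℕ} (h : X ^ (n + 1) ∣ f) : X ^ n ∣ d⁄dX K f := by
  rw [X_pow_dvd_iff] at h ⊢
  intro m hm
  rw [coeff_derivative, h (m + 1) (by omega), zero_mul]

theorem iter {l : Fin 3 → K} (hl : Function.Injective l) (h0 : ∀ i, l i ≠ 0) {ι : Type}
    (S : Finset ι) (r : ι → Fin 3 → K) (hr : ∀ s ∈ S, ¬ Int3 (r s)) (P₀ : Polynomial K)
    (P : ι → Polynomial K) (j : ℕ) : ∀ Z : ℕ,
    X ^ (Z + j) ∣ (P₀ : K⟦X⟧) + ∑ s ∈ S, (P s : K⟦X⟧) * ph l (r s) →
    ∃ P' : ι → Polynomial K, (∀ s ∈ S, (P' s).natDegree ≤ (P s).natDegree + 3 * j ∧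
      (P' s = 0 → P s = 0)) ∧ X ^ Z ∣ ((Polynomial.derivative^[j] P₀ : Polynomial K) : K⟦X⟧) +
        ∑ s ∈ S, (P' s : K⟦X⟧) * ph l (r s - j) := by
  induction j with
  | zero => exact fun Z h => ⟨P, fun s _ => ⟨le_rfl, id⟩, by simpa using h⟩
  | succ j ih =>
    intro Z h
    obtain ⟨P', h1, h2⟩ := ih (Z + 1) (by rwa [add_assoc, add_comm 1 j])
    refine ⟨fun s => op l (r s - j) (P' s), fun s hs => ⟨?_, fun h => (h1 s hs).2 ?_⟩, ?_⟩
    · have := op_deg l (r s - j) (P' s)
      have := (h1 s hs).1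
      dsimp only
      omega
    · by_contra hP
      refine hr s hs fun i => ?_
      obtain ⟨z, hz⟩ := op_inj hl h0 hP h i
      exact ⟨z + j, by simp only [Pi.sub_apply, Pi.natCast_apply] at hz; push_cast; linear_combination hz⟩
    · have := dvd_der h2
      rw [map_add, map_sum, derivative_coe] at this
      simp only [der_ph] at this
      rw [Function.iterate_succ_apply']
      simpa only [Nat.cast_succ, sub_sub] using this

/-- the zero estimate; the bound depends only on the number of terms and the degrees -/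
theorem zero_est (n : ℕ) : ∀ D : ℕ, ∃ Z : ℕ, ∀ {K : Type} [Field K] [CharZero K]
    (l : Fin 3 → K), Function.Injective l →
    (∀ i, l i ≠ 0) → ∀ {ι : Type} (S : Finset ι) (r : ι → Fin 3 → K) (P : ι → Polynomial K),
    S.card = n → (∀ s ∈ S, ∀ s' ∈ S, s ≠ s' → ¬ Int3 (r s - r s')) →
    (∀ s ∈ S, (P s).natDegree ≤ D) → X ^ Z ∣ ∑ s ∈ S, (P s : K⟦X⟧) * ph l (r s) →
    ∀ s ∈ S, P s = 0 := by
  classical
  induction n with
  | zero =>
    refine fun D => ⟨0, fun {K} _ _ l _ _ ι S r P hS _ _ _ s hs => ?_⟩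
    rw [Finset.card_eq_zero.1 hS] at hs
    simp at hs
  | succ n ih =>
    intro D
    obtain ⟨Z, hZ⟩ := ih (D + 3 * (D + 1))
    refine ⟨Z + (D + 1), fun {K} _ _ l hl h0 ι S r P hS hr hD h => ?_⟩
    obtain ⟨s₀, hs₀⟩ := Finset.card_pos.1 (by omega : 0 < S.card)
    have h1 : X ^ (Z + (D + 1)) ∣ (P s₀ : K⟦X⟧) +
        ∑ s ∈ S.erase s₀, (P s : K⟦X⟧) * ph l (r s - r s₀) := by
      have := h.mul_right (ph l (-r s₀))
      rw [← Finset.add_sum_erase _ _ hs₀, add_mul, Finset.sum_mul] at this
      simpa only [mul_assoc, ← ph_add, add_neg_cancel, ph_zero, mul_one, ← sub_eq_add_neg]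
        using this
    obtain ⟨P', h2, h3⟩ := iter hl h0 (S.erase s₀) (fun s => r s - r s₀)
      (fun s hs => hr s (Finset.mem_of_mem_erase hs) s₀ hs₀ (Finset.ne_of_mem_erase hs))
      (P s₀) P (D + 1) Z h1
    rw [Polynomial.iterate_derivative_eq_zero (Nat.lt_succ_of_le (hD s₀ hs₀)), Polynomial.coe_zero,
      zero_add] at h3
    have h4 : ∀ s ∈ S.erase s₀, P s = 0 := fun s hs => (h2 s hs).2 <|
      hZ l hl h0 (S.erase s₀) _ P' (by rw [Finset.card_erase_of_mem hs₀]; omega)
        (fun s hs s' hs' hne => by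
          simpa only [sub_sub_sub_cancel_right] using
            hr s (Finset.mem_of_mem_erase hs) s' (Finset.mem_of_mem_erase hs') hne)
        (fun s hs => by
          have := (h2 s hs).1
          have := hD s (Finset.mem_of_mem_erase hs)
          omega) h3 s hs
    intro s hs
    by_cases hss : s = s₀
    · rw [Finset.sum_eq_zero fun s hs => by rw [h4 s hs, Polynomial.coe_zero, zero_mul], add_zero,
        X_pow_dvd_iff] at h1
      rw [hss]
      ext m
      by_cases hm : m ≤ D
      · simpa using h1 m (by omega)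
      · exact Polynomial.coeff_eq_zero_of_natDegree_lt (by have := hD s₀ hs₀; omega)
    · exact h4 s (Finset.mem_erase.2 ⟨hss, hs⟩)

end

end Pool.Agent.P.MP_2c7719_nt.Win
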